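import Pool.Agent.H20PT.Den

/-!
# The joint distribution of the class modulo `m` and of characters of prime conductors
-/

set_option autoImplicit false

namespace Pool.Agent.H20PT

open Finset Filter Topology
open scoped Classical

/-- a finite change does not change the density -/
theorem dens_congr {S T : ℕ → Prop} (B : ℕ) (h : ∀ q : ℕ, B < q → q.Prime → (S q ↔ T q)) {δ : ℝ}
    (hS : Tendsto (fun X : ℕ => (((Icc 1 X).filter fun q : ℕ => q.Prime ∧ S q).card : ℝ) /
      (((Icc 1 X).filter fun q : ℕ => q.Prime).card : ℝ)) atTop (𝓝 δ)) :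
    Tendsto (fun X : ℕ => (((Icc 1 X).filter fun q : ℕ => q.Prime ∧ T q).card : ℝ) /
      (((Icc 1 X).filter fun q : ℕ => q.Prime).card : ℝ)) atTop (𝓝 δ) := by
  have hpc : ∀ X : ℕ, ((Icc 1 X).filter fun q : ℕ => q.Prime).card = Nat.primeCounting X := by
    intro X
    unfold Nat.primeCounting Nat.primeCounting'
    rw [Nat.count_eq_card_filter_range]
    congr 1
    ext p
    simp only [mem_filter, mem_Icc, mem_range]
    constructor
    · rintro ⟨h1, h2⟩
      exact ⟨by omega, h2⟩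
    · rintro ⟨h1, h2⟩
      exact ⟨⟨h2.one_le, by omega⟩, h2⟩
  have hinf : Tendsto (fun X : ℕ => (((Icc 1 X).filter fun q : ℕ => q.Prime).card : ℝ)) atTop atTop := by
    simp only [hpc]
    exact tendsto_natCast_atTop_atTop.comp Nat.tendsto_primeCounting
  have hB : Tendsto (fun X : ℕ => (B : ℝ) / (((Icc 1 X).filter fun q : ℕ => q.Prime).card : ℝ)) atTop
      (𝓝 0) := hinf.const_div_atTop _
  have key : ∀ (S T : ℕ → Prop), (∀ q : ℕ, B < q → q.Prime → (S q ↔ T q)) → ∀ X : ℕ,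
      ((Icc 1 X).filter fun q : ℕ => q.Prime ∧ S q).card ≤
        ((Icc 1 X).filter fun q : ℕ => q.Prime ∧ T q).card + B := by
    intro S T h X
    have h1 : ((Icc 1 X).filter fun q : ℕ => q.Prime ∧ S q) ⊆
        ((Icc 1 X).filter fun q : ℕ => q.Prime ∧ T q) ∪ Icc 1 B := by
      intro q hq
      rw [mem_filter] at hq
      rw [mem_union, mem_filter]
      by_cases hqB : B < q
      · exact Or.inl ⟨hq.1, hq.2.1, (h q hqB hq.2.1).1 hq.2.2⟩
      · exact Or.inr (mem_Icc.2 ⟨(mem_Icc.1 hq.1).1, by omega⟩)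
    refine (card_le_card h1).trans ((card_union_le _ _).trans ?_)
    rw [Nat.card_Icc]
    omega
  have h2 : Tendsto (fun X : ℕ => (((Icc 1 X).filter fun q : ℕ => q.Prime ∧ T q).card : ℝ) /
      (((Icc 1 X).filter fun q : ℕ => q.Prime).card : ℝ) -
      (((Icc 1 X).filter fun q : ℕ => q.Prime ∧ S q).card : ℝ) /
      (((Icc 1 X).filter fun q : ℕ => q.Prime).card : ℝ)) atTop (𝓝 0) := by
    rw [tendsto_zero_iff_abs_tendsto_zero]
    refine squeeze_zero (fun X => abs_nonneg _) (fun X => ?_) hB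
    simp only [Function.comp]
    rw [← sub_div, abs_div, Nat.abs_cast]
    refine div_le_div_of_nonneg_right ?_ (Nat.cast_nonneg _)
    have a1 := key S T h X
    have a2 := key T S (fun q hq hp => (h q hq hp).symm) X
    have b1 : (((Icc 1 X).filter fun q : ℕ => q.Prime ∧ S q).card : ℝ) ≤
        (((Icc 1 X).filter fun q : ℕ => q.Prime ∧ T q).card : ℝ) + B := by exact_mod_cast a1
    have b2 : (((Icc 1 X).filter fun q : ℕ => q.Prime ∧ T q).card : ℝ) ≤
        (((Icc 1 X).filter fun q : ℕ => q.Prime ∧ S q).card : ℝ) + B := by exact_mod_cast a2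
    rw [abs_le]
    constructor <;> linarith
  have h3 := h2.add hS
  simpa using h3

/-- the fibres of a surjective homomorphism -/
theorem card_pre {G H : Type*} [Group G] [Group H] [Fintype G] [Fintype H] (f : G →* H)
    (hf : Function.Surjective f) (T : Finset H) :
    (univ.filter fun g => f g ∈ T).card * Fintype.card H = T.card * Fintype.card G := by
  have h1 : ∀ S : Finset H, (univ.filter fun g => f g ∈ S).card =
      S.card * (univ.filter fun g => f g = 1).card := by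
    intro S
    rw [Finset.card_eq_sum_card_fiberwise (f := f) (t := S) (by
      intro g hg
      simpa using hg)]
    rw [Finset.sum_const_nat (m := (univ.filter fun g => f g = 1).card)]
    intro y hy
    rw [← MonoidHom.card_fiber_eq_of_mem_range f (hf y) (hf 1)]
    congr 1
    ext g
    simp only [mem_filter, mem_univ, true_and]
    constructor
    · exact fun h => h.2
    · exact fun h => ⟨h ▸ hy, h⟩
  have h2 : Fintype.card G = Fintype.card H * (univ.filter fun g => f g = 1).card := by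
    have := h1 univ
    simpa using this
  rw [h1, h2]
  ring

section gen

variable {m : ℕ} {P : Finset ℕ} {H : Type} [Group H]

theorem dvd_all (p : P) : (p : ℕ) ∣ ∏ p ∈ P, p := Finset.dvd_prod_of_mem (fun x : ℕ => x) p.2

theorem dvd_mod (m : ℕ) (p : P) : (p : ℕ) ∣ m * ∏ p ∈ P, p := (dvd_all p).mul_left m

/-- the class modulo `m` and all characters -/
noncomputable def Phi (m : ℕ) (P : Finset ℕ) (f : ∀ p : P, (ZMod (p : ℕ))ˣ →* H) :
    (ZMod (m * ∏ p ∈ P, p))ˣ →* (ZMod m)ˣ × (P → H) :=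
  MonoidHom.prod (ZMod.unitsMap (Dvd.intro _ rfl))
    (MonoidHom.pi fun p => (f p).comp
      (ZMod.unitsMap (dvd_mod m p)))

theorem crt (hm : m ≠ 0) (hP : ∀ p ∈ P, p.Prime) (hc : ∀ p ∈ P, ¬ p ∣ m) (a : ℕ) (b : P → ℕ) :
    ∃ k : ℕ, k ≡ a [MOD m] ∧ ∀ p : P, k ≡ b p [MOD (p : ℕ)] := by
  set b' : ℕ → ℕ := fun p => if h : p ∈ P then b ⟨p, h⟩ else 0 with hb'
  obtain ⟨k₁, hk₁⟩ := Nat.chineseRemainderOfFinset b' (fun p => p) P
    (fun p hp => (hP p hp).ne_zero) (by
      intro p hp q hq hpq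
      exact (Nat.coprime_primes (hP p hp) (hP q hq)).2 hpq)
  have hco : Nat.Coprime m (∏ p ∈ P, p) := by
    refine Nat.Coprime.prod_right fun p hp => ?_
    rw [Nat.coprime_comm, (hP p hp).coprime_iff_not_dvd]
    exact hc p hp
  obtain ⟨k, hk1, hk2⟩ := Nat.chineseRemainder hco a k₁
  refine ⟨k, hk1, fun p => ?_⟩
  have h1 : k ≡ k₁ [MOD (p : ℕ)] := hk2.of_dvd (dvd_all p)
  have h2 := hk₁ p p.2
  have h3 : b' p = b p := by
    rw [hb']
    simp only
    rw [dif_pos p.2]
  rw [h3] at h2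
  exact h1.trans h2

theorem Phi_surj (hm : m ≠ 0) (hP : ∀ p ∈ P, p.Prime) (hc : ∀ p ∈ P, ¬ p ∣ m)
    (f : ∀ p : P, (ZMod (p : ℕ))ˣ →* H) (hf : ∀ p, Function.Surjective (f p)) :
    Function.Surjective (Phi m P f) := by
  haveI : NeZero m := ⟨hm⟩
  rintro ⟨u, v⟩
  have hPp : ∀ p : P, NeZero (p : ℕ) := fun p => ⟨(hP p p.2).ne_zero⟩
  choose w hw using fun p => hf p (v p)
  obtain ⟨k, hk1, hk2⟩ := crt hm hP hc (u : ZMod m).val (fun p => (w p : ZMod (p : ℕ)).val)
  have hk1' : (k : ZMod m) = u := by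
    rw [← ZMod.natCast_zmod_val (u : ZMod m), ZMod.natCast_eq_natCast_iff]
    exact hk1
  have hk2' : ∀ p : P, (k : ZMod (p : ℕ)) = w p := by
    intro p
    haveI := hPp p
    rw [← ZMod.natCast_zmod_val (w p : ZMod (p : ℕ)), ZMod.natCast_eq_natCast_iff]
    exact hk2 p
  have hkc : Nat.Coprime k (m * ∏ p ∈ P, p) := by
    refine Nat.Coprime.mul_right ?_ (Nat.Coprime.prod_right fun p hp => ?_)
    · rw [← ZMod.isUnit_iff_coprime, hk1']
      exact u.isUnit
    · rw [← ZMod.isUnit_iff_coprime, hk2' ⟨p, hp⟩]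
      exact (w ⟨p, hp⟩).isUnit
  refine ⟨ZMod.unitOfCoprime k hkc, Prod.ext ?_ ?_⟩
  · ext
    simp only [Phi, MonoidHom.prod_apply, ZMod.unitsMap_val, ZMod.coe_unitOfCoprime]
    rw [ZMod.cast_natCast (Dvd.intro _ rfl), hk1']
  · funext p
    change f p (ZMod.unitsMap _ (ZMod.unitOfCoprime k hkc)) = v p
    rw [← hw p]
    congr 1
    ext
    rw [ZMod.unitsMap_val, ZMod.coe_unitOfCoprime,
      ZMod.cast_natCast (dvd_mod m p), hk2' p]

/-- the class and the characters of `q` belong to `T` -/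
def InT (f : ∀ p : P, (ZMod (p : ℕ))ˣ →* H) (T : Finset ((ZMod m)ˣ × (P → H))) (q : ℕ) : Prop :=
  ∃ x ∈ T, (q : ZMod m) = x.1 ∧ ∀ p : P, ∃ y : (ZMod (p : ℕ))ˣ, (q : ZMod (p : ℕ)) = y ∧ f p y = x.2 p

/-- **The joint distribution.** -/
theorem dist_gen [Fintype H] (hm : m ≠ 0) (hP : ∀ p ∈ P, p.Prime) (hc : ∀ p ∈ P, ¬ p ∣ m)
    (f : ∀ p : P, (ZMod (p : ℕ))ˣ →* H) (hf : ∀ p, Function.Surjective (f p))
    (T : Finset ((ZMod m)ˣ × (P → H))) :
    Tendsto (fun X : ℕ => (((Icc 1 X).filter fun q : ℕ => q.Prime ∧ InT f T q).card : ℝ) /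
      (((Icc 1 X).filter fun q : ℕ => q.Prime).card : ℝ)) atTop
      (𝓝 ((T.card : ℝ) / (m.totient * Fintype.card H ^ P.card))) := by
  haveI hm' : NeZero m := ⟨hm⟩
  have hM : m * ∏ p ∈ P, p ≠ 0 :=
    mul_ne_zero hm (Finset.prod_ne_zero_iff.2 fun p hp => (hP p hp).ne_zero)
  haveI : NeZero (m * ∏ p ∈ P, p) := ⟨hM⟩
  set A' : Finset (ZMod (m * ∏ p ∈ P, p))ˣ := univ.filter fun g => Phi m P f g ∈ T with hA'
  set A : Finset (ZMod (m * ∏ p ∈ P, p)) := A'.image Units.val with hA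
  have hd := dens A (by
    intro a ha
    obtain ⟨u, -, rfl⟩ := Finset.mem_image.1 ha
    exact u.isUnit)
  have hAc : A.card = A'.card := Finset.card_image_of_injective _ Units.val_injective
  have hcard : A.card * Fintype.card ((ZMod m)ˣ × (P → H)) =
      T.card * Fintype.card (ZMod (m * ∏ p ∈ P, p))ˣ := by
    rw [hAc]
    convert card_pre (Phi m P f) (Phi_surj hm hP hc f hf) T
  rw [Fintype.card_prod, Fintype.card_fun, ZMod.card_units_eq_totient, ZMod.card_units_eq_totient,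
    Fintype.card_coe] at hcard
  have hlim : (A.card : ℝ) * (((m * ∏ p ∈ P, p).totient : ℕ) : ℝ)⁻¹ =
      (T.card : ℝ) / (m.totient * Fintype.card H ^ P.card) := by
    have h1 : (A.card : ℝ) * (m.totient * Fintype.card H ^ P.card) =
        T.card * ((m * ∏ p ∈ P, p).totient : ℝ) := by
      exact_mod_cast hcard
    have h2 : ((m * ∏ p ∈ P, p).totient : ℝ) ≠ 0 := by
      have : 0 < (m * ∏ p ∈ P, p).totient := Nat.totient_pos.2 (Nat.pos_of_ne_zero hM)
      exact_mod_cast this.ne'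
    have h3 : ((m.totient : ℝ) * Fintype.card H ^ P.card) ≠ 0 := by
      have : 0 < m.totient := Nat.totient_pos.2 (Nat.pos_of_ne_zero hm)
      have h4 : (m.totient : ℝ) ≠ 0 := by exact_mod_cast this.ne'
      have h5 : (Fintype.card H : ℝ) ≠ 0 := by exact_mod_cast Fintype.card_ne_zero
      positivity
    rw [← div_eq_mul_inv, div_eq_div_iff h2 h3]
    exact h1
  rw [hlim] at hd
  refine hd.congr fun X => ?_
  congr 3
  ext q
  simp only [Finset.mem_filter]
  refine and_congr_right fun _ => and_congr_right fun _ => ?_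
  rw [hA, Finset.mem_image]
  constructor
  · rintro ⟨u, hu, huq⟩
    refine ⟨Phi m P f u, (Finset.mem_filter.1 hu).2, ?_, fun p => ?_⟩
    · simp only [Phi, MonoidHom.prod_apply, ZMod.unitsMap_val]
      rw [huq, ZMod.cast_natCast (Dvd.intro _ rfl)]
    · refine ⟨ZMod.unitsMap (dvd_mod m p) u, ?_, rfl⟩
      rw [ZMod.unitsMap_val, huq, ZMod.cast_natCast (dvd_mod m p)]
  · rintro ⟨x, hx, hxq, hxp⟩
    have hqc : Nat.Coprime q (m * ∏ p ∈ P, p) := by
      refine Nat.Coprime.mul_right ?_ (Nat.Coprime.prod_right fun p hp => ?_)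
      · rw [← ZMod.isUnit_iff_coprime, hxq]
        exact x.1.isUnit
      · obtain ⟨y, hy, -⟩ := hxp ⟨p, hp⟩
        have : IsUnit ((q : ℕ) : ZMod p) := by
          have h9 : ((q : ℕ) : ZMod p) = (y : ZMod p) := hy
          rw [h9]
          exact y.isUnit
        exact (ZMod.isUnit_iff_coprime q p).1 this
    refine ⟨ZMod.unitOfCoprime q hqc, ?_, ZMod.coe_unitOfCoprime q hqc⟩
    rw [hA', Finset.mem_filter]
    refine ⟨Finset.mem_univ _, ?_⟩
    have : Phi m P f (ZMod.unitOfCoprime q hqc) = x := by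
      refine Prod.ext ?_ (funext fun p => ?_)
      · ext
        simp only [Phi, MonoidHom.prod_apply, ZMod.unitsMap_val, ZMod.coe_unitOfCoprime]
        rw [ZMod.cast_natCast (Dvd.intro _ rfl), hxq]
      · obtain ⟨y, hy, hy2⟩ := hxp p
        change f p (ZMod.unitsMap _ (ZMod.unitOfCoprime q hqc)) = x.2 p
        rw [← hy2]
        congr 1
        ext
        rw [ZMod.unitsMap_val, ZMod.coe_unitOfCoprime,
          ZMod.cast_natCast (dvd_mod m p), hy]
    rw [this]
    exact hx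

end gen

end Pool.Agent.H20PT
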