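import Pool.Agent.H20PT.Fld
import Pool.Agent.H20PT.Gen
import Pool.Agent.Y37.CX.Sym
import Pool.Agent.Y333.CX.LAM

/-!
# The joint law of the cubic symbols of the primes `q ≡ 1` modulo `3`
-/

set_option autoImplicit false
set_option linter.unusedSectionVars false

namespace Pool.Agent.H20PT

open NumberField Filter Topology Finset Pool.Agent.W401.Cheb
open Pool.Agent.Y692.QS (Ei w nr mul_star nr_nonneg nr_star)
open Pool.Agent.Y715.T.Rec (cs nn)
open Pool.Agent.Y715.T.RecG (Pq)
open Pool.Agent.Y703.CX (pp lam LamP)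
open Pool.Agent.Y37.CX (QQ pp_facts pq_star cs_star QQ_dvd)
open Q283.TC (NT FT HH Dat)
open scoped Classical

/-- the two primary primes of norm `p` -/
theorem set_one (hL : LamP) {p : ℕ} (hp : p.Prime) (h1 : p % 3 = 1) {π : Ei} :
    (Pq π ∧ nr π = p) ↔ (π = pp p ∨ π = star (pp p)) := by
  obtain ⟨k1, k2, k3, k4, k5⟩ := pp_facts hL hp h1
  obtain ⟨-, hn⟩ := hL.ex p hp h1
  constructor
  · rintro ⟨hπ, hnπ⟩
    have h2 : π ∣ pp p * star (pp p) := by
      rw [mul_star, hn, ← hnπ, ← mul_star]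
      exact dvd_mul_right _ _
    rcases hπ.prime.dvd_or_dvd h2 with h3 | h3
    · exact Or.inl (Q283.TC.pq_eq_of_dvd k1 hπ h3)
    · exact Or.inr (Q283.TC.pq_eq_of_dvd k2 hπ h3)
  · rintro (rfl | rfl)
    · exact ⟨k1, hn⟩
    · exact ⟨k2, by rw [nr_star, hn]⟩

theorem FT_one (hL : LamP) {T : Ei → Prop} {p : ℕ} (hp : p.Prime) (h1 : p % 3 = 1)
    (hT : T (star (pp p)) ↔ T (pp p)) : FT T p = if T (pp p) then 2 else 0 := by
  obtain ⟨k1, k2, k3, k4, k5⟩ := pp_facts hL hp h1
  unfold FT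
  have e : ∀ π : Ei, (Pq π ∧ nr π = p ∧ T π) ↔ π ∈ (if T (pp p) then ({pp p, star (pp p)} : Finset Ei)
      else ∅) := by
    intro π
    rw [← and_assoc, set_one hL hp h1]
    split_ifs with h
    · rw [Finset.mem_insert, Finset.mem_singleton]
      constructor
      · exact fun h' => h'.1
      · intro h'
        refine ⟨h', ?_⟩
        rcases h' with rfl | rfl
        · exact h
        · exact hT.2 h
    · simp only [Finset.notMem_empty, iff_false, not_and]
      rintro (rfl | rfl)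
      · exact h
      · exact fun h' => h (hT.1 h')
  rw [Nat.subtype_card _ (fun π => (e π).symm)]
  split_ifs with h
  · rw [Finset.card_insert_of_notMem, Finset.card_singleton]
    rw [Finset.mem_singleton]
    exact k5
  · rfl

theorem FT_none {T : Ei → Prop} {p : ℕ} (hp : p.Prime) (h1 : p % 3 ≠ 1) : FT T p = 0 := by
  unfold FT
  rw [Nat.card_eq_zero]
  left
  refine ⟨fun ⟨π, h2, h3, _⟩ => ?_⟩
  by_cases h : p = 3
  · apply h2.norm
    have h4 : π * star π = 3 := by
      rw [mul_star, h3, h]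
      rfl
    exact ⟨_, h4.symm⟩
  · exact h1 (Q283.TC.mod_three h3 hp h)

/-- from all primary primes to those of degree one -/
theorem mean_of_NT {T : Ei → Prop} {c : ℝ}
    (h : Tendsto (fun X : ℕ => (NT T X : ℝ) / (Nat.primeCounting X : ℝ)) atTop (𝓝 c)) :
    Tendsto (M fun p => (FT T p : ℝ)) atTop (𝓝 c) := by
  have h1 : Tendsto (fun X : ℕ =>
      (({π : Ei | Pq π ∧ nr π ≤ X ∧ T π ∧ ¬ (nr π).natAbs.Prime}.ncard : ℕ) : ℝ) /
        (Nat.primeCounting X : ℝ)) atTop (𝓝 0) := by
    refine squeeze_zero (fun X => by positivity) (fun X => ?_) Q283.TC.sqrt_div_pc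
    refine div_le_div_of_nonneg_right ?_ (Nat.cast_nonneg _)
    exact_mod_cast Q283.TC.few_inert T X
  have h2 := h.sub h1
  rw [sub_zero] at h2
  refine h2.congr fun X => ?_
  rw [Q283.TC.NT_split]
  unfold M
  push_cast
  ring

theorem pc_eq (X : ℕ) : ((Icc 1 X).filter fun q : ℕ => q.Prime).card = Nat.primeCounting X := by
  unfold Nat.primeCounting Nat.primeCounting'
  rw [Nat.count_eq_card_filter_range]
  congr 1
  ext p
  simp only [mem_filter, mem_Icc, mem_range]
  constructor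
  · rintro ⟨h1, h2⟩
    exact ⟨by omega, h2⟩
  · rintro ⟨h1, h2⟩
    exact ⟨⟨h2.one_le, by omega⟩, h2⟩

/-- from the primary primes to the rational primes -/
theorem dens_of_mean (hL : LamP) {T : Ei → Prop} (hT : ∀ p : ℕ, p.Prime → p % 3 = 1 →
    (T (star (pp p)) ↔ T (pp p))) {c : ℝ} (h : Tendsto (M fun p => (FT T p : ℝ)) atTop (𝓝 c)) :
    Tendsto (fun X : ℕ => (((Icc 1 X).filter fun q : ℕ => q.Prime ∧ (q % 3 = 1 ∧ T (pp q))).card : ℝ) /
      (((Icc 1 X).filter fun q : ℕ => q.Prime).card : ℝ)) atTop (𝓝 (c / 2)) := by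
  refine (h.div_const 2).congr fun X => ?_
  unfold M
  rw [pc_eq]
  have e : ∑ p ∈ pr X, (FT T p : ℝ) =
      2 * (((Icc 1 X).filter fun q : ℕ => q.Prime ∧ (q % 3 = 1 ∧ T (pp q))).card : ℝ) := by
    have e1 : pr X = (Icc 1 X).filter fun q : ℕ => q.Prime := by
      ext p
      rw [mem_pr, mem_filter, mem_Icc]
      constructor
      · rintro ⟨a, b⟩
        exact ⟨⟨b.one_le, a⟩, b⟩
      · rintro ⟨⟨-, a⟩, b⟩
        exact ⟨a, b⟩
    rw [e1, Finset.sum_filter]
    have e2 : ∀ p ∈ Icc 1 X, (if p.Prime then (FT T p : ℝ) else 0) =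
        2 * (if p.Prime ∧ (p % 3 = 1 ∧ T (pp p)) then (1 : ℝ) else 0) := by
      intro p _
      by_cases hp : p.Prime
      · rw [if_pos hp]
        by_cases h1 : p % 3 = 1
        · rw [FT_one hL hp h1 (hT p hp h1)]
          by_cases h2 : T (pp p)
          · rw [if_pos h2, if_pos ⟨hp, h1, h2⟩]
            norm_num
          · rw [if_neg h2, if_neg (fun h3 => h2 h3.2.2)]
            norm_num
        · rw [FT_none hp h1, if_neg (fun h3 => h1 h3.2.1)]
          norm_num
      · rw [if_neg hp, if_neg (fun h3 => hp h3.1), mul_zero]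
    rw [Finset.sum_congr rfl e2, ← Finset.mul_sum, Finset.sum_boole]
  rw [e]
  ring

/-- the density of the primes `1` modulo `3` -/
theorem dens_one_mod_three : Tendsto (fun X : ℕ =>
    (((Icc 1 X).filter fun q : ℕ => q.Prime ∧ q % 3 = 1).card : ℝ) /
      (((Icc 1 X).filter fun q : ℕ => q.Prime).card : ℝ)) atTop (𝓝 (1 / 2)) := by
  haveI : NeZero 3 := ⟨by norm_num⟩
  have h := dens (M := 3) {(1 : ZMod 3)} (by
    intro a ha
    rw [Finset.mem_singleton] at ha
    rw [ha]
    exact isUnit_one)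
  have h3 : Nat.totient 3 = 2 := by decide
  rw [Finset.card_singleton, h3] at h
  norm_num at h
  norm_num
  refine h.congr fun X => ?_
  congr 3
  ext q
  simp only [Finset.mem_filter]
  refine and_congr_right fun _ => and_congr_right fun _ => ?_
  have : ((q : ZMod 3) = 1) ↔ ((q : ZMod 3) = ((1 : ℕ) : ZMod 3)) := by simp
  rw [this, ZMod.natCast_eq_natCast_iff']

/-- **The joint law for the primary primes**, as a mean value. -/
theorem mean_law (hL : LamP) (P : Finset Ei) (hP : ∀ q ∈ P, Pq q)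
    (Q : (P → ZMod 3) × ZMod 3 → Prop) :
    Tendsto (M fun p => (FT (fun π => Q (fun z : P => cs π z, cs π w)) p : ℝ)) atTop
      (𝓝 ((Nat.card {x : (P → ZMod 3) × ZMod 3 // Q x} : ℝ) / 3 ^ (P.card + 1))) := by
  obtain ⟨L, _, _, _, ⟨E⟩⟩ := exists_dat P
  have h1 := fun Q => E.dens hP Q (fun π => Q (fun z : P => cs π z, cs π w)) (fun π _ _ => Iff.rfl)
  -- the index
  have h2 : 2 * (Nat.card (HH E.Z) : ℝ) / (Nat.card Gal(L/ℚ) : ℝ) = 1 := by
    have h3 := mean_of_NT (h1 (fun _ => True))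
    have h4 : (Nat.card {x : (P → ZMod 3) × ZMod 3 // True} : ℝ) / 3 ^ (P.card + 1) = 1 := by
      have : Nat.card {x : (P → ZMod 3) × ZMod 3 // True} = 3 ^ (P.card + 1) := by
        rw [Nat.card_congr (Equiv.subtypeUnivEquiv fun _ => trivial), Nat.card_prod,
          Nat.card_fun, Nat.card_zmod, Nat.card_eq_fintype_card, Fintype.card_coe, pow_succ]
      rw [this]
      push_cast
      exact div_self (by positivity)
    rw [h4, mul_one] at h3
    have h5 := dens_of_mean hL (T := fun _ => True) (fun _ _ _ => Iff.rfl) h3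
    simp only [and_true] at h5
    have h6 := tendsto_nhds_unique h5 dens_one_mod_three
    linarith
  have h3 := mean_of_NT (h1 Q)
  rw [h2, one_mul] at h3
  exact h3

end Pool.Agent.H20PT
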