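import Pool.Agent.H20PT.Chb
import Pool.Agent.W401.Cheb.Main

/-!
# The density of the primes with Frobenius elements in a given set
-/

set_option autoImplicit false
set_option linter.unusedSectionVars false

namespace Pool.Agent.H20PT.Cls

open NumberField Filter Topology Finset Pool.Agent.W401.Cheb
open scoped Classical

theorem pr_eq (X : ℕ) : pr X = (Icc 1 X).filter fun q : ℕ => q.Prime := by
  ext p
  rw [mem_pr, mem_filter, mem_Icc]
  constructor
  · rintro ⟨a, b⟩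
    exact ⟨⟨b.one_le, a⟩, b⟩
  · rintro ⟨⟨-, a⟩, b⟩
    exact ⟨a, b⟩

/-- the set `S` of primes has the density `δ` -/
def HD (S : ℕ → Prop) (δ : ℝ) : Prop :=
  Tendsto (fun X : ℕ => (((Icc 1 X).filter fun q : ℕ => q.Prime ∧ S q).card : ℝ) /
    (((Icc 1 X).filter fun q : ℕ => q.Prime).card : ℝ)) atTop (𝓝 δ)

theorem HD.congr' {S T : ℕ → Prop} {δ : ℝ} (hS : HD S δ) (B : ℕ)
    (h : ∀ q : ℕ, B < q → q.Prime → (S q ↔ T q)) : HD T δ :=
  dens_congr B h hS

theorem HD.uniq {S : ℕ → Prop} {a b : ℝ} (h1 : HD S a) (h2 : HD S b) : a = b :=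
  tendsto_nhds_unique h1 h2

/-- a finite disjoint union -/
theorem HD.sum {ι : Type} (F : Finset ι) (S : ι → ℕ → Prop) (δ : ι → ℝ)
    (h : ∀ i ∈ F, HD (S i) (δ i)) (hd : ∀ i ∈ F, ∀ j ∈ F, i ≠ j → ∀ q, S i q → ¬ S j q) :
    HD (fun q => ∃ i ∈ F, S i q) (∑ i ∈ F, δ i) := by
  unfold HD
  have h1 : Tendsto (fun X : ℕ => ∑ i ∈ F,
      (((Icc 1 X).filter fun q : ℕ => q.Prime ∧ S i q).card : ℝ) /
      (((Icc 1 X).filter fun q : ℕ => q.Prime).card : ℝ)) atTop (𝓝 (∑ i ∈ F, δ i)) :=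
    tendsto_finsetSum _ fun i hi => h i hi
  refine h1.congr fun X => ?_
  rw [← Finset.sum_div]
  congr 1
  rw [← Nat.cast_sum]
  congr 1
  rw [← Finset.card_biUnion]
  · congr 1
    ext q
    simp only [Finset.mem_biUnion, Finset.mem_filter]
    constructor
    · rintro ⟨i, hi, a, b, c⟩
      exact ⟨a, b, i, hi, c⟩
    · rintro ⟨a, b, i, hi, c⟩
      exact ⟨i, hi, a, b, c⟩
  · intro i hi j hj hij
    refine Finset.disjoint_left.2 ?_
    intro q hq1 hq2
    rw [Finset.mem_filter] at hq1 hq2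
    exact hd i hi j hj hij q hq1.2.2 hq2.2.2

/-- the mean value of an indicator function -/
theorem M_ind (T : ℕ → Prop) (X : ℕ) : M (fun p => if T p then (1 : ℝ) else 0) X =
    (((Icc 1 X).filter fun q : ℕ => q.Prime ∧ T q).card : ℝ) /
      (((Icc 1 X).filter fun q : ℕ => q.Prime).card : ℝ) := by
  unfold M
  rw [pc_eq, pr_eq, Finset.sum_boole, Finset.filter_filter]

/-- **The density of the primes with Frobenius elements in the set `C`.** -/
theorem dens_class {L : Type} [Field L] [NumberField L] [IsGalois ℚ L] (C : Gal(L/ℚ) → Prop)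
    (T : ℕ → Prop) (D0 : ℕ) (hD0 : 0 < D0)
    (h : ∀ (p : ℕ) [Fact p.Prime], ¬ p ∣ D0 → ∀ (φ : 𝓞 L →+* AlgebraicClosure (ZMod p))
      (g : Gal(L/ℚ)), HasFrob p φ g → (C g ↔ T p)) :
    HD T ((Nat.card {g : Gal(L/ℚ) // C g} : ℝ) / (Nat.card Gal(L/ℚ) : ℝ)) := by
  obtain ⟨D1, hD1, htor⟩ := torsor L
  have h1 : Tendsto (M fun p => ∑ g ∈ univ.filter (fun g : Gal(L/ℚ) => C g), (xp L g p : ℝ)) atTop
      (𝓝 (Nat.card {g : Gal(L/ℚ) // C g} : ℝ)) := by
    have h2 : Tendsto (fun N => ∑ g ∈ univ.filter (fun g : Gal(L/ℚ) => C g),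
        M (fun p => (xp L g p : ℝ)) N) atTop
        (𝓝 (∑ g ∈ univ.filter (fun g : Gal(L/ℚ) => C g), (1 : ℝ))) :=
      tendsto_finsetSum _ fun g _ => chebotarev L g
    have h3 : (∑ g ∈ univ.filter (fun g : Gal(L/ℚ) => C g), (1 : ℝ)) =
        (Nat.card {g : Gal(L/ℚ) // C g} : ℝ) := by
      rw [Finset.sum_const, nsmul_eq_mul, mul_one, Nat.card_eq_fintype_card, Fintype.card_subtype]
    rw [h3] at h2
    exact h2.congr fun N => (M_sum _ _ N).symm
  have hG : (Nat.card Gal(L/ℚ) : ℝ) ≠ 0 := by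
    exact_mod_cast Nat.card_pos.ne'
  have h4 : Tendsto (M fun p => (Nat.card Gal(L/ℚ) : ℝ) * (if T p then (1 : ℝ) else 0)) atTop
      (𝓝 (Nat.card {g : Gal(L/ℚ) // C g} : ℝ)) := by
    refine M_congr (Nat.mul_pos hD0 hD1) (fun p hp hpD => ?_) h1
    haveI : Fact p.Prime := ⟨hp⟩
    have hp0 : ¬ p ∣ D0 := fun h => hpD (h.mul_right D1)
    have hp1 : ¬ p ∣ D1 := fun h => hpD (h.mul_left D0)
    have ht := htor p hp1
    have hne : ∀ g : Gal(L/ℚ), xp L g p ≠ 0 → (C g ↔ T p) := by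
      intro g hg
      unfold xp at hg
      rw [dif_pos hp] at hg
      obtain ⟨⟨φ, hφ⟩⟩ := (Nat.card_ne_zero.1 hg).1
      exact h p hp0 φ g hφ
    by_cases hT : T p
    · rw [if_pos hT, mul_one]
      have h5 : ∑ g ∈ univ.filter (fun g : Gal(L/ℚ) => C g), (xp L g p : ℝ) =
          ∑ g : Gal(L/ℚ), (xp L g p : ℝ) := by
        rw [Finset.sum_filter]
        refine Finset.sum_congr rfl fun g _ => ?_
        split_ifs with hg
        · rfl
        · by_contra hne'
          have : xp L g p ≠ 0 := fun h0 => hne' (by rw [h0, Nat.cast_zero])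
          exact hg ((hne g this).2 hT)
      rw [h5]
      have h6 := sum_xp ht
      exact_mod_cast h6.symm
    · rw [if_neg hT, mul_zero]
      symm
      refine Finset.sum_eq_zero fun g hg => ?_
      rw [Finset.mem_filter] at hg
      by_contra hne'
      have : xp L g p ≠ 0 := fun h0 => hne' (by rw [h0, Nat.cast_zero])
      exact hT ((hne g this).1 hg.2)
  have h5 := h4.div_const (Nat.card Gal(L/ℚ) : ℝ)
  refine h5.congr fun X => ?_
  rw [M_smul, mul_div_assoc, ← M_ind]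
  field_simp

end Pool.Agent.H20PT.Cls
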