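import Pool.Agent.H20PT.CritS

/-!
# Counting, and the density
-/

set_option autoImplicit false
set_option linter.unusedSectionVars false

namespace Pool.Agent.H20PT

open Finset Filter Topology
open Pool.Agent.Y703.CX (lam LamP)
open Pool.Agent.Y703.CT (Cls NoSplit Base Triv3)
open scoped Classical

/-- conditions, each of which excludes at most one value of a coordinate -/
theorem count_free {α : Type*} [Fintype α] [DecidableEq α] {k : Type*} [Fintype k] [DecidableEq k]
    [Nonempty k] {ι : Type*} (I : Finset ι) (l : ι → α) (Q : ι → (α → k) → Prop) (L : Finset α)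
    (hQ : ∀ i ∈ I, ∀ y : α → k, ∃ β : k, ∀ x : k, x ≠ β → Q i (Function.update y (l i) x))
    (hind : ∀ i ∈ I, ∀ s ∈ L, s ≠ l i → ∀ (y : α → k) (x : k), Q i y → Q i (Function.update y s x))
    (S : Finset α) : S ⊆ L →
    (∏ s ∈ S, (Fintype.card k - (I.filter fun i => l i = s).card)) * Fintype.card k ^ Fintype.card α ≤
      Fintype.card k ^ S.card *
        (univ.filter fun y : α → k => ∀ i ∈ I, l i ∈ S → Q i y).card := by
  induction S using Finset.induction_on with
  | empty =>
    intro _
    have : (univ.filter fun y : α → k => ∀ i ∈ I, l i ∈ (∅ : Finset α) → Q i y) = univ :=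
      Finset.filter_true_of_mem fun u _ i _ h => absurd h (Finset.notMem_empty _)
    rw [this, Finset.card_univ, Fintype.card_fun]
    simp
  | insert p S hp ih =>
    intro hSL
    have ih' := ih ((Finset.subset_insert p S).trans hSL)
    have hpL : p ∈ L := hSL (Finset.mem_insert_self _ _)
    rw [Finset.prod_insert hp, Finset.card_insert_of_notMem hp]
    set m : ℕ := (I.filter fun i => l i = p).card with hm
    have hsum : ∀ f : (α → k) → ℕ, ∑ u : α → k, ∑ x : k, f (Function.update u p x) =
        Fintype.card k * ∑ u : α → k, f u := by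
      intro f
      have h1 : ∑ y : (α → k) × k, f (Function.update y.1 p y.2) =
          ∑ y : (α → k) × k, f y.1 := by
        refine Finset.sum_bij' (fun y _ => (Function.update y.1 p y.2, y.1 p))
          (fun y _ => (Function.update y.1 p y.2, y.1 p)) ?_ ?_ ?_ ?_ ?_
        · intro _ _; exact Finset.mem_univ _
        · intro _ _; exact Finset.mem_univ _
        · rintro ⟨u, x⟩ _
          simp
        · rintro ⟨u, x⟩ _
          simp
        · rintro ⟨u, x⟩ _
          rfl
      rw [Fintype.sum_prod_type, Fintype.sum_prod_type] at h1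
      rw [h1]
      simp only [Finset.sum_const, Finset.card_univ, smul_eq_mul]
      rw [← Finset.mul_sum]
    have h1 : (Fintype.card k - m) * (univ.filter fun y : α → k => ∀ i ∈ I, l i ∈ S → Q i y).card ≤
        Fintype.card k * (univ.filter fun y : α → k => ∀ i ∈ I, l i ∈ insert p S → Q i y).card := by
      rw [Finset.card_filter, Finset.card_filter,
        ← hsum (fun u => if ∀ i ∈ I, l i ∈ insert p S → Q i u then 1 else 0), Finset.mul_sum]
      refine Finset.sum_le_sum fun u _ => ?_
      split_ifs with hu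
      · have hbt : ∀ i, ∃ b : k, i ∈ I → ∀ x : k, (l i = p → x ≠ b) → l i ∈ insert p S →
            Q i (Function.update u p x) := by
          intro i
          by_cases hi : i ∈ I
          swap
          · exact ⟨Classical.arbitrary k, fun h1 => absurd h1 hi⟩
          by_cases hip : l i = p
          · obtain ⟨b, hb⟩ := hQ i hi u
            refine ⟨b, fun _ x hx _ => ?_⟩
            rw [← hip]
            exact hb x (hx hip)
          · refine ⟨Classical.arbitrary k, fun _ x _ h3 => ?_⟩
            rw [Finset.mem_insert] at h3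
            exact hind i hi p hpL (Ne.symm hip) u x (hu i hi (h3.resolve_left hip))
        choose b hb using hbt
        set B : Finset k := (I.filter fun i => l i = p).image b with hB
        have hBc : B.card ≤ m := Finset.card_image_le
        have h6 : (univ \ B).card = Fintype.card k - B.card := by
          rw [Finset.card_sdiff_of_subset (Finset.subset_univ B), Finset.card_univ]
        rw [← Finset.card_filter, mul_one]
        refine le_trans ?_ (le_trans h6.ge (Finset.card_le_card fun x hx => ?_))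
        · omega
        · rw [Finset.mem_sdiff] at hx
          rw [Finset.mem_filter]
          refine ⟨Finset.mem_univ _, fun i hi h3 => ?_⟩
          refine hb i hi x (fun hip hxb => hx.2 ?_) h3
          rw [hxb, hB, Finset.mem_image]
          exact ⟨i, Finset.mem_filter.2 ⟨hi, hip⟩, rfl⟩
      · rw [mul_zero]
        exact Nat.zero_le _
    calc (Fintype.card k - m) * (∏ s ∈ S, (Fintype.card k - (I.filter fun i => l i = s).card)) *
          Fintype.card k ^ Fintype.card α
        = (Fintype.card k - m) * ((∏ s ∈ S, (Fintype.card k - (I.filter fun i => l i = s).card)) *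
          Fintype.card k ^ Fintype.card α) := by ring
      _ ≤ (Fintype.card k - m) * (Fintype.card k ^ S.card *
          (univ.filter fun y : α → k => ∀ i ∈ I, l i ∈ S → Q i y).card) :=
            Nat.mul_le_mul_left _ ih'
      _ = Fintype.card k ^ S.card * ((Fintype.card k - m) *
          (univ.filter fun y : α → k => ∀ i ∈ I, l i ∈ S → Q i y).card) := by ring
      _ ≤ Fintype.card k ^ S.card * (Fintype.card k *
          (univ.filter fun y : α → k => ∀ i ∈ I, l i ∈ insert p S → Q i y).card) :=
            Nat.mul_le_mul_left _ h1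
      _ = Fintype.card k ^ (S.card + 1) *
          (univ.filter fun y : α → k => ∀ i ∈ I, l i ∈ insert p S → Q i y).card := by ring

theorem card_filter_le_of {β : Type*} [Fintype β] (p r : β → Prop) (d1 : DecidablePred p)
    (d2 : DecidablePred r) (h : ∀ y, p y → r y) :
    (@Finset.filter β p d1 univ).card ≤ (@Finset.filter β r d2 univ).card := by
  refine Finset.card_le_card fun y hy => ?_
  rw [Finset.mem_filter] at hy ⊢
  exact ⟨hy.1, h y hy.2⟩

/-- the family: `i = (N, e)` with the inert prime `lf N` -/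
structure Fam (lf : ℕ → ℕ) (U : Finset ℕ) (I : Finset (ℕ × ℕ)) : Prop where
  one : ∀ i ∈ I, OneI i.1 (lf i.1)
  exp : ∀ i ∈ I, i.2 = 1 ∨ i.2 = 2
  sub : ∀ i ∈ I, i.1.primeFactors ⊆ U
  pr : ∀ u ∈ U, u.Prime ∧ u ≠ 3

/-- the number of the pairs `(a, y)` that are good for all members -/
noncomputable def nu (ℓ : ℕ → ℕ → ZMod 3) (lf : ℕ → ℕ) (U : Finset ℕ) (I : Finset (ℕ × ℕ)) : ℕ :=
  (univ.filter fun x : (P1 U → ZMod 3) × (U → ZMod 3) => ∀ i ∈ I,
    Kb ℓ i.1 (lf i.1) (i.2 : ZMod 3) (FF.ex x.1) (FF.ex x.2)).card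

theorem erase_sub {lf : ℕ → ℕ} {U : Finset ℕ} {I : Finset (ℕ × ℕ)} (h : Fam lf U I) :
    ∀ i ∈ I, i.1.primeFactors.erase (lf i.1) ⊆ P1 U := by
  intro i hi p hp
  rw [Finset.mem_erase] at hp
  exact Finset.mem_filter.2 ⟨h.sub i hi hp.2, (h.one i hi).one hp.2 hp.1⟩

theorem nu_ge {ℓ : ℕ → ℕ → ZMod 3} {lf : ℕ → ℕ} {U : Finset ℕ} {I : Finset (ℕ × ℕ)}
    (h : Fam lf U I) :
    (∏ s ∈ U, (3 - (I.filter fun i => s ∣ i.1).card)) * 3 ^ (P1 U).card ≤ nu ℓ lf U I := by
  -- the good `a`
  set GA : Finset (P1 U → ZMod 3) := univ.filter fun a => ∀ i ∈ I,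
    FF.Ns (i.1.primeFactors.erase (lf i.1)) (AN ℓ i.1) (fun p => -(i.2 : ZMod 3) * FF.ex a p) with hGA
  have hmem : ∀ i ∈ I, ∀ s ∈ U, (s ∈ i.1.primeFactors ↔ s ∣ i.1) := by
    intro i hi s hs
    rw [Nat.mem_primeFactors]
    exact ⟨fun h' => h'.2.1, fun h' => ⟨(h.pr s hs).1, h', (h.one i hi).1.1⟩⟩
  have h1 : ∏ p ∈ P1 U, (3 - (I.filter fun i => p ∣ i.1).card) ≤ GA.card := by
    have h2 := FF.count_all I (fun i => AN ℓ i.1) (fun i => -(i.2 : ZMod 3)) (by
      intro i hi
      rcases h.exp i hi with h' | h'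
      · rw [h']; decide
      · rw [h']; decide) (P1 U) (fun i => i.1.primeFactors.erase (lf i.1)) (erase_sub h)
    rw [ZMod.card] at h2
    refine le_trans (le_of_eq ?_) h2
    refine Finset.prod_congr rfl fun p hp => ?_
    obtain ⟨hpU, hp1⟩ := Finset.mem_filter.1 hp
    congr 2
    refine Finset.filter_congr fun i hi => ?_
    rw [Finset.mem_erase, hmem i hi p hpU]
    exact ⟨fun h' => ⟨(h.one i hi).ne hp1, h'⟩, fun h' => h'.2⟩
  -- the good `y` for a good `a`
  have h2 : ∀ a ∈ GA, (∏ s ∈ U.filter (fun s => ¬ s % 3 = 1), (3 - (I.filter fun i => s ∣ i.1).card)) *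
      3 ^ (P1 U).card ≤ (univ.filter fun y : U → ZMod 3 => ∀ i ∈ I,
        Kb ℓ i.1 (lf i.1) (i.2 : ZMod 3) (FF.ex a) (FF.ex y)).card := by
    intro a ha
    rw [hGA, Finset.mem_filter] at ha
    have hl : ∀ i : I, lf i.1.1 ∈ U := fun i => h.sub i.1 i.2 (h.one i.1 i.2).mem
    set L : Finset U := univ.filter fun s => ¬ (s : ℕ) % 3 = 1 with hL
    have h3 := count_free (univ : Finset I) (fun i => (⟨lf i.1.1, hl i⟩ : U))
      (fun i y => Kb ℓ i.1.1 (lf i.1.1) (i.1.2 : ZMod 3) (FF.ex a) (FF.ex y)) L (by
        intro i _ y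
        obtain ⟨β, hβ⟩ := kb_step (h.one i.1 i.2) (ha.2 i.1 i.2) (FF.ex y)
        refine ⟨β, fun x hx => ?_⟩
        rw [FF.ex_update]
        exact hβ x hx) (by
        intro i _ s hs hsl y x hk
        rw [hL, Finset.mem_filter] at hs
        rw [FF.ex_update]
        refine (Kb_congr (fun _ _ => rfl) (fun p hp => ?_)).1 hk
        have : p ≠ (s : ℕ) := by
          intro he
          by_cases hpl : p = lf i.1.1
          · exact hsl (Subtype.ext (he.symm.trans hpl))
          · exact hs.2 (he ▸ (h.one i.1 i.2).one hp hpl)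
        rw [Function.update_of_ne this]) L subset_rfl
    rw [ZMod.card, Fintype.card_coe] at h3
    have h3 := h3.trans (Nat.mul_le_mul_left _ (card_filter_le_of _
      (fun y : U → ZMod 3 => ∀ i ∈ I, Kb ℓ i.1 (lf i.1) (i.2 : ZMod 3) (FF.ex a) (FF.ex y))
      _ (fun _ => Classical.propDecidable _) (by
        intro y hy i hi
        refine hy ⟨i, hi⟩ (Finset.mem_univ _) ?_
        rw [hL, Finset.mem_filter]
        refine ⟨Finset.mem_univ _, ?_⟩
        have := (h.one i hi).2.2.1
        simp only
        omega)))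
    have hLc : L.card = (U.filter fun s => ¬ s % 3 = 1).card := by
      rw [hL]
      refine Finset.card_bij (fun s _ => (s : ℕ)) ?_ ?_ ?_
      · intro s hs
        rw [Finset.mem_filter] at hs ⊢
        exact ⟨s.2, hs.2⟩
      · intro s _ t _ hst
        exact Subtype.ext hst
      · intro s hs
        rw [Finset.mem_filter] at hs
        exact ⟨⟨s, hs.1⟩, Finset.mem_filter.2 ⟨Finset.mem_univ _, hs.2⟩, rfl⟩
    have hUc : U.card = (P1 U).card + L.card := by
      rw [hLc]
      unfold P1
      exact (Finset.card_filter_add_card_filter_not _).symm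
    have hprod : ∏ s ∈ L, (3 - ((univ : Finset I).filter fun i => (⟨lf i.1.1, hl i⟩ : U) = s).card) =
        ∏ s ∈ U.filter (fun s => ¬ s % 3 = 1), (3 - (I.filter fun i => s ∣ i.1).card) := by
      rw [hL]
      refine Finset.prod_bij (fun s _ => (s : ℕ)) ?_ ?_ ?_ ?_
      · intro s hs
        rw [Finset.mem_filter] at hs ⊢
        exact ⟨s.2, hs.2⟩
      · intro s _ t _ hst
        exact Subtype.ext hst
      · intro s hs
        rw [Finset.mem_filter] at hs
        exact ⟨⟨s, hs.1⟩, Finset.mem_filter.2 ⟨Finset.mem_univ _, hs.2⟩, rfl⟩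
      · intro s hs
        rw [Finset.mem_filter] at hs
        congr 1
        refine Finset.card_bij (fun i _ => i.1) ?_ ?_ ?_
        · intro i hi
          rw [Finset.mem_filter] at hi ⊢
          refine ⟨i.2, ?_⟩
          rw [← hi.2]
          exact (h.one i.1 i.2).2.2.2.1
        · intro i _ j _ hij
          exact Subtype.ext hij
        · intro i hi
          rw [Finset.mem_filter] at hi
          refine ⟨⟨i, hi.1⟩, Finset.mem_filter.2 ⟨Finset.mem_univ _, Subtype.ext ?_⟩, rfl⟩
          by_contra hne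
          exact hs.2 ((h.one i hi.1).one ((hmem i hi.1 s s.2).2 hi.2) (fun e => hne e.symm))
    have h4 : 3 ^ L.card * ((∏ s ∈ U.filter (fun s => ¬ s % 3 = 1),
        (3 - (I.filter fun i => s ∣ i.1).card)) * 3 ^ (P1 U).card) ≤ 3 ^ L.card *
        (univ.filter fun y : U → ZMod 3 => ∀ i ∈ I,
        Kb ℓ i.1 (lf i.1) (i.2 : ZMod 3) (FF.ex a) (FF.ex y)).card := by
      refine le_trans (le_of_eq ?_) (h3.trans (le_of_eq ?_))
      · rw [← hprod]
        have e1 : 3 ^ U.card = 3 ^ (P1 U).card * 3 ^ L.card := by rw [← pow_add, ← hUc]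
        rw [e1]
        ring_nf
      · congr 3
    exact Nat.le_of_mul_le_mul_left h4 (by positivity)
  -- together
  have h5 : nu ℓ lf U I = ∑ a : P1 U → ZMod 3, (univ.filter fun y : U → ZMod 3 => ∀ i ∈ I,
        Kb ℓ i.1 (lf i.1) (i.2 : ZMod 3) (FF.ex a) (FF.ex y)).card := by
    unfold nu
    rw [Finset.card_filter, Fintype.sum_prod_type]
    refine Finset.sum_congr rfl fun a _ => ?_
    rw [Finset.card_filter]
  rw [h5]
  have h6 : ∏ s ∈ U, (3 - (I.filter fun i => s ∣ i.1).card) =
      (∏ s ∈ P1 U, (3 - (I.filter fun i => s ∣ i.1).card)) *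
        ∏ s ∈ U.filter (fun s => ¬ s % 3 = 1), (3 - (I.filter fun i => s ∣ i.1).card) := by
    unfold P1
    exact (Finset.prod_filter_mul_prod_filter_not _ _ _).symm
  rw [h6, mul_assoc]
  refine (Nat.mul_le_mul_right _ h1).trans ?_
  rw [← smul_eq_mul, ← Finset.sum_const]
  exact (Finset.sum_le_sum h2).trans (Finset.sum_le_univ_sum_of_nonneg fun _ => Nat.zero_le _)

end Pool.Agent.H20PT
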