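import Mathlib

/-!
# Diagonal perturbations of a matrix over the field with three elements
-/

set_option autoImplicit false

namespace Pool.Agent.H20PT

open Finset
open scoped Classical

variable {α : Type*} [DecidableEq α]

/-- the matrix `A + diag u` on `S` has no kernel -/
def Ns (S : Finset α) (A : α → α → ZMod 3) (u : α → ZMod 3) : Prop :=
  ∀ c : α → ZMod 3, (∀ p ∈ S, ∑ r ∈ S, A p r * c r + u p * c p = 0) → ∀ p ∈ S, c p = 0

theorem Ns.congr {S : Finset α} {A : α → α → ZMod 3} {u v : α → ZMod 3} (h : Ns S A u)
    (huv : ∀ p ∈ S, u p = v p) : Ns S A v := by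
  intro c hc
  refine h c fun p hp => ?_
  rw [huv p hp]
  exact hc p hp

theorem Ns.empty (A : α → α → ZMod 3) (u : α → ZMod 3) : Ns ∅ A u :=
  fun _ _ p hp => absurd hp (Finset.notMem_empty p)

/-- at most one value of a new diagonal entry is bad -/
theorem Ns.step {S : Finset α} {A : α → α → ZMod 3} {u : α → ZMod 3} (h : Ns S A u) {p : α}
    (hp : p ∉ S) : ∃ b : ZMod 3, ∀ x : ZMod 3, x ≠ b →
      Ns (insert p S) A (Function.update u p x) := by
  by_cases hall : ∀ x : ZMod 3, Ns (insert p S) A (Function.update u p x)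
  · exact ⟨0, fun x _ => hall x⟩
  push Not at hall
  obtain ⟨b, hb⟩ := hall
  refine ⟨b, fun x hx => ?_⟩
  by_contra hx'
  -- two bad values
  have key : ∀ y : ZMod 3, ¬ Ns (insert p S) A (Function.update u p y) →
      ∃ c : α → ZMod 3, (∀ i ∈ S, ∑ r ∈ S, A i r * c r + A i p * c p + u i * c i = 0) ∧
        (∑ r ∈ S, A p r * c r + A p p * c p + y * c p = 0) ∧ c p ≠ 0 := by
    intro y hy
    unfold Ns at hy
    push Not at hy
    obtain ⟨c, hc, i, hi, hci⟩ := hy
    have h1 : ∀ i ∈ S, ∑ r ∈ S, A i r * c r + A i p * c p + u i * c i = 0 := by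
      intro i hi
      have h2 := hc i (Finset.mem_insert_of_mem hi)
      have h3 : i ≠ p := fun e => hp (e ▸ hi)
      rw [Finset.sum_insert hp, Function.update_of_ne h3] at h2
      linear_combination h2
    refine ⟨c, h1, ?_, ?_⟩
    · have h2 := hc p (Finset.mem_insert_self _ _)
      rw [Finset.sum_insert hp, Function.update_self] at h2
      linear_combination h2
    · intro h0
      have h2 : ∀ i ∈ S, c i = 0 := h c fun i hi => by
        have := h1 i hi
        rw [h0, mul_zero, add_zero] at this
        exact this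
      rcases Finset.mem_insert.1 hi with rfl | hi
      · exact hci h0
      · exact hci (h2 i hi)
  obtain ⟨c, hc1, hc2, hc0⟩ := key b hb
  obtain ⟨d, hd1, hd2, hd0⟩ := key x hx'
  have h3 : ∀ i ∈ S, d p * c i - c p * d i = 0 := by
    refine h (fun i => d p * c i - c p * d i) fun i hi => ?_
    have e1 : ∑ r ∈ S, A i r * (d p * c r - c p * d r) =
        d p * ∑ r ∈ S, A i r * c r - c p * ∑ r ∈ S, A i r * d r := by
      rw [Finset.mul_sum, Finset.mul_sum, ← Finset.sum_sub_distrib]
      exact Finset.sum_congr rfl fun r _ => by ring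
    rw [e1]
    linear_combination d p * hc1 i hi - c p * hd1 i hi
  have h4 : d p * ∑ r ∈ S, A p r * c r = c p * ∑ r ∈ S, A p r * d r := by
    rw [Finset.mul_sum, Finset.mul_sum]
    exact Finset.sum_congr rfl fun r hr => by linear_combination A p r * h3 r hr
  have h5 : (b - x) * (c p * d p) = 0 := by
    linear_combination d p * hc2 - c p * hd2 - h4
  rcases mul_eq_zero.1 h5 with h6 | h6
  · exact hx (sub_eq_zero.1 h6).symm
  · rcases mul_eq_zero.1 h6 with h7 | h7
    · exact hc0 h7
    · exact hd0 h7

/-- the average over one coordinate -/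
theorem sum_update [Fintype α] (p : α) (f : (α → ZMod 3) → ℕ) :
    ∑ u : α → ZMod 3, ∑ x : ZMod 3, f (Function.update u p x) = 3 * ∑ u : α → ZMod 3, f u := by
  have h1 : ∑ y : (α → ZMod 3) × ZMod 3, f (Function.update y.1 p y.2) =
      ∑ y : (α → ZMod 3) × ZMod 3, f y.1 := by
    refine Finset.sum_bij' (fun y _ => (Function.update y.1 p y.2, y.1 p))
      (fun y _ => (Function.update y.1 p y.2, y.1 p)) ?_ ?_ ?_ ?_ ?_
    · intro _ _; exact Finset.mem_univ _
    · intro _ _; exact Finset.mem_univ _
    · rintro ⟨u, x⟩ _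
      simp
    · rintro ⟨u, x⟩ _
      simp
    · rintro ⟨u, x⟩ _
      rfl
  rw [Fintype.sum_prod_type, Fintype.sum_prod_type] at h1
  rw [h1]
  simp only [Finset.sum_const, Finset.card_univ, ZMod.card, smul_eq_mul]
  rw [← Finset.mul_sum]

/-- the extension by zero -/
def ex {P : Finset α} (v : P → ZMod 3) (p : α) : ZMod 3 := if h : p ∈ P then v ⟨p, h⟩ else 0

theorem ex_update {P : Finset α} (v : P → ZMod 3) (p : P) (x : ZMod 3) :
    ex (Function.update v p x) = Function.update (ex v) p x := by
  funext r
  unfold ex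
  by_cases hr : r = (p : α)
  · subst hr
    rw [dif_pos p.2, Function.update_self, Function.update_self]
  · rw [Function.update_of_ne hr]
    split_ifs with h
    · rw [Function.update_of_ne]
      intro e
      exact hr (congrArg Subtype.val e)
    · rfl

/-- **Several matrices at once**: the number of the `u` that are good for all matrices; `m p` is the
number of the matrices that contain the index `p`. -/
theorem count_fam {ι : Type*} (I : Finset ι) (A : ι → α → α → ZMod 3) (e : ι → ZMod 3)
    (he : ∀ i ∈ I, e i ≠ 0) (P : Finset α) (F : ι → Finset α) (S : Finset α) : S ⊆ P →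
    (∏ p ∈ S, (3 - (I.filter fun i => p ∈ F i).card)) * 3 ^ P.card ≤ 3 ^ S.card *
      (univ.filter fun u : P → ZMod 3 => ∀ i ∈ I, Ns (F i ∩ S) (A i) (fun p => e i * ex u p)).card := by
  induction S using Finset.induction_on with
  | empty =>
    intro _
    have : (univ.filter fun u : P → ZMod 3 => ∀ i ∈ I, Ns (F i ∩ ∅) (A i)
        (fun p => e i * ex u p)) = univ :=
      Finset.filter_true_of_mem fun u _ i _ => by
        rw [Finset.inter_empty]
        exact Ns.empty _ _
    rw [this, Finset.card_univ, Fintype.card_fun, ZMod.card, Fintype.card_coe]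
    simp
  | insert p S hp ih =>
    intro hSP
    have hpP : p ∈ P := hSP (Finset.mem_insert_self _ _)
    have ih' := ih ((Finset.subset_insert p S).trans hSP)
    rw [Finset.prod_insert hp, Finset.card_insert_of_notMem hp]
    set m : ℕ := (I.filter fun i => p ∈ F i).card with hm
    have h1 : (3 - m) * (univ.filter fun u : P → ZMod 3 => ∀ i ∈ I,
          Ns (F i ∩ S) (A i) (fun p => e i * ex u p)).card ≤
        3 * (univ.filter fun u : P → ZMod 3 => ∀ i ∈ I,
          Ns (F i ∩ insert p S) (A i) (fun p => e i * ex u p)).card := by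
      rw [Finset.card_filter, Finset.card_filter,
        ← sum_update (⟨p, hpP⟩ : P) (fun u => if ∀ i ∈ I,
          Ns (F i ∩ insert p S) (A i) (fun p => e i * ex u p) then 1 else 0), Finset.mul_sum]
      refine Finset.sum_le_sum fun u _ => ?_
      split_ifs with hu
      · -- the bad values
        have hbt : ∀ i, ∃ b : ZMod 3, i ∈ I → ∀ x : ZMod 3, (p ∈ F i → x ≠ b) →
            Ns (F i ∩ insert p S) (A i) (fun r => e i * Function.update (ex u) p x r) := by
          intro i
          by_cases hi : i ∈ I
          swap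
          · exact ⟨0, fun h1 => absurd h1 hi⟩
          by_cases hpF : p ∈ F i
          · have hpn : p ∉ F i ∩ S := fun h => hp (Finset.mem_inter.1 h).2
            obtain ⟨b, hb⟩ := (hu i hi).step hpn
            rw [← Finset.inter_insert_of_mem hpF] at hb
            refine ⟨b * (e i)⁻¹, fun _ x hx => ?_⟩
            have h3 : e i * x ≠ b := by
              intro h4
              apply hx hpF
              rw [← h4]
              field_simp [he i hi]
            refine (hb _ h3).congr fun r _ => ?_
            by_cases hr : r = p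
            · rw [hr, Function.update_self, Function.update_self]
            · rw [Function.update_of_ne hr, Function.update_of_ne hr]
          · refine ⟨0, fun _ x _ => ?_⟩
            rw [Finset.inter_insert_of_notMem hpF]
            refine (hu i hi).congr fun r hr => ?_
            have h5 : r ≠ p := fun h6 => hpF (h6 ▸ (Finset.mem_inter.1 hr).1)
            rw [Function.update_of_ne h5]
        choose b hb using hbt
        set B : Finset (ZMod 3) := (I.filter fun i => p ∈ F i).image b with hB
        have hBc : B.card ≤ m := Finset.card_image_le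
        have h6 : (univ \ B).card = 3 - B.card := by
          rw [Finset.card_sdiff_of_subset (Finset.subset_univ B), Finset.card_univ, ZMod.card]
        rw [← Finset.card_filter, mul_one]
        refine le_trans ?_ (le_trans h6.ge (Finset.card_le_card fun x hx => ?_))
        · omega
        · rw [Finset.mem_sdiff] at hx
          rw [Finset.mem_filter]
          refine ⟨Finset.mem_univ _, fun i hi => ?_⟩
          rw [ex_update]
          refine hb i hi x fun hpF hxb => hx.2 ?_
          rw [hxb, hB, Finset.mem_image]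
          exact ⟨i, Finset.mem_filter.2 ⟨hi, hpF⟩, rfl⟩
      · rw [mul_zero]
        exact Nat.zero_le _
    calc (3 - m) * (∏ p ∈ S, (3 - (I.filter fun i => p ∈ F i).card)) * 3 ^ P.card
        = (3 - m) * ((∏ p ∈ S, (3 - (I.filter fun i => p ∈ F i).card)) * 3 ^ P.card) := by ring
      _ ≤ (3 - m) * (3 ^ S.card * (univ.filter fun u : P → ZMod 3 => ∀ i ∈ I,
          Ns (F i ∩ S) (A i) (fun p => e i * ex u p)).card) := Nat.mul_le_mul_left _ ih'
      _ = 3 ^ S.card * ((3 - m) * (univ.filter fun u : P → ZMod 3 => ∀ i ∈ I,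
          Ns (F i ∩ S) (A i) (fun p => e i * ex u p)).card) := by ring
      _ ≤ 3 ^ S.card * (3 * (univ.filter fun u : P → ZMod 3 => ∀ i ∈ I,
          Ns (F i ∩ insert p S) (A i) (fun p => e i * ex u p)).card) := Nat.mul_le_mul_left _ h1
      _ = 3 ^ (S.card + 1) * (univ.filter fun u : P → ZMod 3 => ∀ i ∈ I,
          Ns (F i ∩ insert p S) (A i) (fun p => e i * ex u p)).card := by ring

/-- the count on the full set -/
theorem count_all {ι : Type*} (I : Finset ι) (A : ι → α → α → ZMod 3) (e : ι → ZMod 3)
    (he : ∀ i ∈ I, e i ≠ 0) (P : Finset α) (F : ι → Finset α) (hF : ∀ i ∈ I, F i ⊆ P) :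
    ∏ p ∈ P, (3 - (I.filter fun i => p ∈ F i).card) ≤
      (univ.filter fun u : P → ZMod 3 => ∀ i ∈ I, Ns (F i) (A i) (fun p => e i * ex u p)).card := by
  have h := count_fam I A e he P F P subset_rfl
  have h2 : (univ.filter fun u : P → ZMod 3 => ∀ i ∈ I, Ns (F i ∩ P) (A i)
      (fun p => e i * ex u p)) = univ.filter fun u : P → ZMod 3 => ∀ i ∈ I, Ns (F i) (A i)
      (fun p => e i * ex u p) := by
    refine Finset.filter_congr fun u _ => forall₂_congr fun i hi => ?_
    rw [Finset.inter_eq_left.2 (hF i hi)]
  rw [h2, mul_comm] at h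
  exact Nat.le_of_mul_le_mul_left h (by positivity)

/-- the kernel and the determinant -/
theorem Ns_iff_det [Fintype α] (A : α → α → ZMod 3) (u : α → ZMod 3) :
    Ns univ A u ↔ (Matrix.of A + Matrix.diagonal u).det ≠ 0 := by
  rw [← not_iff_not, not_not, ← Matrix.exists_mulVec_eq_zero_iff]
  have hm : ∀ (c : α → ZMod 3) (p : α), ((Matrix.of A + Matrix.diagonal u).mulVec c) p =
      ∑ r, A p r * c r + u p * c p := by
    intro c p
    rw [Matrix.add_mulVec, Pi.add_apply, Matrix.mulVec_diagonal]
    rfl
  constructor
  · intro h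
    unfold Ns at h
    push Not at h
    obtain ⟨c, hc, p, -, hp⟩ := h
    refine ⟨c, fun h0 => hp (by rw [h0]; rfl), funext fun i => ?_⟩
    rw [hm, hc i (Finset.mem_univ i)]
    rfl
  · rintro ⟨c, hc0, hc⟩ h
    apply hc0
    funext p
    refine h c (fun i _ => ?_) p (Finset.mem_univ p)
    rw [← hm, hc]
    rfl

end Pool.Agent.H20PT
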