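import Pool.Agent.H20PT.Log
import Pool.Agent.H20PT.Lin
import Pool.Agent.R419.CF.NS
import Pool.Agent.Y333.CX.LAM

/-!
# The criterion for the twists by one more prime
-/

set_option autoImplicit false

namespace Pool.Agent.H20PT

open Finset
open Pool.Agent.Y703.CX (lam LamP)
open Pool.Agent.Y703.CT (Cls NoSplit Base)
open Pool.Agent.R419.CF (GdW SolW wt)
open Pool.Agent.R419.CF.NS (MD)
open scoped Classical

theorem lam_log : IsLog lam :=
  ⟨Pool.Agent.Y333.CX.t_LAM.mul, Pool.Agent.Y333.CX.t_LAM.cube⟩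

/-- `N` is cube-free and all its prime factors are `1` modulo `3` -/
def Spl (N : ℕ) : Prop :=
  N ≠ 0 ∧ (∀ p : ℕ, p.Prime → ¬ p ^ 3 ∣ N) ∧ ∀ p : ℕ, p.Prime → p ∣ N → p % 3 = 1

theorem Spl.pf {N : ℕ} (h : Spl N) : ∀ p ∈ N.primeFactors, p.Prime ∧ p % 3 = 1 := fun p hp =>
  ⟨Nat.prime_of_mem_primeFactors hp, h.2.2 p (Nat.prime_of_mem_primeFactors hp)
    (Nat.dvd_of_mem_primeFactors hp)⟩

/-- the matrix of `N` -/
def AN (ℓ : ℕ → ℕ → ZMod 3) (N : ℕ) (p r : ℕ) : ZMod 3 :=
  if p = r then - ∑ s ∈ N.primeFactors.erase p, (N.factorization s : ZMod 3) * ℓ p s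
  else (N.factorization r : ZMod 3) * ℓ p r

theorem AN_row (ℓ : ℕ → ℕ → ZMod 3) (N p : ℕ) (hp : p ∈ N.primeFactors) (c : ℕ → ZMod 3) :
    ∑ r ∈ N.primeFactors, AN ℓ N p r * c r =
      ∑ r ∈ N.primeFactors, (c r - c p) * ((N.factorization r : ZMod 3) * ℓ p r) := by
  rw [← Finset.add_sum_erase _ _ hp, ← Finset.add_sum_erase _ (fun r => (c r - c p) * _) hp]
  have h1 : ∑ r ∈ N.primeFactors.erase p, AN ℓ N p r * c r =
      ∑ r ∈ N.primeFactors.erase p, ((N.factorization r : ZMod 3) * ℓ p r) * c r := by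
    refine Finset.sum_congr rfl fun r hr => ?_
    unfold AN
    rw [if_neg (Finset.ne_of_mem_erase hr).symm]
  rw [h1]
  unfold AN
  rw [if_pos rfl, sub_self, zero_mul, zero_add, neg_mul, Finset.sum_mul, ← sub_eq_neg_add,
    ← Finset.sum_sub_distrib]
  exact Finset.sum_congr rfl fun r _ => by ring

theorem Ns_AN_iff (ℓ : ℕ → ℕ → ZMod 3) (N : ℕ) (u : ℕ → ZMod 3) :
    Ns N.primeFactors (AN ℓ N) u ↔ ∀ c : ℕ → ZMod 3, (∀ p ∈ N.primeFactors,
      ∑ r ∈ N.primeFactors, (c r - c p) * ((N.factorization r : ZMod 3) * ℓ p r) + u p * c p = 0) →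
      ∀ p ∈ N.primeFactors, c p = 0 := by
  unfold Ns
  refine forall_congr' fun c => ?_
  have : (∀ p ∈ N.primeFactors, ∑ r ∈ N.primeFactors, AN ℓ N p r * c r + u p * c p = 0) ↔
      ∀ p ∈ N.primeFactors,
        ∑ r ∈ N.primeFactors, (c r - c p) * ((N.factorization r : ZMod 3) * ℓ p r) + u p * c p = 0 :=
    forall₂_congr fun p hp => by rw [AN_row ℓ N p hp]
  rw [this]

/-- the choice of the logarithms does not matter -/
theorem Ns_indep {ℓ ℓ' : ℕ → ℕ → ZMod 3} (h : IsLog ℓ) (h' : IsLog ℓ') {N : ℕ} (hN : Spl N) {q : ℕ}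
    (hq : q.Prime) (hq2 : q % 3 = 2) (e : ZMod 3)
    (hs : Ns N.primeFactors (AN ℓ N) (fun p => e * ℓ p q)) :
    Ns N.primeFactors (AN ℓ' N) (fun p => e * ℓ' p q) := by
  rw [Ns_AN_iff] at hs ⊢
  intro c hc
  refine hs c fun p hp => ?_
  obtain ⟨hpp, hp1⟩ := hN.pf p hp
  obtain ⟨ε, hε, hl⟩ := h.unique h' hpp hp1
  have h1 := hc p hp
  have hpq : ¬ p ∣ q := by
    intro hd
    rw [Nat.prime_dvd_prime_iff_eq hpp hq] at hd
    omega
  have h2 : ∑ r ∈ N.primeFactors, (c r - c p) * ((N.factorization r : ZMod 3) * ℓ' p r) =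
      ε * ∑ r ∈ N.primeFactors, (c r - c p) * ((N.factorization r : ZMod 3) * ℓ p r) := by
    rw [Finset.mul_sum]
    refine Finset.sum_congr rfl fun r hr => ?_
    by_cases hrp : r = p
    · rw [hrp, sub_self, zero_mul, zero_mul, mul_zero]
    · have hpr : ¬ p ∣ r := by
        intro hd
        rw [Nat.prime_dvd_prime_iff_eq hpp (hN.pf r hr).1] at hd
        exact hrp hd.symm
      rw [hl r hpr]
      ring
  rw [h2, hl q hpq] at h1
  have h3 : ε * (∑ r ∈ N.primeFactors, (c r - c p) * ((N.factorization r : ZMod 3) * ℓ p r) +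
      e * ℓ p q * c p) = 0 := by
    rw [← h1]
    ring
  exact (mul_eq_zero.1 h3).resolve_left hε

/-- the conditions on the new prime -/
def Cq (N e q : ℕ) : Prop :=
  q.Prime ∧ q % 3 = 2 ∧ N * q ^ e % 9 ≠ 1 ∧ N * q ^ e % 9 ≠ 8

theorem not_dvd_of_spl {N q : ℕ} (hN : Spl N) (hq : q.Prime) (hq2 : q % 3 = 2) : ¬ q ∣ N := by
  intro hd
  have := hN.2.2 q hq hd
  omega

theorem pf_mul {N q e : ℕ} (hN : Spl N) (hq : q.Prime) (he : e = 1 ∨ e = 2) :
    (N * q ^ e).primeFactors = insert q N.primeFactors := by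
  have he0 : e ≠ 0 := by omega
  rw [Nat.primeFactors_mul hN.1 (pow_ne_zero _ hq.ne_zero), Nat.primeFactors_prime_pow he0 hq,
    Finset.union_comm, Finset.insert_eq]

theorem fac_q {N q e : ℕ} (hN : Spl N) (hq : q.Prime) (hq2 : q % 3 = 2) :
    (N * q ^ e).factorization q = e := by
  rw [Nat.factorization_mul hN.1 (pow_ne_zero _ hq.ne_zero), Finsupp.add_apply,
    Nat.factorization_eq_zero_of_not_dvd (not_dvd_of_spl hN hq hq2), zero_add,
    hq.factorization_pow, Finsupp.single_eq_same]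

theorem fac_p {N q e p : ℕ} (hN : Spl N) (hq : q.Prime) (hpq : p ≠ q) :
    (N * q ^ e).factorization p = N.factorization p := by
  rw [Nat.factorization_mul hN.1 (pow_ne_zero _ hq.ne_zero), Finsupp.add_apply,
    hq.factorization_pow, Finsupp.single_eq_of_ne hpq, add_zero]

theorem cls_of {N q e : ℕ} (hN : Spl N) (he : e = 1 ∨ e = 2) (hq : Cq N e q) : Cls (N * q ^ e) := by
  obtain ⟨hqp, hq2, h1, h8⟩ := hq
  have h0 : N * q ^ e ≠ 0 := mul_ne_zero hN.1 (pow_ne_zero _ hqp.ne_zero)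
  refine ⟨⟨h0, ?_, ?_⟩, h1, h8, q, hqp, hq2, ?_, ?_⟩
  · intro h3
    rcases (Nat.prime_three.dvd_mul).1 h3 with h | h
    · have := hN.2.2 3 Nat.prime_three h
      omega
    · have := Nat.prime_three.dvd_of_dvd_pow h
      omega
  · intro p hp h3
    rw [hp.pow_dvd_iff_le_factorization h0] at h3
    by_cases hpq : p = q
    · rw [hpq, fac_q hN hqp hq2] at h3
      omega
    · rw [fac_p hN hqp hpq, ← hp.pow_dvd_iff_le_factorization hN.1] at h3
      exact hN.2.1 p hp h3
  · exact dvd_mul_of_dvd_right (dvd_pow_self q (by omega)) N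
  · intro p hp hd hpq
    rcases (hp.dvd_mul).1 hd with h | h
    · exact hN.2.2 p hp h
    · exact absurd ((Nat.prime_dvd_prime_iff_eq hp hqp).1 (hp.dvd_of_dvd_pow h)) hpq

theorem wt_eq {D : ℕ} (h0 : D ≠ 0) (hc : ∀ p : ℕ, p.Prime → ¬ p ^ 3 ∣ D) {p : ℕ}
    (hp : p ∈ D.primeFactors) : wt (MD D) p = (D.factorization p : ZMod 3) := by
  have hpp := Nat.prime_of_mem_primeFactors hp
  have h1 : 1 ≤ D.factorization p :=
    (hpp.dvd_iff_one_le_factorization h0).1 (Nat.dvd_of_mem_primeFactors hp)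
  have h3 := hc p hpp
  rw [hpp.pow_dvd_iff_le_factorization h0] at h3
  have hm : p ∈ MD D ↔ 2 ≤ D.factorization p := by
    unfold MD
    rw [Finset.mem_filter, hpp.pow_dvd_iff_le_factorization h0]
    exact ⟨fun h => h.2, fun h => ⟨hp, h⟩⟩
  unfold wt
  by_cases h : p ∈ MD D
  · have : D.factorization p = 2 := by
      rw [hm] at h
      omega
    rw [if_pos h, this]
    rfl
  · have : D.factorization p = 1 := by
      rw [hm] at h
      omega
    rw [if_neg h, this]
    rfl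

/-- **The criterion.** -/
theorem nosplit_iff {ℓ : ℕ → ℕ → ZMod 3} (h : IsLog ℓ) {N q e : ℕ} (hN : Spl N)
    (he : e = 1 ∨ e = 2) (hq : Cq N e q) :
    NoSplit (N * q ^ e) ↔ Ns N.primeFactors (AN ℓ N) (fun p => -(e : ZMod 3) * ℓ p q) := by
  have hC := cls_of hN he hq
  have h1 : NoSplit (N * q ^ e) ↔ GdW (MD (N * q ^ e)) (N * q ^ e).primeFactors :=
    ⟨Pool.Agent.R419.CF.NS.gdw_of_nosplit Pool.Agent.Y333.CX.t_LAM hC,
      Pool.Agent.R419.CF.NS.nosplit_of_gdw Pool.Agent.Y333.CX.t_LAM hC⟩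
  have h2 : Ns N.primeFactors (AN ℓ N) (fun p => -(e : ZMod 3) * ℓ p q) ↔
      Ns N.primeFactors (AN lam N) (fun p => -(e : ZMod 3) * lam p q) :=
    ⟨fun h' => Ns_indep h lam_log hN hq.1 hq.2.1 _ h',
      fun h' => Ns_indep lam_log h hN hq.1 hq.2.1 _ h'⟩
  rw [h1, h2, Ns_AN_iff]
  have h0 : N * q ^ e ≠ 0 := hC.1.1
  have hcf := hC.1.2.2
  have hqP : q ∉ N.primeFactors := fun h' =>
    not_dvd_of_spl hN hq.1 hq.2.1 (Nat.dvd_of_mem_primeFactors h')
  have hrow : ∀ (c : ℕ → ZMod 3) (p : ℕ), p ∈ N.primeFactors →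
      ∑ r ∈ (N * q ^ e).primeFactors, (c r - c p) * (wt (MD (N * q ^ e)) r * lam p r) =
        ∑ r ∈ N.primeFactors, (c r - c p) * ((N.factorization r : ZMod 3) * lam p r) +
          (c q - c p) * ((e : ZMod 3) * lam p q) := by
    intro c p hp
    rw [Finset.sum_congr rfl fun r hr => by rw [wt_eq h0 hcf hr], pf_mul hN hq.1 he,
      Finset.sum_insert hqP, fac_q hN hq.1 hq.2.1, add_comm]
    congr 1
    refine Finset.sum_congr rfl fun r hr => ?_
    rw [fac_p hN hq.1 (fun e' => hqP (e' ▸ hr))]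
  constructor
  · intro hg c hc p hp
    have h3 := hg (fun r => if r = q then 0 else c r) (by
      intro i hi hi1
      have hiP : i ∈ N.primeFactors := by
        rw [pf_mul hN hq.1 he, Finset.mem_insert] at hi
        rcases hi with rfl | hi
        · have := hq.2.1
          omega
        · exact hi
      rw [hrow _ i hiP]
      have h4 := hc i hiP
      have hiq : i ≠ q := fun e' => hqP (e' ▸ hiP)
      rw [if_pos rfl, if_neg hiq]
      have h5 : ∑ r ∈ N.primeFactors, ((if r = q then 0 else c r) - c i) *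
          ((N.factorization r : ZMod 3) * lam i r) =
          ∑ r ∈ N.primeFactors, (c r - c i) * ((N.factorization r : ZMod 3) * lam i r) := by
        refine Finset.sum_congr rfl fun r hr => ?_
        rw [if_neg (fun e' : r = q => hqP (e' ▸ hr))]
      rw [h5]
      linear_combination h4)
    have h6 := h3 p (by rw [pf_mul hN hq.1 he]; exact Finset.mem_insert_of_mem hp) q
      (by rw [pf_mul hN hq.1 he]; exact Finset.mem_insert_self _ _)
    have hpq : p ≠ q := fun e' => hqP (e' ▸ hp)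
    simpa [hpq] using h6
  · intro hn c hc
    have h3 : ∀ p ∈ N.primeFactors, c p - c q = 0 := by
      refine hn (fun p => c p - c q) fun p hp => ?_
      have h4 := hc p (by rw [pf_mul hN hq.1 he]; exact Finset.mem_insert_of_mem hp)
        (hN.pf p hp).2
      rw [hrow c p hp] at h4
      rw [← h4]
      have h5 : ∑ r ∈ N.primeFactors, (c r - c q - (c p - c q)) *
          ((N.factorization r : ZMod 3) * lam p r) =
          ∑ r ∈ N.primeFactors, (c r - c p) * ((N.factorization r : ZMod 3) * lam p r) :=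
        Finset.sum_congr rfl fun r _ => by ring
      rw [h5]
      ring
    have h7 : ∀ p ∈ (N * q ^ e).primeFactors, c p = c q := by
      intro p hp
      rw [pf_mul hN hq.1 he, Finset.mem_insert] at hp
      rcases hp with rfl | hp
      · rfl
      · exact sub_eq_zero.1 (h3 p hp)
    intro p hp r hr
    rw [h7 p hp, h7 r hr]

/-- the version on the set of the prime factors -/
theorem Ns_coe (S : Finset ℕ) (A : ℕ → ℕ → ZMod 3) (u : ℕ → ZMod 3) :
    Ns S A u ↔ Ns (univ : Finset S) (fun p r => A p r) (fun p => u p) := by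
  unfold Ns
  constructor
  · intro h c hc p _
    have h1 := h (fun n => if hn : n ∈ S then c ⟨n, hn⟩ else 0) (by
      intro i hi
      have h2 := hc ⟨i, hi⟩ (Finset.mem_univ _)
      rw [dif_pos hi]
      rw [← h2]
      congr 1
      rw [← Finset.sum_coe_sort S]
      refine Finset.sum_congr rfl fun r _ => ?_
      rw [dif_pos r.2])
    have h3 := h1 p p.2
    rw [dif_pos p.2] at h3
    exact h3
  · intro h c hc p hp
    refine h (fun r => c r) (fun i _ => ?_) ⟨p, hp⟩ (Finset.mem_univ _)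
    rw [← hc i i.2]
    congr 1
    exact Finset.sum_coe_sort S fun r => A i r * c r

end Pool.Agent.H20PT
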