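import Pool.Agent.H20PT.Law

/-!
# The joint law of the symbols of the rational primes `q ≡ 1` modulo `3`, II
-/

set_option autoImplicit false
set_option linter.unusedSectionVars false

namespace Pool.Agent.H20PT

open Filter Topology Finset
open Pool.Agent.Y692.QS (Ei w nr mul_star nr_nonneg nr_star star_w)
open Pool.Agent.Y715.T.Rec (cs nn)
open Pool.Agent.Y715.T.RecG (Pq cs_of cs_neg)
open Pool.Agent.Y703.CX (pp lam LamP)
open Pool.Agent.Y37.CX (QQ pp_facts pq_star cs_star QQ_dvd sep)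
open Pool.Agent.W401.Cheb
open Q283.TC (FT)
open scoped Classical

/-- **The joint law.** -/
theorem law_lam (hL : LamP) {U : Finset ℕ} (hU : ∀ u ∈ U, u.Prime ∧ u ≠ 3)
    (R : (P1 U → ZMod 3) × (U → ZMod 3) × ZMod 3 → Prop)
    (hR : ∀ a y t, R (a, -y, t) ↔ R (a, y, t)) :
    Tendsto (fun X : ℕ => (((Icc 1 X).filter fun q : ℕ => q.Prime ∧ (q % 3 = 1 ∧
        R (sa lam U q, sy lam U q, st q))).card : ℝ) /
      (((Icc 1 X).filter fun q : ℕ => q.Prime).card : ℝ)) atTop
      (𝓝 ((Nat.card {x : (P1 U → ZMod 3) × (U → ZMod 3) × ZMod 3 // R x} : ℝ) /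
        (2 * 3 ^ ((P1 U).card + U.card + 1)))) := by
  set B : ℕ := U.sup id with hB
  have hBU : ∀ q : ℕ, B < q → q ∉ U := by
    intro q hq hqU
    have : id q ≤ U.sup id := Finset.le_sup hqU
    simp only [id] at this
    omega
  have h1 := mean_law hL (EU U) (by
    intro z hz
    unfold EU at hz
    rw [Finset.mem_biUnion] at hz
    obtain ⟨u, hu, hz⟩ := hz
    exact (QQ_dvd hL (hU u hu).1 (hU u hu).2 z hz).1) (fun x => R (Phi3 U x))
  set T : Ei → Prop := fun π => R (Phi3 U (fun z : EU U => cs π z, cs π w)) with hT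
  set T' : Ei → Prop := fun π => B < (nr π).natAbs ∧ T π with hT'
  have hTs : ∀ p : ℕ, B < p → p.Prime → p % 3 = 1 → (T (star (pp p)) ↔ T (pp p)) := by
    intro p hp hpp hp1
    rw [hT]
    simp only
    rw [phi_pp hL hU hpp hp1 (hBU p hp), phi_star hL hU hpp hp1 (hBU p hp)]
    exact hR _ _ _
  have h2 : Tendsto (M fun p => (FT T' p : ℝ)) atTop
      (𝓝 ((Nat.card {x : (EU U → ZMod 3) × ZMod 3 // R (Phi3 U x)} : ℝ) /
        3 ^ ((EU U).card + 1))) := by
    refine M_congr B (fun p hp hpp => ?_) h1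
    have : FT T p = FT T' p := by
      unfold FT
      refine Nat.card_congr (Equiv.subtypeEquivRight fun π => ?_)
      refine and_congr_right fun _ => and_congr_right fun h => ?_
      rw [hT']
      simp only
      rw [h]
      simp [hp]
    exact_mod_cast this
  have h3 := dens_of_mean hL (T := T') (by
    intro p hpp hp1
    obtain ⟨-, hn⟩ := hL.ex p hpp hp1
    rw [hT']
    simp only
    rw [nr_star, hn]
    refine and_congr_right fun h => ?_
    exact hTs p (by simpa using h) hpp hp1) h2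
  have hcard : Nat.card {x : (EU U → ZMod 3) × ZMod 3 // R (Phi3 U x)} =
      Nat.card {x : (P1 U → ZMod 3) × (U → ZMod 3) × ZMod 3 // R x} :=
    Nat.card_congr ((Equiv.ofBijective _ (Phi3_bij hL hU)).subtypeEquiv fun x => Iff.rfl)
  rw [hcard, card_EU hL hU, div_div, mul_comm _ (2 : ℝ)] at h3
  have h4 : ∀ q : ℕ, B < q → q.Prime → ((q % 3 = 1 ∧ T' (pp q)) ↔
      (q % 3 = 1 ∧ R (sa lam U q, sy lam U q, st q))) := by
    intro q hq hqp
    refine and_congr_right fun hq1 => ?_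
    obtain ⟨-, hn⟩ := hL.ex q hqp hq1
    rw [hT', hT]
    simp only
    rw [hn, phi_pp hL hU hqp hq1 (hBU q hq)]
    simp [hq]
  have h5 := dens_congr (S := fun q => q % 3 = 1 ∧ T' (pp q))
    (T := fun q => q % 3 = 1 ∧ R (sa lam U q, sy lam U q, st q)) B h4
    (δ := (Nat.card {x : (P1 U → ZMod 3) × (U → ZMod 3) × ZMod 3 // R x} : ℝ) /
        (2 * 3 ^ ((P1 U).card + U.card + 1))) (by convert h3)
  convert h5
/-- **The joint law** for all systems of logarithms. -/
theorem law (hL : LamP) (hlam : IsLog lam) {ℓ : ℕ → ℕ → ZMod 3} (h : IsLog ℓ) {U : Finset ℕ}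
    (hU : ∀ u ∈ U, u.Prime ∧ u ≠ 3)
    (R : (P1 U → ZMod 3) × (U → ZMod 3) × ZMod 3 → Prop)
    (hR : ∀ a y t, R (a, -y, t) ↔ R (a, y, t)) :
    Tendsto (fun X : ℕ => (((Icc 1 X).filter fun q : ℕ => q.Prime ∧ (q % 3 = 1 ∧
        R (sa ℓ U q, sy ℓ U q, st q))).card : ℝ) /
      (((Icc 1 X).filter fun q : ℕ => q.Prime).card : ℝ)) atTop
      (𝓝 ((Nat.card {x : (P1 U → ZMod 3) × (U → ZMod 3) × ZMod 3 // R x} : ℝ) /
        (2 * 3 ^ ((P1 U).card + U.card + 1)))) := by
  have hε : ∀ p : ℕ, ∃ ε : ZMod 3, (ε = 1 ∨ ε = -1) ∧ (p.Prime → p % 3 = 1 → ∀ n : ℕ, ¬ p ∣ n →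
      ℓ p n = ε * lam p n) := by
    intro p
    by_cases hp : p.Prime ∧ p % 3 = 1
    · obtain ⟨ε, h0, h1⟩ := hlam.unique h hp.1 hp.2
      have key : ∀ e : ZMod 3, e ≠ 0 → (e = 1 ∨ e = -1) := by decide
      exact ⟨ε, key ε h0, fun _ _ => h1⟩
    · exact ⟨1, Or.inl rfl, fun h1 h2 => absurd ⟨h1, h2⟩ hp⟩
  choose ε hε1 hε2 using hε
  have hε0 : ∀ p, ε p ≠ 0 := by
    intro p
    rcases hε1 p with h | h
    · rw [h]; decide
    · rw [h]; decide
  have h1 := law_lam hL hU (fun x => R (fun p => ε p * x.1 p, x.2.1, x.2.2)) (fun a y t => hR _ _ _)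
  have hcard : Nat.card {x : (P1 U → ZMod 3) × (U → ZMod 3) × ZMod 3 //
      R (fun p => ε p * x.1 p, x.2.1, x.2.2)} =
      Nat.card {x : (P1 U → ZMod 3) × (U → ZMod 3) × ZMod 3 // R x} := by
    refine Nat.card_congr ((Equiv.prodCongr (Equiv.piCongrRight fun p : P1 U =>
      Equiv.mulLeft₀ (ε p) (hε0 p)) (Equiv.refl _)).subtypeEquiv fun x => ?_)
    exact Iff.rfl
  rw [hcard] at h1
  have h2 : ∀ q : ℕ, U.sup id < q → q.Prime → ((q % 3 = 1 ∧
      R (fun p => ε p * sa lam U q p, sy lam U q, st q)) ↔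
      (q % 3 = 1 ∧ R (sa ℓ U q, sy ℓ U q, st q))) := by
    intro q hq hqp
    have hqU : q ∉ U := by
      intro hqU
      have : id q ≤ U.sup id := Finset.le_sup hqU
      simp only [id] at this
      omega
    refine and_congr_right fun hq1 => ?_
    have e1 : (fun p : P1 U => ε p * sa lam U q p) = sa ℓ U q := by
      funext p
      unfold sa
      obtain ⟨hpU, hp1⟩ := Finset.mem_filter.1 p.2
      rw [hε2 p (hU p hpU).1 hp1 q]
      intro hd
      have := (Nat.prime_dvd_prime_iff_eq (hU p hpU).1 hqp).1 hd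
      exact hqU (this ▸ hpU)
    have e2 : sy ℓ U q = fun s : U => ε q * sy lam U q s := by
      funext s
      unfold sy
      rw [hε2 q hqp hq1 s]
      intro hd
      have := (Nat.prime_dvd_prime_iff_eq hqp (hU s s.2).1).1 hd
      exact hqU (this ▸ s.2)
    rw [e1, e2]
    rcases hε1 q with h2 | h2
    · rw [h2]
      simp only [one_mul]
    · rw [h2]
      have e3 : (fun s : U => -1 * sy lam U q s) = - sy lam U q := by
        funext s
        simp
      rw [e3]
      exact (hR _ _ _).symm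
  have h3 := dens_congr (S := fun q => q % 3 = 1 ∧
      R (fun p => ε p * sa lam U q p, sy lam U q, st q))
    (T := fun q => q % 3 = 1 ∧ R (sa ℓ U q, sy ℓ U q, st q)) (U.sup id) h2
    (δ := (Nat.card {x : (P1 U → ZMod 3) × (U → ZMod 3) × ZMod 3 // R x} : ℝ) /
        (2 * 3 ^ ((P1 U).card + U.card + 1))) (by convert h1)
  convert h3

end Pool.Agent.H20PT

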