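import Pool.Agent.H20PT.Main
import Pool.Agent.H20PT.Law2

/-!
# The criterion for the twists by one more prime `≡ 1` modulo `3`
-/

set_option autoImplicit false
set_option linter.unusedSectionVars false

namespace Pool.Agent.H20PT

open Finset
open Pool.Agent.Y703.CX (lam LamP)
open Pool.Agent.Y703.CT (Cls NoSplit Base)
open Pool.Agent.R419.CF (GdW SolW wt)
open Pool.Agent.R419.CF.NS (MD)
open scoped Classical

/-- all the solutions of the linear system of `D` are constant -/
def GdL (ℓ : ℕ → ℕ → ZMod 3) (D : ℕ) : Prop := ∀ c : ℕ → ZMod 3, (∀ p ∈ D.primeFactors, p % 3 = 1 →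
    ∑ r ∈ D.primeFactors, (c r - c p) * ((D.factorization r : ZMod 3) * ℓ p r) = 0) →
  ∀ p ∈ D.primeFactors, ∀ r ∈ D.primeFactors, c p = c r

theorem GdL_indep {ℓ ℓ' : ℕ → ℕ → ZMod 3} (h : IsLog ℓ) (h' : IsLog ℓ') {D : ℕ} (hg : GdL ℓ D) :
    GdL ℓ' D := by
  intro c hc
  refine hg c fun p hp h1 => ?_
  have hpp := Nat.prime_of_mem_primeFactors hp
  obtain ⟨ε, hε, hl⟩ := h.unique h' hpp h1
  have h2 := hc p hp h1
  have h3 : ∑ r ∈ D.primeFactors, (c r - c p) * ((D.factorization r : ZMod 3) * ℓ' p r) =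
      ε * ∑ r ∈ D.primeFactors, (c r - c p) * ((D.factorization r : ZMod 3) * ℓ p r) := by
    rw [Finset.mul_sum]
    refine Finset.sum_congr rfl fun r hr => ?_
    by_cases hrp : r = p
    · rw [hrp, sub_self, zero_mul, zero_mul, mul_zero]
    · have hpr : ¬ p ∣ r := by
        intro hd
        rw [Nat.prime_dvd_prime_iff_eq hpp (Nat.prime_of_mem_primeFactors hr)] at hd
        exact hrp hd.symm
      rw [hl r hpr]
      ring
  rw [h3] at h2
  exact (mul_eq_zero.1 h2).resolve_left hε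

theorem nosplit_gdl {ℓ : ℕ → ℕ → ZMod 3} (h : IsLog ℓ) {D : ℕ} (hC : Cls D) :
    NoSplit D ↔ GdL ℓ D := by
  have h1 : NoSplit D ↔ GdW (MD D) D.primeFactors :=
    ⟨Pool.Agent.R419.CF.NS.gdw_of_nosplit Pool.Agent.Y333.CX.t_LAM hC,
      Pool.Agent.R419.CF.NS.nosplit_of_gdw Pool.Agent.Y333.CX.t_LAM hC⟩
  have h2 : GdL ℓ D ↔ GdL lam D := ⟨GdL_indep h lam_log, GdL_indep lam_log h⟩
  rw [h1, h2]
  unfold GdW SolW GdL
  have hw : ∀ r ∈ D.primeFactors, wt (MD D) r = (D.factorization r : ZMod 3) :=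
    fun r hr => wt_eq hC.1.1 hC.1.2.2 hr
  refine forall_congr' fun c => ?_
  have h3 : (∀ p ∈ D.primeFactors, p % 3 = 1 →
      ∑ q ∈ D.primeFactors, (c q - c p) * (wt (MD D) q * lam p q) = 0) ↔
      (∀ p ∈ D.primeFactors, p % 3 = 1 →
      ∑ q ∈ D.primeFactors, (c q - c p) * ((D.factorization q : ZMod 3) * lam p q) = 0) := by
    refine forall₂_congr fun p hp => ?_
    rw [Finset.sum_congr rfl fun r hr => by rw [hw r hr]]
  rw [h3]

/-- `N` is cube-free and prime to `3`, and `l` is its only prime factor `2` modulo `3` -/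
def OneI (N l : ℕ) : Prop := Base N ∧ l.Prime ∧ l % 3 = 2 ∧ l ∣ N ∧
  ∀ p : ℕ, p.Prime → p ∣ N → p ≠ l → p % 3 = 1

/-- the conditions on the new prime -/
def Cs (N e q : ℕ) : Prop :=
  q.Prime ∧ q % 3 = 1 ∧ ¬ q ∣ N ∧ N * q ^ e % 9 ≠ 1 ∧ N * q ^ e % 9 ≠ 8

theorem OneI.mem {N l : ℕ} (h : OneI N l) : l ∈ N.primeFactors :=
  Nat.mem_primeFactors.2 ⟨h.2.1, h.2.2.2.1, h.1.1⟩

theorem OneI.one {N l : ℕ} (h : OneI N l) {p : ℕ} (hp : p ∈ N.primeFactors) (hl : p ≠ l) :
    p % 3 = 1 :=
  h.2.2.2.2 p (Nat.prime_of_mem_primeFactors hp) (Nat.dvd_of_mem_primeFactors hp) hl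

theorem OneI.ne {N l : ℕ} (h : OneI N l) {p : ℕ} (h1 : p % 3 = 1) : p ≠ l := by
  have := h.2.2.1
  rintro rfl
  omega

theorem pf_mulS {N q e : ℕ} (h0 : N ≠ 0) (hq : q.Prime) (he : e = 1 ∨ e = 2) :
    (N * q ^ e).primeFactors = insert q N.primeFactors := by
  have he0 : e ≠ 0 := by omega
  rw [Nat.primeFactors_mul h0 (pow_ne_zero _ hq.ne_zero), Nat.primeFactors_prime_pow he0 hq,
    Finset.union_comm, Finset.insert_eq]

theorem fac_qS {N q e : ℕ} (h0 : N ≠ 0) (hq : q.Prime) (hd : ¬ q ∣ N) :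
    (N * q ^ e).factorization q = e := by
  rw [Nat.factorization_mul h0 (pow_ne_zero _ hq.ne_zero), Finsupp.add_apply,
    Nat.factorization_eq_zero_of_not_dvd hd, zero_add,
    hq.factorization_pow, Finsupp.single_eq_same]

theorem fac_pS {N q e p : ℕ} (h0 : N ≠ 0) (hq : q.Prime) (hpq : p ≠ q) :
    (N * q ^ e).factorization p = N.factorization p := by
  rw [Nat.factorization_mul h0 (pow_ne_zero _ hq.ne_zero), Finsupp.add_apply,
    hq.factorization_pow, Finsupp.single_eq_of_ne hpq, add_zero]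

theorem cls_ofS {N l q e : ℕ} (hN : OneI N l) (he : e = 1 ∨ e = 2) (hq : Cs N e q) :
    Cls (N * q ^ e) := by
  obtain ⟨hqp, hq1, hqd, h1, h8⟩ := hq
  have h0 : N * q ^ e ≠ 0 := mul_ne_zero hN.1.1 (pow_ne_zero _ hqp.ne_zero)
  refine ⟨⟨h0, ?_, ?_⟩, h1, h8, l, hN.2.1, hN.2.2.1, ?_, ?_⟩
  · intro h3
    rcases (Nat.prime_three.dvd_mul).1 h3 with h | h
    · exact hN.1.2.1 h
    · have := Nat.prime_three.dvd_of_dvd_pow h
      omega
  · intro p hp h3
    rw [hp.pow_dvd_iff_le_factorization h0] at h3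
    by_cases hpq : p = q
    · rw [hpq, fac_qS hN.1.1 hqp hqd] at h3
      omega
    · rw [fac_pS hN.1.1 hqp hpq, ← hp.pow_dvd_iff_le_factorization hN.1.1] at h3
      exact hN.1.2.2 p hp h3
  · exact Dvd.dvd.mul_right hN.2.2.2.1 _
  · intro p hp hd hpl
    rcases (hp.dvd_mul).1 hd with h | h
    · exact hN.2.2.2.2 p hp h hpl
    · rw [(Nat.prime_dvd_prime_iff_eq hp hqp).1 (hp.dvd_of_dvd_pow h)]
      exact hq1

/-- the linear system of `N q^e` in terms of the symbols `a p = ℓ_p(q)` and `y s = ℓ_q(s)` -/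
def Kb (ℓ : ℕ → ℕ → ZMod 3) (N l : ℕ) (e : ZMod 3) (a y : ℕ → ZMod 3) : Prop :=
  ∀ (c : ℕ → ZMod 3) (x : ZMod 3), c l = 0 →
    (∀ p ∈ N.primeFactors.erase l, ∑ r ∈ N.primeFactors,
      (c r - c p) * ((N.factorization r : ZMod 3) * ℓ p r) + (x - c p) * (e * a p) = 0) →
    ∑ r ∈ N.primeFactors, (c r - x) * ((N.factorization r : ZMod 3) * y r) = 0 →
    (∀ p ∈ N.primeFactors, c p = 0) ∧ x = 0

theorem Kb_congr {ℓ : ℕ → ℕ → ZMod 3} {N l : ℕ} {e : ZMod 3} {a a' y y' : ℕ → ZMod 3}
    (ha : ∀ p ∈ N.primeFactors.erase l, a p = a' p) (hy : ∀ p ∈ N.primeFactors, y p = y' p) :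
    Kb ℓ N l e a y ↔ Kb ℓ N l e a' y' := by
  unfold Kb
  refine forall₂_congr fun c x => forall_congr' fun _ => ?_
  have h1 : (∀ p ∈ N.primeFactors.erase l, ∑ r ∈ N.primeFactors,
      (c r - c p) * ((N.factorization r : ZMod 3) * ℓ p r) + (x - c p) * (e * a p) = 0) ↔
      (∀ p ∈ N.primeFactors.erase l, ∑ r ∈ N.primeFactors,
      (c r - c p) * ((N.factorization r : ZMod 3) * ℓ p r) + (x - c p) * (e * a' p) = 0) :=
    forall₂_congr fun p hp => by rw [ha p hp]
  rw [h1, Finset.sum_congr rfl fun r hr => by rw [hy r hr]]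

theorem Kb_neg {ℓ : ℕ → ℕ → ZMod 3} {N l : ℕ} {e : ZMod 3} {a y : ℕ → ZMod 3} :
    Kb ℓ N l e a (-y) ↔ Kb ℓ N l e a y := by
  unfold Kb
  refine forall₂_congr fun c x => forall_congr' fun _ => ?_
  have h1 : ∑ r ∈ N.primeFactors, (c r - x) * ((N.factorization r : ZMod 3) * (-y) r) =
      - ∑ r ∈ N.primeFactors, (c r - x) * ((N.factorization r : ZMod 3) * y r) := by
    rw [← Finset.sum_neg_distrib]
    refine Finset.sum_congr rfl fun r _ => ?_
    rw [Pi.neg_apply]
    ring
  rw [h1, neg_eq_zero]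

theorem gdl_kb {ℓ : ℕ → ℕ → ZMod 3} {N l q e : ℕ} (hN : OneI N l)
    (he : e = 1 ∨ e = 2) (hq : Cs N e q) :
    GdL ℓ (N * q ^ e) ↔ Kb ℓ N l e (fun p => ℓ p q) (fun s => ℓ q s) := by
  obtain ⟨hqp, hq1, hqd, -, -⟩ := hq
  have hqP : q ∉ N.primeFactors := fun h' => hqd (Nat.dvd_of_mem_primeFactors h')
  have hlq : l ≠ q := fun h => hqP (h ▸ hN.mem)
  have hrow : ∀ (c : ℕ → ZMod 3) (p : ℕ),
      ∑ r ∈ (N * q ^ e).primeFactors, (c r - c p) * (((N * q ^ e).factorization r : ZMod 3) * ℓ p r) =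
        ∑ r ∈ N.primeFactors, (c r - c p) * ((N.factorization r : ZMod 3) * ℓ p r) +
          (c q - c p) * ((e : ZMod 3) * ℓ p q) := by
    intro c p
    rw [pf_mulS hN.1.1 hqp he, Finset.sum_insert hqP, fac_qS hN.1.1 hqp hqd, add_comm]
    congr 1
    refine Finset.sum_congr rfl fun r hr => ?_
    have hrq : r ≠ q := fun e' => hqP (e' ▸ hr)
    rw [fac_pS hN.1.1 hqp hrq]
  have hpf := pf_mulS (e := e) hN.1.1 hqp he
  constructor
  · intro hg c x hl hc hx
    set d : ℕ → ZMod 3 := fun r => if r = q then x else c r with hd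
    have dq : d q = x := if_pos rfl
    have dn : ∀ r ∈ N.primeFactors, d r = c r := fun r hr =>
      if_neg (fun e' : r = q => hqP (e' ▸ hr))
    have h1 := hg d (by
      intro p hp hp1
      rw [hrow]
      rw [hpf, Finset.mem_insert] at hp
      rcases hp with rfl | hp
      · rw [sub_self, zero_mul, add_zero, ← hx]
        exact Finset.sum_congr rfl fun r hr => by rw [dq, dn r hr]
      · rw [← hc p (Finset.mem_erase.2 ⟨hN.ne hp1, hp⟩), dq, dn p hp]
        congr 1
        exact Finset.sum_congr rfl fun r hr => by rw [dn r hr])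
    have h2 : ∀ p ∈ (N * q ^ e).primeFactors, d p = 0 := by
      intro p hp
      rw [h1 p hp l (by rw [hpf]; exact Finset.mem_insert_of_mem hN.mem), dn l hN.mem, hl]
    refine ⟨fun p hp => ?_, ?_⟩
    · rw [← dn p hp]
      exact h2 p (by rw [hpf]; exact Finset.mem_insert_of_mem hp)
    · rw [← dq]
      exact h2 q (by rw [hpf]; exact Finset.mem_insert_self _ _)
  · intro hk c hc
    have h1 := hk (fun r => c r - c l) (c q - c l) (sub_self _) (by
      intro p hp
      rw [Finset.mem_erase] at hp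
      have h2 := hc p (by rw [hpf]; exact Finset.mem_insert_of_mem hp.2) (hN.one hp.2 hp.1)
      rw [hrow] at h2
      rw [← h2]
      congr 1
      · exact Finset.sum_congr rfl fun r _ => by ring
      · ring) (by
      have h2 := hc q (by rw [hpf]; exact Finset.mem_insert_self _ _) hq1
      rw [hrow, sub_self, zero_mul, add_zero] at h2
      rw [← h2]
      exact Finset.sum_congr rfl fun r _ => by ring)
    have h2 : ∀ p ∈ (N * q ^ e).primeFactors, c p = c l := by
      intro p hp
      rw [hpf, Finset.mem_insert] at hp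
      rcases hp with rfl | hp
      · exact sub_eq_zero.1 h1.2
      · exact sub_eq_zero.1 (h1.1 p hp)
    intro p hp r hr
    rw [h2 p hp, h2 r hr]

/-- the bordered matrix; the new prime is the vertex `0` -/
def Ab (ℓ : ℕ → ℕ → ZMod 3) (N : ℕ) (e : ZMod 3) (a y : ℕ → ZMod 3) (i j : ℕ) : ZMod 3 :=
  if i = 0 then (if j = 0 then 0 else (N.factorization j : ZMod 3) * y j)
  else if j = 0 then e * a i else AN ℓ N i j

/-- the diagonal -/
def ub (N : ℕ) (e : ZMod 3) (a y : ℕ → ZMod 3) (i : ℕ) : ZMod 3 :=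
  if i = 0 then - ∑ s ∈ N.primeFactors, (N.factorization s : ZMod 3) * y s else -e * a i

theorem zero_notMem (N : ℕ) : 0 ∉ N.primeFactors := fun h =>
  (Nat.prime_of_mem_primeFactors h).ne_zero rfl

theorem kb_iff_Ns {ℓ : ℕ → ℕ → ZMod 3} {N l : ℕ} (hN : OneI N l) (e : ZMod 3) (a y : ℕ → ZMod 3) :
    Kb ℓ N l e a y ↔ FF.Ns (insert 0 (N.primeFactors.erase l)) (Ab ℓ N e a y) (ub N e a y) := by
  have h0 : (0 : ℕ) ∉ N.primeFactors.erase l := fun h => zero_notMem N (Finset.mem_of_mem_erase h)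
  have hr0 : ∀ r ∈ N.primeFactors, r ≠ 0 := fun r hr h => zero_notMem N (h ▸ hr)
  -- the rows
  have row0 : ∀ (c : ℕ → ZMod 3) (x : ZMod 3), c l = 0 →
      ∑ r ∈ N.primeFactors, (c r - x) * ((N.factorization r : ZMod 3) * y r) =
        ∑ r ∈ N.primeFactors.erase l, (N.factorization r : ZMod 3) * y r * c r +
          (- ∑ s ∈ N.primeFactors, (N.factorization s : ZMod 3) * y s) * x := by
    intro c x hl
    rw [← Finset.add_sum_erase _ (fun r => (c r - x) * ((N.factorization r : ZMod 3) * y r)) hN.mem,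
      ← Finset.add_sum_erase _ (fun s => (N.factorization s : ZMod 3) * y s) hN.mem, hl]
    have : ∑ r ∈ N.primeFactors.erase l, (c r - x) * ((N.factorization r : ZMod 3) * y r) =
        ∑ r ∈ N.primeFactors.erase l, (N.factorization r : ZMod 3) * y r * c r -
          (∑ r ∈ N.primeFactors.erase l, (N.factorization r : ZMod 3) * y r) * x := by
      rw [Finset.sum_mul, ← Finset.sum_sub_distrib]
      exact Finset.sum_congr rfl fun r _ => by ring
    rw [this]
    ring
  have rowp : ∀ (c : ℕ → ZMod 3) (x : ZMod 3), c l = 0 → ∀ p ∈ N.primeFactors.erase l,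
      ∑ r ∈ N.primeFactors, (c r - c p) * ((N.factorization r : ZMod 3) * ℓ p r) +
        (x - c p) * (e * a p) =
        ∑ r ∈ N.primeFactors.erase l, AN ℓ N p r * c r + e * a p * x + -e * a p * c p := by
    intro c x hl p hp
    rw [← AN_row ℓ N p (Finset.mem_of_mem_erase hp) c,
      ← Finset.add_sum_erase _ (fun r => AN ℓ N p r * c r) hN.mem, hl]
    ring
  constructor
  · intro hk c hc
    have h1 := hk (fun r => if r = l then 0 else c r) (c 0) (if_pos rfl) (by
      intro p hp
      rw [rowp (fun r => if r = l then 0 else c r) (c 0) (if_pos rfl) p hp]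
      have h2 := hc p (Finset.mem_insert_of_mem hp)
      rw [Finset.sum_insert h0] at h2
      have hp0 : p ≠ 0 := hr0 p (Finset.mem_of_mem_erase hp)
      unfold Ab ub at h2
      simp only [hp0, if_false, if_true] at h2
      rw [if_neg (Finset.ne_of_mem_erase hp)]
      have h3 : ∑ r ∈ N.primeFactors.erase l, AN ℓ N p r * (if r = l then 0 else c r) =
          ∑ r ∈ N.primeFactors.erase l, (if r = 0 then e * a p else AN ℓ N p r) * c r := by
        refine Finset.sum_congr rfl fun r hr => ?_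
        rw [if_neg (Finset.ne_of_mem_erase hr), if_neg (hr0 r (Finset.mem_of_mem_erase hr))]
      rw [h3]
      linear_combination h2) (by
      rw [row0 (fun r => if r = l then 0 else c r) (c 0) (if_pos rfl)]
      have h2 := hc 0 (Finset.mem_insert_self _ _)
      rw [Finset.sum_insert h0] at h2
      unfold Ab ub at h2
      simp only [if_true] at h2
      have h3 : ∑ r ∈ N.primeFactors.erase l, (N.factorization r : ZMod 3) * y r *
          (if r = l then 0 else c r) =
          ∑ r ∈ N.primeFactors.erase l, (if r = 0 then 0 else (N.factorization r : ZMod 3) * y r) *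
            c r := by
        refine Finset.sum_congr rfl fun r hr => ?_
        rw [if_neg (Finset.ne_of_mem_erase hr), if_neg (hr0 r (Finset.mem_of_mem_erase hr))]
      rw [h3]
      linear_combination h2)
    intro p hp
    rw [Finset.mem_insert] at hp
    rcases hp with rfl | hp
    · exact h1.2
    · have := h1.1 p (Finset.mem_of_mem_erase hp)
      rwa [if_neg (Finset.ne_of_mem_erase hp)] at this
  · intro hn c x hl hc hx
    set d : ℕ → ZMod 3 := fun r => if r = 0 then x else c r with hd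
    have d0 : d 0 = x := if_pos rfl
    have dn : ∀ r ∈ N.primeFactors.erase l, d r = c r := fun r hr =>
      if_neg (hr0 r (Finset.mem_of_mem_erase hr))
    have h1 := hn d (by
      intro p hp
      rw [Finset.sum_insert h0, d0]
      rw [Finset.mem_insert] at hp
      rcases hp with rfl | hp
      · rw [row0 c x hl] at hx
        unfold Ab ub
        simp only [if_true]
        rw [d0]
        have h3 : ∑ r ∈ N.primeFactors.erase l,
            (if r = 0 then 0 else (N.factorization r : ZMod 3) * y r) * d r =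
            ∑ r ∈ N.primeFactors.erase l, (N.factorization r : ZMod 3) * y r * c r := by
          refine Finset.sum_congr rfl fun r hr => ?_
          rw [if_neg (hr0 r (Finset.mem_of_mem_erase hr)), dn r hr]
        rw [h3]
        linear_combination hx
      · have hp0 : p ≠ 0 := hr0 p (Finset.mem_of_mem_erase hp)
        have h2 := hc p hp
        rw [rowp c x hl p hp] at h2
        unfold Ab ub
        simp only [hp0, if_false, if_true]
        rw [dn p hp]
        have h3 : ∑ r ∈ N.primeFactors.erase l, (if r = 0 then e * a p else AN ℓ N p r) * d r =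
            ∑ r ∈ N.primeFactors.erase l, AN ℓ N p r * c r := by
          refine Finset.sum_congr rfl fun r hr => ?_
          rw [if_neg (hr0 r (Finset.mem_of_mem_erase hr)), dn r hr]
        rw [h3]
        linear_combination h2)
    refine ⟨fun p hp => ?_, ?_⟩
    · by_cases hpl : p = l
      · rw [hpl, hl]
      · have hp' := Finset.mem_erase.2 ⟨hpl, hp⟩
        rw [← dn p hp']
        exact h1 p (Finset.mem_insert_of_mem hp')
    · rw [← d0]
      exact h1 0 (Finset.mem_insert_self _ _)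

/-- one bad value for the symbol `ℓ_q(l)` -/
theorem kb_step {ℓ : ℕ → ℕ → ZMod 3} {N l : ℕ} (hN : OneI N l) {e : ZMod 3} {a : ℕ → ZMod 3}
    (h : FF.Ns (N.primeFactors.erase l) (AN ℓ N) (fun p => -e * a p)) (y : ℕ → ZMod 3) :
    ∃ β : ZMod 3, ∀ x : ZMod 3, x ≠ β → Kb ℓ N l e a (Function.update y l x) := by
  have h0 : (0 : ℕ) ∉ N.primeFactors.erase l := fun h => zero_notMem N (Finset.mem_of_mem_erase h)
  have hr0 : ∀ r ∈ N.primeFactors, r ≠ 0 := fun r hr h => zero_notMem N (h ▸ hr)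
  have hv : (N.factorization l : ZMod 3) ≠ 0 := by
    have h1 : 1 ≤ N.factorization l :=
      (hN.2.1.dvd_iff_one_le_factorization hN.1.1).1 hN.2.2.2.1
    have h3 := hN.1.2.2 l hN.2.1
    rw [hN.2.1.pow_dvd_iff_le_factorization hN.1.1] at h3
    rcases (by omega : N.factorization l = 1 ∨ N.factorization l = 2) with h4 | h4
    · rw [h4]; decide
    · rw [h4]; decide
  have h1 : FF.Ns (N.primeFactors.erase l) (Ab ℓ N e a y) (fun p => -e * a p) := by
    intro c hc
    refine h c fun p hp => ?_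
    rw [← hc p hp]
    congr 1
    refine Finset.sum_congr rfl fun r hr => ?_
    unfold Ab
    rw [if_neg (hr0 p (Finset.mem_of_mem_erase hp)), if_neg (hr0 r (Finset.mem_of_mem_erase hr))]
  obtain ⟨b, hb⟩ := h1.step h0
  set s : ZMod 3 := ∑ r ∈ N.primeFactors.erase l, (N.factorization r : ZMod 3) * y r with hs
  refine ⟨-(b + s) * (N.factorization l : ZMod 3)⁻¹, fun x hx => ?_⟩
  rw [kb_iff_Ns hN]
  have h2 := hb (-((N.factorization l : ZMod 3) * x + s)) (by
    intro h3
    apply hx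
    rw [← h3]
    haveI : Fact (Nat.Prime 3) := ⟨Nat.prime_three⟩
    field_simp
    ring)
  have hy : ∀ r ∈ N.primeFactors.erase l, Function.update y l x r = y r := fun r hr =>
    Function.update_of_ne (Finset.ne_of_mem_erase hr) _ _
  intro c hc
  refine h2 c fun p hp => ?_
  rw [← hc p hp]
  congr 1
  · refine Finset.sum_congr rfl fun r hr => ?_
    congr 1
    unfold Ab
    rw [Finset.mem_insert] at hr
    split_ifs with k1 k2
    · rfl
    · rw [hy r (hr.resolve_left k2)]
    · rfl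
    · rfl
  · congr 1
    unfold ub
    by_cases hp0 : p = 0
    · rw [hp0, Function.update_self, if_pos rfl, ← Finset.add_sum_erase _ _ hN.mem,
        Function.update_self, Finset.sum_congr rfl fun r hr => by rw [hy r hr]]
    · rw [Function.update_of_ne hp0, if_neg hp0]

end Pool.Agent.H20PT
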