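import Mathlib
import Pool.Agent.Helper923.PNT

/-!
# The density of the primes in a set of residue classes
-/

set_option autoImplicit false

namespace Pool.Agent.H20PT

open Finset Filter Topology
open ArithmeticFunction (vonMangoldt)

open scoped Classical in
/-- **The prime number theorem for a set of reduced residue classes.** -/
theorem dens {M : ℕ} [NeZero M] (A : Finset (ZMod M)) (hA : ∀ a ∈ A, IsUnit a) :
    Tendsto (fun X : ℕ => (((Icc 1 X).filter fun q : ℕ => q.Prime ∧ (q : ZMod M) ∈ A).card : ℝ) /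
      (((Icc 1 X).filter fun q : ℕ => q.Prime).card : ℝ)) atTop
      (𝓝 ((A.card : ℝ) * (M.totient : ℝ)⁻¹)) := by
  have hcast : Tendsto (fun n : ℕ => (n : ℝ)) atTop atTop := tendsto_natCast_atTop_atTop
  have hθ := (Pool.Agent.Helper923.PNT.theta_div_tendsto).comp hcast
  have hψ := (Pool.Agent.Helper923.PNT.psi_div_tendsto).comp hcast
  have hπ := (Pool.Agent.Helper923.PNT.pi_tendsto).comp hcast
  simp only [Function.comp_def, Nat.floor_natCast] at hθ hψ hπ
  have hk : ∀ a ∈ A, Tendsto (fun X : ℕ =>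
      (∑ k ∈ Icc 1 X, vonMangoldt.residueClass a k) / (X : ℝ)) atTop
      (𝓝 ((M.totient : ℝ)⁻¹)) := by
    intro a ha
    have := (Pool.Agent.Helper923.PNT.pnt_residueClass (q := M) (a := a) (hA a ha)).comp hcast
    simpa only [Function.comp_def, Nat.floor_natCast] using this
  have hsum : Tendsto (fun X : ℕ => ∑ a ∈ A,
      (∑ k ∈ Icc 1 X, vonMangoldt.residueClass a k) / (X : ℝ)) atTop
      (𝓝 ((A.card : ℝ) * (M.totient : ℝ)⁻¹)) := by
    have := tendsto_finsetSum A hk
    rwa [sum_const, nsmul_eq_mul] at this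
  -- the sums over the residue classes
  have hS : ∀ X : ℕ, ∑ a ∈ A, (∑ k ∈ Icc 1 X, vonMangoldt.residueClass a k) / (X : ℝ) =
      (∑ k ∈ Icc 1 X, if (k : ZMod M) ∈ A then vonMangoldt k else 0) / (X : ℝ) := by
    intro X
    rw [← Finset.sum_div, Finset.sum_comm]
    congr 1
    refine Finset.sum_congr rfl fun k _ => ?_
    by_cases h : (k : ZMod M) ∈ A
    · rw [if_pos h, Finset.sum_eq_single (k : ZMod M)]
      · simp [vonMangoldt.residueClass]
      · intro b _ hb
        simp [vonMangoldt.residueClass, Ne.symm hb]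
      · exact fun h' => absurd h h'
    · rw [if_neg h]
      refine Finset.sum_eq_zero fun b hb => ?_
      have : (k : ZMod M) ≠ b := fun e => h (e ▸ hb)
      simp [vonMangoldt.residueClass, this]
  -- the sum of the logarithms of the primes
  set T : ℕ → ℝ := fun X => ∑ k ∈ (Icc 1 X).filter (fun q : ℕ => q.Prime ∧ (q : ZMod M) ∈ A),
    Real.log k with hT
  have hθX : ∀ X : ℕ, Chebyshev.theta (X : ℝ) = ∑ k ∈ (Icc 1 X).filter (fun q : ℕ => q.Prime),
      Real.log k := by
    intro X
    rw [Chebyshev.theta]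
    rw [Nat.floor_natCast]
    refine Finset.sum_congr ?_ fun _ _ => rfl
    ext k
    simp only [Finset.mem_filter, Finset.mem_Ioc, Finset.mem_Icc]
    refine and_congr_left fun _ => ?_
    omega
  have hψX : ∀ X : ℕ, Chebyshev.psi (X : ℝ) = ∑ k ∈ Icc 1 X, vonMangoldt k := by
    intro X
    rw [Chebyshev.psi]
    rw [Nat.floor_natCast]
    refine Finset.sum_congr ?_ fun _ _ => rfl
    ext k
    simp only [Finset.mem_Ioc, Finset.mem_Icc]
    omega
  have hdiff : ∀ X : ℕ, |(∑ k ∈ Icc 1 X, if (k : ZMod M) ∈ A then vonMangoldt k else 0) - T X| ≤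
      Chebyshev.psi (X : ℝ) - Chebyshev.theta (X : ℝ) := by
    intro X
    rw [hψX, hθX, hT]
    simp only
    rw [Finset.sum_filter, Finset.sum_filter, ← Finset.sum_sub_distrib, ← Finset.sum_sub_distrib]
    refine (Finset.abs_sum_le_sum_abs _ _).trans (Finset.sum_le_sum fun k hk => ?_)
    have h0 : 0 ≤ vonMangoldt k := ArithmeticFunction.vonMangoldt_nonneg
    by_cases hp : k.Prime
    · have h1 : vonMangoldt k = Real.log k := ArithmeticFunction.vonMangoldt_apply_prime hp
      by_cases hm : (k : ZMod M) ∈ A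
      · simp [hp, hm, h1]
      · simp [hp, hm, h1]
    · by_cases hm : (k : ZMod M) ∈ A
      · simp [hp, hm, abs_of_nonneg h0]
      · simp [hp, hm, h0]
  have hTlim : Tendsto (fun X : ℕ => T X / (X : ℝ)) atTop
      (𝓝 ((A.card : ℝ) * (M.totient : ℝ)⁻¹)) := by
    have h1 : Tendsto (fun X : ℕ => (Chebyshev.psi (X : ℝ) / X - Chebyshev.theta (X : ℝ) / X)) atTop
        (𝓝 0) := by
      have := hψ.sub hθ
      simpa using this
    have h2 : Tendsto (fun X : ℕ => (∑ k ∈ Icc 1 X, if (k : ZMod M) ∈ A then vonMangoldt k else 0) /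
        (X : ℝ) - T X / X) atTop (𝓝 0) := by
      rw [tendsto_zero_iff_abs_tendsto_zero]
      refine squeeze_zero (fun X => abs_nonneg _) (fun X => ?_) h1
      simp only [Function.comp]
      rw [← sub_div, ← sub_div, abs_div, Nat.abs_cast]
      exact div_le_div_of_nonneg_right (hdiff X) (Nat.cast_nonneg X)
    have h3 : Tendsto (fun X : ℕ => (∑ k ∈ Icc 1 X, if (k : ZMod M) ∈ A then vonMangoldt k else 0) /
        (X : ℝ)) atTop (𝓝 ((A.card : ℝ) * (M.totient : ℝ)⁻¹)) := by
      refine hsum.congr fun X => hS X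
    have := h3.sub h2
    simpa using this
  have hpc : ∀ X : ℕ, (((Icc 1 X).filter fun q : ℕ => q.Prime).card : ℝ) = (Nat.primeCounting X : ℝ) := by
    intro X
    congr 1
    unfold Nat.primeCounting Nat.primeCounting'
    rw [Nat.count_eq_card_filter_range]
    congr 1
    ext p
    simp only [mem_filter, mem_Icc, mem_range]
    constructor
    · rintro ⟨h1, h2⟩
      exact ⟨by omega, h2⟩
    · rintro ⟨h1, h2⟩
      exact ⟨⟨h2.one_le, by omega⟩, h2⟩
  -- from the logarithms to the number
  have hcount : Tendsto (fun X : ℕ =>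
      (((Icc 1 X).filter fun q : ℕ => q.Prime ∧ (q : ZMod M) ∈ A).card : ℝ) * Real.log X / X) atTop
      (𝓝 ((A.card : ℝ) * (M.totient : ℝ)⁻¹)) := by
    have h1 : Tendsto (fun X : ℕ => (Nat.primeCounting X : ℝ) * Real.log X / X -
        Chebyshev.theta (X : ℝ) / X) atTop (𝓝 0) := by
      have := hπ.sub hθ
      simpa using this
    have h2 : Tendsto (fun X : ℕ =>
      (((Icc 1 X).filter fun q : ℕ => q.Prime ∧ (q : ZMod M) ∈ A).card : ℝ) * Real.log X / X -
        T X / X) atTop (𝓝 0) := by
      rw [tendsto_zero_iff_abs_tendsto_zero]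
      refine squeeze_zero (fun X => abs_nonneg _) (fun X => ?_) h1
      simp only [Function.comp]
      have e1 : (((Icc 1 X).filter fun q : ℕ => q.Prime ∧ (q : ZMod M) ∈ A).card : ℝ) * Real.log X -
          T X = ∑ k ∈ (Icc 1 X).filter (fun q : ℕ => q.Prime ∧ (q : ZMod M) ∈ A),
            (Real.log X - Real.log k) := by
        rw [hT, Finset.sum_sub_distrib, Finset.sum_const, nsmul_eq_mul]
      have e2 : (Nat.primeCounting X : ℝ) * Real.log X - Chebyshev.theta (X : ℝ) =
          ∑ k ∈ (Icc 1 X).filter (fun q : ℕ => q.Prime), (Real.log X - Real.log k) := by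
        rw [hθX, Finset.sum_sub_distrib, Finset.sum_const, nsmul_eq_mul, hpc]
      have hnn : ∀ k ∈ (Icc 1 X).filter (fun q : ℕ => q.Prime), 0 ≤ Real.log X - Real.log k := by
        intro k hk
        rw [mem_filter, mem_Icc] at hk
        have h3 : (1 : ℝ) ≤ k := by exact_mod_cast hk.1.1
        have h4 : (k : ℝ) ≤ X := by exact_mod_cast hk.1.2
        have := Real.log_le_log (by linarith) h4
        linarith
      have hsub : (Icc 1 X).filter (fun q : ℕ => q.Prime ∧ (q : ZMod M) ∈ A) ⊆
          (Icc 1 X).filter (fun q : ℕ => q.Prime) := by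
        intro k hk
        rw [mem_filter] at hk ⊢
        exact ⟨hk.1, hk.2.1⟩
      rw [← sub_div, ← sub_div, abs_div, Nat.abs_cast, e1, e2]
      refine div_le_div_of_nonneg_right ?_ (Nat.cast_nonneg X)
      rw [abs_of_nonneg (Finset.sum_nonneg fun k hk => hnn k (hsub hk))]
      exact Finset.sum_le_sum_of_subset_of_nonneg hsub fun k hk _ => hnn k hk
    have := h2.add hTlim
    simpa using this
  have hfin := hcount.div hπ one_ne_zero
  rw [div_one] at hfin
  refine hfin.congr' ?_
  filter_upwards [eventually_ge_atTop 3] with X hX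
  have hX0 : (0 : ℝ) < X := by
    have : (3 : ℝ) ≤ X := by exact_mod_cast hX
    linarith
  have hl : 0 < Real.log X := Real.log_pos (by
    have : (3 : ℝ) ≤ X := by exact_mod_cast hX
    linarith)
  have hpos : (0 : ℝ) < Nat.primeCounting X := by
    rw [← hpc]
    have : 0 < ((Icc 1 X).filter fun q : ℕ => q.Prime).card :=
      Finset.card_pos.2 ⟨2, by rw [mem_filter, mem_Icc]; exact ⟨⟨by norm_num, by omega⟩, Nat.prime_two⟩⟩
    exact_mod_cast this
  simp only [Pi.div_apply]
  rw [hpc]
  field_simp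

end Pool.Agent.H20PT
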