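import Pool.Agent.H20PT.CntS

/-!
# The density of the good primes `q ≡ 1` modulo `3`
-/

set_option autoImplicit false
set_option linter.unusedSectionVars false

namespace Pool.Agent.H20PT

open Finset Filter Topology
open Pool.Agent.Y703.CX (lam LamP)
open Pool.Agent.Y703.CT (Cls NoSplit Base Triv3)
open scoped Classical

/-- the number of the admissible classes modulo `9` -/
def clsS (I : Finset (ℕ × ℕ)) : ℕ :=
  (({1, 4, 7} : Finset ℕ).filter fun r => ∀ i ∈ I, i.1 * r ^ i.2 % 9 ≠ 1 ∧ i.1 * r ^ i.2 % 9 ≠ 8).card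

/-- the criterion for one prime -/
theorem triv_iff {ℓ : ℕ → ℕ → ZMod 3} (h : IsLog ℓ) {N l q e : ℕ} (hN : OneI N l)
    (he : e = 1 ∨ e = 2) (hq : Cs N e q) :
    Triv3 (N * q ^ e) ↔ Kb ℓ N l e (fun p => ℓ p q) (fun s => ℓ q s) := by
  have hC := cls_ofS hN he hq
  obtain ⟨-, f, -, -, u, -, -, h3⟩ := Pool.Agent.Y703.CT.fin_all hC
  rw [h3, nosplit_gdl h hC, gdl_kb hN he hq]

theorem ex_neg {P : Finset ℕ} (v : P → ZMod 3) : FF.ex (-v) = - FF.ex v := by
  funext p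
  unfold FF.ex
  rw [Pi.neg_apply]
  split_ifs
  · rfl
  · rw [neg_zero]

theorem card_split {α β γ : Type*} (P : γ → Prop) (Q : α × β → Prop) :
    Nat.card {x : α × β × γ // P x.2.2 ∧ Q (x.1, x.2.1)} =
      Nat.card {t : γ // P t} * Nat.card {x : α × β // Q x} := by
  have e1 : {x : α × β × γ // P x.2.2 ∧ Q (x.1, x.2.1)} ≃ {c : γ × (α × β) // P c.1 ∧ Q c.2} :=
    (((Equiv.prodAssoc α β γ).symm.trans (Equiv.prodComm (α × β) γ)).subtypeEquiv fun x => Iff.rfl)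
  rw [Nat.card_congr e1, Nat.card_congr (Equiv.subtypeProdEquivProd), Nat.card_prod]

theorem card_cls (I : Finset (ℕ × ℕ)) : Nat.card {t : ZMod 3 // ∀ i ∈ I,
    i.1 * (1 + 3 * t.val) ^ i.2 % 9 ≠ 1 ∧ i.1 * (1 + 3 * t.val) ^ i.2 % 9 ≠ 8} = clsS I := by
  rw [Nat.card_eq_fintype_card, Fintype.card_subtype]
  unfold clsS
  refine Finset.card_bij (fun t _ => 1 + 3 * t.val) ?_ ?_ ?_
  · intro t ht
    rw [Finset.mem_filter] at ht ⊢
    refine ⟨?_, ht.2⟩
    have h3 : t.val < 3 := ZMod.val_lt t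
    simp only [Finset.mem_insert, Finset.mem_singleton]
    omega
  · intro t _ t' _ h
    exact ZMod.val_injective 3 (by simpa using h)
  · intro r hr
    rw [Finset.mem_filter] at hr
    have h1 := hr.1
    simp only [Finset.mem_insert, Finset.mem_singleton] at h1
    have h2 : 1 + 3 * (((r / 3 : ℕ) : ZMod 3)).val = r := by
      rw [ZMod.val_natCast]
      omega
    refine ⟨((r / 3 : ℕ) : ZMod 3), ?_, h2⟩
    rw [Finset.mem_filter]
    refine ⟨Finset.mem_univ _, ?_⟩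
    rw [h2]
    exact hr.2

/-- the density -/
theorem dens_famS {ℓ : ℕ → ℕ → ZMod 3} (h : IsLog ℓ) {lf : ℕ → ℕ} {U : Finset ℕ}
    {I : Finset (ℕ × ℕ)} (hF : Fam lf U I) :
    Tendsto (fun X : ℕ => (((Icc 1 X).filter fun q : ℕ => q.Prime ∧ (q % 3 = 1 ∧ ∀ i ∈ I,
        i.1 * q ^ i.2 % 9 ≠ 1 ∧ i.1 * q ^ i.2 % 9 ≠ 8 ∧ Triv3 (i.1 * q ^ i.2))).card : ℝ) /
      (((Icc 1 X).filter fun q : ℕ => q.Prime).card : ℝ)) atTop
      (𝓝 ((clsS I : ℝ) / 6 * ((nu ℓ lf U I : ℝ) / 3 ^ ((P1 U).card + U.card)))) := by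
  set Pt : ZMod 3 → Prop := fun t => ∀ i ∈ I,
    i.1 * (1 + 3 * t.val) ^ i.2 % 9 ≠ 1 ∧ i.1 * (1 + 3 * t.val) ^ i.2 % 9 ≠ 8 with hPt
  set Qt : (P1 U → ZMod 3) × (U → ZMod 3) → Prop := fun x => ∀ i ∈ I,
    Kb ℓ i.1 (lf i.1) (i.2 : ZMod 3) (FF.ex x.1) (FF.ex x.2) with hQt
  set R : (P1 U → ZMod 3) × (U → ZMod 3) × ZMod 3 → Prop := fun x => Pt x.2.2 ∧ Qt (x.1, x.2.1)
    with hR
  have h1 := law Pool.Agent.Y333.CX.t_LAM lam_log h hF.pr R (by
    intro a y t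
    rw [hR]
    simp only
    refine and_congr_right fun _ => ?_
    rw [hQt]
    simp only
    refine forall₂_congr fun i _ => ?_
    rw [ex_neg, Kb_neg])
  have hcard : Nat.card {x : (P1 U → ZMod 3) × (U → ZMod 3) × ZMod 3 // R x} =
      clsS I * nu ℓ lf U I := by
    have h2 := card_split (α := P1 U → ZMod 3) (β := U → ZMod 3) Pt Qt
    have h3 : Nat.card {x : (P1 U → ZMod 3) × (U → ZMod 3) // Qt x} = nu ℓ lf U I := by
      rw [Nat.card_eq_fintype_card, Fintype.card_subtype]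
      rfl
    rw [← card_cls I, ← h3]
    exact h2
  rw [hcard] at h1
  have hlim : ((clsS I * nu ℓ lf U I : ℕ) : ℝ) / (2 * 3 ^ ((P1 U).card + U.card + 1)) =
      (clsS I : ℝ) / 6 * ((nu ℓ lf U I : ℝ) / 3 ^ ((P1 U).card + U.card)) := by
    push_cast
    rw [pow_succ]
    field_simp
    ring
  rw [hlim] at h1
  have h2 : ∀ q : ℕ, U.sup id < q → q.Prime → ((q % 3 = 1 ∧ R (sa ℓ U q, sy ℓ U q, st q)) ↔
      (q % 3 = 1 ∧ ∀ i ∈ I, i.1 * q ^ i.2 % 9 ≠ 1 ∧ i.1 * q ^ i.2 % 9 ≠ 8 ∧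
        Triv3 (i.1 * q ^ i.2))) := by
    intro q hq hqp
    have hqU : q ∉ U := by
      intro hqU
      have : id q ≤ U.sup id := Finset.le_sup hqU
      simp only [id] at this
      omega
    refine and_congr_right fun hq1 => ?_
    rw [hR, hPt, hQt]
    simp only
    rw [← forall₂_and]
    refine forall₂_congr fun i hi => ?_
    have hmod : i.1 * (1 + 3 * (st q).val) ^ i.2 % 9 = i.1 * q ^ i.2 % 9 := by
      have h5 : (1 + 3 * (st q).val) % 9 = q % 9 := by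
        unfold st
        rw [ZMod.val_natCast]
        omega
      rw [Nat.mul_mod, Nat.pow_mod, h5, ← Nat.pow_mod, ← Nat.mul_mod]
    rw [hmod, and_assoc]
    refine and_congr_right fun c1 => and_congr_right fun c8 => ?_
    have hqN : ¬ q ∣ i.1 := fun hd => hqU (hF.sub i hi
      (Nat.mem_primeFactors.2 ⟨hqp, hd, (hF.one i hi).1.1⟩))
    rw [triv_iff h (hF.one i hi) (hF.exp i hi) ⟨hqp, hq1, hqN, c1, c8⟩]
    refine Kb_congr (fun p hp => ?_) (fun s hs => ?_)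
    · have hp' := erase_sub hF i hi hp
      unfold FF.ex sa
      rw [dif_pos hp']
    · have hs' := hF.sub i hi hs
      unfold FF.ex sy
      rw [dif_pos hs']
  have h3 := dens_congr (S := fun q => q % 3 = 1 ∧ R (sa ℓ U q, sy ℓ U q, st q))
    (T := fun q => q % 3 = 1 ∧ ∀ i ∈ I, i.1 * q ^ i.2 % 9 ≠ 1 ∧ i.1 * q ^ i.2 % 9 ≠ 8 ∧
        Triv3 (i.1 * q ^ i.2)) (U.sup id) h2
    (δ := (clsS I : ℝ) / 6 * ((nu ℓ lf U I : ℝ) / 3 ^ ((P1 U).card + U.card))) (by convert h1)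
  convert h3

/-- one curve: two classes modulo `9` -/
theorem clsS_one {N l e : ℕ} (h : OneI N l) (k : e = 1 ∨ e = 2) : clsS {(N, e)} = 2 := by
  have a : N % 3 ≠ 0 := fun h3 => h.1.2.1 (Nat.dvd_of_mod_eq_zero h3)
  unfold clsS
  simp only [Finset.mem_singleton, forall_eq]
  have e1 : ∀ r e : ℕ, N * r ^ e % 9 = (N % 9) * (r ^ e % 9) % 9 := fun r e => Nat.mul_mod _ _ _
  have key : ∀ m : Fin 9, m.val % 3 ≠ 0 →
      (({1, 4, 7} : Finset ℕ).filter fun r => m.val * (r ^ 1 % 9) % 9 ≠ 1 ∧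
        m.val * (r ^ 1 % 9) % 9 ≠ 8).card = 2 ∧
      (({1, 4, 7} : Finset ℕ).filter fun r => m.val * (r ^ 2 % 9) % 9 ≠ 1 ∧
        m.val * (r ^ 2 % 9) % 9 ≠ 8).card = 2 := by decide
  have h2 := key ⟨N % 9, Nat.mod_lt _ (by norm_num)⟩ (by simp only []; omega)
  simp only [e1]
  rcases k with rfl | rfl
  · convert h2.1
  · convert h2.2

/-- the number of the classes for a family -/
theorem clsS_ge {lf : ℕ → ℕ} {I : Finset (ℕ × ℕ)}
    (hI : ∀ i ∈ I, OneI i.1 (lf i.1) ∧ (i.2 = 1 ∨ i.2 = 2)) : 3 ≤ clsS I + I.card := by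
  have h1 : ({1, 4, 7} : Finset ℕ) ⊆
      (({1, 4, 7} : Finset ℕ).filter fun r => ∀ i ∈ I, i.1 * r ^ i.2 % 9 ≠ 1 ∧ i.1 * r ^ i.2 % 9 ≠ 8) ∪
      I.biUnion fun i => ({1, 4, 7} : Finset ℕ).filter fun r =>
        ¬ (i.1 * r ^ i.2 % 9 ≠ 1 ∧ i.1 * r ^ i.2 % 9 ≠ 8) := by
    intro r hr
    rw [Finset.mem_union, Finset.mem_filter, Finset.mem_biUnion]
    by_cases hall : ∀ i ∈ I, i.1 * r ^ i.2 % 9 ≠ 1 ∧ i.1 * r ^ i.2 % 9 ≠ 8
    · exact Or.inl ⟨hr, hall⟩
    · push Not at hall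
      obtain ⟨i, hi, hi2⟩ := hall
      refine Or.inr ⟨i, hi, ?_⟩
      rw [Finset.mem_filter]
      refine ⟨hr, ?_⟩
      rintro ⟨b1, b2⟩
      exact b2 (hi2 b1)
  have h2 := Finset.card_le_card h1
  have h3 : ({1, 4, 7} : Finset ℕ).card = 3 := by decide
  have h4 : (I.biUnion fun i => ({1, 4, 7} : Finset ℕ).filter fun r =>
        ¬ (i.1 * r ^ i.2 % 9 ≠ 1 ∧ i.1 * r ^ i.2 % 9 ≠ 8)).card ≤ I.card * 1 := by
    refine Finset.card_biUnion_le_card_mul _ _ _ fun i hi => ?_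
    have h5 := clsS_one (hI i hi).1 (hI i hi).2
    unfold clsS at h5
    simp only [Finset.mem_singleton, forall_eq] at h5
    have h6 := Finset.card_filter_add_card_filter_not (s := ({1, 4, 7} : Finset ℕ))
      (fun r => i.1 * r ^ i.2 % 9 ≠ 1 ∧ i.1 * r ^ i.2 % 9 ≠ 8)
    rw [h3] at h6
    have h7 : (({1, 4, 7} : Finset ℕ).filter fun r =>
        i.1 * r ^ i.2 % 9 ≠ 1 ∧ i.1 * r ^ i.2 % 9 ≠ 8).card = 2 := by convert h5
    omega
  rw [h3] at h2
  have h5 := Finset.card_union_le (({1, 4, 7} : Finset ℕ).filter fun r =>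
      ∀ i ∈ I, i.1 * r ^ i.2 % 9 ≠ 1 ∧ i.1 * r ^ i.2 % 9 ≠ 8)
      (I.biUnion fun i => ({1, 4, 7} : Finset ℕ).filter fun r =>
        ¬ (i.1 * r ^ i.2 % 9 ≠ 1 ∧ i.1 * r ^ i.2 % 9 ≠ 8))
  have h6 : (({1, 4, 7} : Finset ℕ).filter fun r =>
      ∀ i ∈ I, i.1 * r ^ i.2 % 9 ≠ 1 ∧ i.1 * r ^ i.2 % 9 ≠ 8).card = clsS I := rfl
  rw [h6] at h5
  omega

/-- the border as an index -/
def oo {S : Finset ℕ} : Option S → ℕ
  | none => 0
  | some p => p

theorem Ns_option {S : Finset ℕ} (hS : 0 ∉ S) (A : ℕ → ℕ → ZMod 3) (u : ℕ → ZMod 3) :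
    FF.Ns (insert 0 S) A u ↔
      FF.Ns (univ : Finset (Option S)) (fun i j => A (oo i) (oo j)) (fun i => u (oo i)) := by
  have hsum : ∀ f : ℕ → ZMod 3, ∑ r ∈ insert 0 S, f r = ∑ i : Option S, f (oo i) := by
    intro f
    rw [Finset.sum_insert hS, Fintype.sum_option]
    congr 1
    exact (Finset.sum_coe_sort S f).symm
  constructor
  · intro h c hc
    set d : ℕ → ZMod 3 := fun n => if n = 0 then c none else if hn : n ∈ S then c (some ⟨n, hn⟩) else 0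
      with hd
    have hdo : ∀ i : Option S, d (oo i) = c i := by
      intro i
      cases i with
      | none => exact if_pos rfl
      | some p =>
        have hp0 : (p : ℕ) ≠ 0 := fun h0 => hS (h0 ▸ p.2)
        rw [hd]
        change (if (p : ℕ) = 0 then c none else if hn : (p : ℕ) ∈ S then c (some ⟨p, hn⟩) else 0) = _
        rw [if_neg hp0, dif_pos p.2]
    have h1 := h d (by
      intro p hp
      have hex : ∃ i : Option S, oo i = p := by
        rw [Finset.mem_insert] at hp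
        rcases hp with rfl | hp
        · exact ⟨none, rfl⟩
        · exact ⟨some ⟨p, hp⟩, rfl⟩
      obtain ⟨i, rfl⟩ := hex
      rw [hsum (fun r => A (oo i) r * d r), hdo i, ← hc i (Finset.mem_univ _)]
      congr 1
      exact Finset.sum_congr rfl fun j _ => by rw [hdo j])
    intro i _
    rw [← hdo i]
    refine h1 _ ?_
    cases i with
    | none => exact Finset.mem_insert_self _ _
    | some p => exact Finset.mem_insert_of_mem p.2
  · intro h c hc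
    have h1 := h (fun i => c (oo i)) (by
      intro i _
      have hi : oo i ∈ insert 0 S := by
        cases i with
        | none => exact Finset.mem_insert_self _ _
        | some p => exact Finset.mem_insert_of_mem p.2
      rw [← hc _ hi, hsum (fun r => A (oo i) r * c r)])
    intro p hp
    rw [Finset.mem_insert] at hp
    rcases hp with rfl | hp
    · exact h1 none (Finset.mem_univ _)
    · exact h1 (some ⟨p, hp⟩) (Finset.mem_univ _)

end Pool.Agent.H20PT
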