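import Pool.Agent.H20PT.Chb
import Pool.Agent.H20PT.LinF
import Pool.Agent.Y699.E.Rec0
import Pool.Agent.Y703.CT.StmB

/-!
# Eisenstein primes: the law of the symbols, and the reduced Laplacian
-/

set_option autoImplicit false
set_option linter.unusedSectionVars false

namespace Pool.Agent.H20PT.Eis

open Filter Topology Finset
open Pool.Agent.Y692.QS (Ei w nr)
open Pool.Agent.Y715.T.Rec (cs nn)
open Pool.Agent.Y715.T.RecG (Pq cs_of)
open Pool.Agent.Y703.CX (LamP)
open Pool.Agent.Y703.CT (Dt pD Ker)
open Pool.Agent.Y699.E (rec_all)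
open Q283.TC (NT FT HH Dat)
open scoped Classical

/-- **The joint law of the symbols of the primary primes.** -/
theorem law (hL : LamP) (P : Finset Ei) (hP : ∀ q ∈ P, Pq q)
    (Q : (P → ZMod 3) × ZMod 3 → Prop) (T : Ei → Prop)
    (hT : ∀ π, Pq π → π ∉ P → (T π ↔ Q (fun q : P => cs π q, cs π w))) :
    Tendsto (fun X : ℕ => (NT T X : ℝ) / (NT (fun _ => True) X : ℝ)) atTop
      (𝓝 ((Nat.card {x : (P → ZMod 3) × ZMod 3 // Q x} : ℝ) / 3 ^ (P.card + 1))) := by
  obtain ⟨L, _, _, _, ⟨E⟩⟩ := exists_dat P
  have h4 : (Nat.card {x : (P → ZMod 3) × ZMod 3 // True} : ℝ) / 3 ^ (P.card + 1) = 1 := by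
    have : Nat.card {x : (P → ZMod 3) × ZMod 3 // True} = 3 ^ (P.card + 1) := by
      rw [Nat.card_congr (Equiv.subtypeUnivEquiv fun _ => trivial), Nat.card_prod,
        Nat.card_fun, Nat.card_zmod, Nat.card_eq_fintype_card, Fintype.card_coe, pow_succ]
    rw [this]
    push_cast
    exact div_self (by positivity)
  have h1 := E.dens hP (fun _ => True) (fun _ => True) (fun _ _ _ => Iff.rfl)
  rw [h4, mul_one] at h1
  have h2 : 2 * (Nat.card (HH E.Z) : ℝ) / (Nat.card Gal(L/ℚ) : ℝ) = 1 := by
    have h5 := dens_of_mean hL (T := fun _ => True) (fun _ _ _ => Iff.rfl) (mean_of_NT h1)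
    simp only [and_true] at h5
    have h6 := tendsto_nhds_unique h5 dens_one_mod_three
    linarith
  rw [h2] at h1
  have h3 := E.dens hP Q T hT
  rw [h2, one_mul] at h3
  have h5 := h3.div h1 one_ne_zero
  rw [div_one] at h5
  refine h5.congr' ?_
  have h6 : ∀ᶠ X : ℕ in atTop, (Nat.primeCounting X : ℝ) ≠ 0 := by
    have := Pool.Agent.W401.Cheb.tendsto_pc.eventually_gt_atTop 0
    filter_upwards [this] with X hX
    exact hX.ne'
  filter_upwards [h6] with X hX
  rw [Pi.div_apply]
  exact div_div_div_cancel_right₀ hX _ _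

/-- the matrix of the factors `F` with the exponents `m` -/
noncomputable def AE (m : Ei → ZMod 3) (F : Finset Ei) (p r : Ei) : ZMod 3 :=
  if p = r then - ∑ s ∈ F.erase p, m s * cs p s else m r * cs p r

theorem AE_row (m : Ei → ZMod 3) (F : Finset Ei) {p : Ei} (hp : p ∈ F) (c : Ei → ZMod 3) :
    ∑ r ∈ F, AE m F p r * c r = ∑ r ∈ F, m r * cs p r * (c r - c p) := by
  rw [← Finset.add_sum_erase _ _ hp, ← Finset.add_sum_erase _ (fun r => m r * cs p r * _) hp]
  have h1 : ∑ r ∈ F.erase p, AE m F p r * c r = ∑ r ∈ F.erase p, m r * cs p r * c r := by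
    refine Finset.sum_congr rfl fun r hr => ?_
    unfold AE
    rw [if_neg (Finset.ne_of_mem_erase hr).symm]
  rw [h1]
  unfold AE
  rw [if_pos rfl, sub_self, mul_zero, zero_add, neg_mul, Finset.sum_mul, ← sub_eq_neg_add,
    ← Finset.sum_sub_distrib]
  exact Finset.sum_congr rfl fun r _ => by ring

/-- the prime of an index -/
def pi' {F : Finset Ei} (π : Ei) : Option F → Ei
  | none => π
  | some p => p

/-- the exponent of an index -/
def ee' {F : Finset Ei} (m : Ei → ZMod 3) (e : ZMod 3) : Option F → ZMod 3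
  | none => e
  | some p => m p

theorem nd_of {π ρ : Ei} (h : Pq π) (h' : Pq ρ) (hne : π ≠ ρ) : ¬ π ∣ ρ :=
  fun hd => hne (Pool.Agent.Y699.E.eq_of_dvd h h' hd)

theorem dt_of' {F : Finset Ei} (hF : ∀ p ∈ F, Pq p) {m : Ei → ZMod 3} (hm : ∀ p ∈ F, m p ≠ 0)
    {e : ZMod 3} (he : e ≠ 0) {π : Ei} (hπ : Pq π) (hπF : π ∉ F) :
    Dt (pi' (F := F) π) (ee' m e) := by
  have hpq : ∀ i : Option F, Pq (pi' π i) := by
    intro i
    cases i with
    | none => exact hπ
    | some p => exact hF p p.2
  refine ⟨hpq, ?_, ?_⟩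
  · intro i j hij
    refine nd_of (hpq j) (hpq i) fun h => hij ?_
    cases i with
    | none =>
      cases j with
      | none => rfl
      | some p =>
        have h' : (p : Ei) = π := h
        exact absurd (h' ▸ p.2) hπF
    | some p =>
      cases j with
      | none =>
        have h' : π = (p : Ei) := h
        exact absurd (h'.symm ▸ p.2) hπF
      | some r => exact congrArg some (Subtype.ext h.symm)
  · intro i
    cases i with
    | none => exact he
    | some p => exact hm p p.2

theorem pD_eq' {F : Finset Ei} (m : Ei → ZMod 3) (e : ZMod 3) (π : Ei) :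
    pD (pi' (F := F) π) (ee' m e) = (∏ p ∈ F, p ^ (m p).val) * π ^ e.val := by
  unfold pD
  rw [Fintype.prod_option, mul_comm]
  congr 1
  exact Finset.prod_coe_sort F (fun p => p ^ (m p).val)

/-- **The reduced Laplacian.** -/
theorem ker_iff {F : Finset Ei} (hF : ∀ p ∈ F, Pq p) {m : Ei → ZMod 3}
    {e : ZMod 3} (he : e ≠ 0) {π : Ei} (hπ : Pq π) (hπF : π ∉ F) :
    Ker (pi' (F := F) π) (ee' m e) ↔ FF.Ns F (AE m F) (fun p => -e * cs p π) := by
  have hsym : ∀ p ∈ F, ∀ r ∈ F, p ≠ r → cs p r = cs r p := by
    intro p hp r hr hne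
    exact rec_all r p (hF r hr) (hF p hp) (nd_of (hF p hp) (hF r hr) hne)
  have hsymπ : ∀ p ∈ F, cs π p = cs p π := by
    intro p hp
    have hne : π ≠ p := fun h => hπF (h ▸ hp)
    exact rec_all p π (hF p hp) hπ (nd_of hπ (hF p hp) hne)
  have h2 : ∀ a : ZMod 3, a = -a → a = 0 := by decide
  constructor
  · intro hk c hc
    have hx := hk (fun i => match i with | none => 0 | some p => c p) (by
      intro i
      rw [Fintype.sum_option]
      cases i with
      | none =>
        simp only [pi', ee', sub_zero, mul_zero, zero_add]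
        rw [Finset.sum_coe_sort F (fun p => m p * cs π p * c p)]
        -- the weighted sum of the rows
        have h3 : ∑ p ∈ F, m p * (∑ r ∈ F, AE m F p r * c r + -e * cs p π * c p) = 0 :=
          Finset.sum_eq_zero fun p hp => by rw [hc p hp, mul_zero]
        have h4 : ∑ p ∈ F, m p * (∑ r ∈ F, AE m F p r * c r + -e * cs p π * c p) =
            ∑ p ∈ F, ∑ r ∈ F, m p * (m r * cs p r * (c r - c p)) -
              e * ∑ p ∈ F, m p * cs π p * c p := by
          rw [Finset.mul_sum, ← Finset.sum_sub_distrib]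
          refine Finset.sum_congr rfl fun p hp => ?_
          rw [AE_row m F hp c, ← hsymπ p hp, mul_add, Finset.mul_sum]
          ring
        have h5 : ∑ p ∈ F, ∑ r ∈ F, m p * (m r * cs p r * (c r - c p)) = 0 := by
          apply h2
          conv_lhs => rw [Finset.sum_comm]
          rw [← Finset.sum_neg_distrib]
          refine Finset.sum_congr rfl fun p hp => ?_
          rw [← Finset.sum_neg_distrib]
          refine Finset.sum_congr rfl fun r hr => ?_
          by_cases hpr : p = r
          · rw [hpr, sub_self, mul_zero, mul_zero, neg_zero]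
          · rw [hsym p hp r hr hpr]
            ring
        rw [h4, h5, zero_sub, neg_eq_zero] at h3
        exact (mul_eq_zero.1 h3).resolve_left he
      | some p =>
        simp only [pi', ee']
        rw [Finset.sum_coe_sort F (fun r => m r * cs p r * (c r - c p)), ← AE_row m F p.2 c]
        have := hc p p.2
        linear_combination this)
    intro p hp
    exact hx (some ⟨p, hp⟩) none
  · intro hn x hx
    set c : Ei → ZMod 3 := fun p => if h : p ∈ F then x (some ⟨p, h⟩) - x none else 0 with hc
    have hcv : ∀ p : F, c p = x (some p) - x none := by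
      intro p
      rw [hc]
      simp only
      rw [dif_pos p.2]
    have h3 := hn c (by
      intro p hp
      have h4 := hx (some ⟨p, hp⟩)
      rw [Fintype.sum_option] at h4
      simp only [pi', ee'] at h4
      rw [AE_row m F hp c, ← h4, ← Finset.sum_coe_sort F (fun r => m r * cs p r * (c r - c p)),
        hcv ⟨p, hp⟩]
      have h5 : ∑ r : F, m r * cs p r * (c r - (x (some ⟨p, hp⟩) - x none)) =
          ∑ r : F, m r * cs p r * (x (some r) - x (some ⟨p, hp⟩)) := by
        refine Finset.sum_congr rfl fun r _ => ?_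
        rw [hcv r]
        ring
      rw [h5]
      ring)
    have h4 : ∀ i : Option F, x i = x none := by
      intro i
      cases i with
      | none => rfl
      | some p =>
        have := h3 p p.2
        rw [hcv p] at this
        exact sub_eq_zero.1 this
    intro i j
    rw [h4 i, h4 j]

end Pool.Agent.H20PT.Eis
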