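import Pool.Agent.H20PT.Eis1
import Pool.Agent.H20PT.DenS
import Pool.Agent.R419.KF.NS

/-!
# Eisenstein integers: the factorization, the classes modulo `9`, and the density of a family
-/

set_option autoImplicit false
set_option linter.unusedSectionVars false

namespace Pool.Agent.H20PT.Eis

open Filter Topology Finset
open Pool.Agent.Y692.QS (Ei w nr nr_mul nr_nonneg)
open Pool.Agent.Y715.T.Rec (cs nn)
open Pool.Agent.Y715.T.RecG (Pq cs_of)
open Pool.Agent.Y703.CX (LamP)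
open Pool.Agent.Y703.CT (Dt pD Ker)
open Pool.Agent.Y699.E (PD mem_PD prm prm_ne_zero)
open Pool.Agent.R419.KF (el ex_pair)
open Q283.TC (NT)
open scoped Classical

/-- primary and cube-free -/
def Bs (D : Ei) : Prop := (3 : Ei) ∣ D - 1 ∧ ∀ x : Ei, x ^ 3 ∣ D → IsUnit x

theorem Bs.ne {D : Ei} (h : Bs D) : D ≠ 0 := prm_ne_zero h.1

theorem fac {D : Ei} (hD : Bs D) :
    (∀ p ∈ PD D, multiplicity p D = 1 ∨ multiplicity p D = 2) ∧
      D = ∏ p ∈ PD D, p ^ multiplicity p D := by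
  obtain ⟨M, S, hS, hM, hel⟩ := ex_pair hD.1 ⟨hD.ne, hD.2⟩
  set k : Ei → ℕ := fun p => if p ∈ M then 2 else 1 with hk
  have hprod : D = ∏ p ∈ S, p ^ k p := by
    rw [hel]
    unfold el
    have h1 : ∏ p ∈ S, p ^ k p = (∏ p ∈ S, p) * ∏ p ∈ S, (if p ∈ M then p else 1) := by
      rw [← Finset.prod_mul_distrib]
      refine Finset.prod_congr rfl fun p _ => ?_
      rw [hk]
      simp only
      split_ifs
      · rw [sq]
      · rw [pow_one, mul_one]
    rw [h1, Finset.prod_ite_mem, Finset.inter_eq_right.2 hM]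
  have hnd : ∀ p ∈ S, ∀ r ∈ S, p ≠ r → ¬ p ∣ r := fun p hp r hr hne => nd_of (hS p hp) (hS r hr) hne
  have hmul : ∀ p ∈ S, multiplicity p D = k p := by
    intro p hp
    have h1 : D = p ^ k p * ∏ r ∈ S.erase p, r ^ k r := by
      rw [hprod, Finset.mul_prod_erase _ (fun r => r ^ k r) hp]
    apply multiplicity_eq_of_dvd_of_not_dvd
    · rw [h1]
      exact dvd_mul_right _ _
    · intro h2
      rw [h1, pow_succ] at h2
      have h3 := (mul_dvd_mul_iff_left (pow_ne_zero _ (hS p hp).prime.ne_zero)).1 h2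
      obtain ⟨r, hr, h4⟩ := ((hS p hp).prime.dvd_finsetProd_iff _).1 h3
      have h5 := (hS p hp).prime.dvd_of_dvd_pow h4
      exact hnd p hp r (Finset.mem_of_mem_erase hr) (Finset.ne_of_mem_erase hr).symm h5
  have hSP : S = PD D := by
    ext p
    rw [mem_PD hD.ne]
    constructor
    · intro hp
      refine ⟨hS p hp, ?_⟩
      rw [hprod]
      refine dvd_trans (dvd_pow_self p ?_) (Finset.dvd_prod_of_mem _ hp)
      rw [hk]
      simp only
      split_ifs <;> omega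
    · rintro ⟨hp, hd⟩
      rw [hprod] at hd
      obtain ⟨r, hr, h4⟩ := (hp.prime.dvd_finsetProd_iff _).1 hd
      have h5 := Pool.Agent.Y699.E.eq_of_dvd hp (hS r hr) (hp.prime.dvd_of_dvd_pow h4)
      rw [h5]
      exact hr
  rw [← hSP]
  refine ⟨fun p hp => ?_, ?_⟩
  · rw [hmul p hp, hk]
    simp only
    split_ifs
    · exact Or.inr rfl
    · exact Or.inl rfl
  · conv_lhs => rw [hprod]
    exact Finset.prod_congr rfl fun p hp => by rw [hmul p hp]

/-- the exponents as elements of `F₃` -/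
noncomputable def mz (D p : Ei) : ZMod 3 := ((multiplicity p D : ℕ) : ZMod 3)

theorem mz_ne {D : Ei} (hD : Bs D) {p : Ei} (hp : p ∈ PD D) : mz D p ≠ 0 := by
  unfold mz
  rcases (fac hD).1 p hp with h | h
  · rw [h]; decide
  · rw [h]; decide

theorem pD_mul {D : Ei} (hD : Bs D) {e : ℕ} (he : e = 1 ∨ e = 2) (π : Ei) :
    pD (pi' (F := PD D) π) (ee' (mz D) (e : ZMod 3)) = D * π ^ e := by
  rw [pD_eq']
  have h1 : ((e : ZMod 3)).val = e := by
    rw [ZMod.val_natCast]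
    omega
  have h2 : ∏ p ∈ PD D, p ^ (mz D p).val = D := by
    conv_rhs => rw [(fac hD).2]
    refine Finset.prod_congr rfl fun p hp => ?_
    congr 1
    unfold mz
    rw [ZMod.val_natCast]
    rcases (fac hD).1 p hp with h | h
    · rw [h]
    · rw [h]
  rw [h1, h2]

theorem dt_mul {D : Ei} (hD : Bs D) {e : ℕ} (he : e = 1 ∨ e = 2) {π : Ei} (hπ : Pq π)
    (hd : ¬ π ∣ D) : Dt (pi' (F := PD D) π) (ee' (mz D) (e : ZMod 3)) := by
  refine dt_of' (fun p hp => ((mem_PD hD.ne).1 hp).1) (fun p hp => mz_ne hD hp) ?_ hπ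
    (fun h => hd ((mem_PD hD.ne).1 h).2)
  rcases he with rfl | rfl
  · decide
  · decide

/-- the class of a primary element modulo `3` -/
theorem nr_three {z : Ei} (h : (3 : Ei) ∣ z - 1) : (3 : ℤ) ∣ nr z - 1 := by
  obtain ⟨x, hx⟩ := h
  have h1 : z = 1 + (x + x + x) := by
    have : z = 1 + 3 * x := by rw [← hx]; ring
    rw [this]
    ring
  have h2 : z.re = 1 + 3 * x.re := by
    rw [h1]
    change (1 : ℤ) + (x.re + x.re + x.re) = _
    ring
  have h3 : z.im = 3 * x.im := by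
    rw [h1]
    change (0 : ℤ) + (x.im + x.im + x.im) = _
    ring
  unfold nr
  rw [h2, h3]
  exact ⟨2 * x.re + 3 * x.re ^ 2 - (1 + 3 * x.re) * x.im + 3 * x.im ^ 2, by ring⟩

theorem cs_w' {π : Ei} (h : Pq π) : cs π w = ((((nr π).natAbs - 1) / 3 : ℕ) : ZMod 3) := by
  apply cs_of h.prime h.norm
  have h1 : nn π = ((nr π).natAbs - 1) / 3 := rfl
  rw [h1, ZMod.val_natCast, ← w_pow_mod, sub_self]
  exact dvd_zero _

/-- the norm modulo `9` -/
theorem nr_nine {π : Ei} (h : Pq π) : nr π ≡ 1 + 3 * ((cs π w).val : ℤ) [ZMOD 9] := by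
  have h1 := nr_three h.three
  have h0 := nr_nonneg π
  rw [cs_w' h, ZMod.val_natCast]
  obtain ⟨n, hn⟩ := Int.eq_ofNat_of_zero_le h0
  rw [hn] at h1 ⊢
  simp only [Int.natAbs_natCast]
  have hpos : 1 ≤ n := by
    by_contra hc
    have : n = 0 := by omega
    rw [this] at h1
    norm_num at h1
  rw [Int.modEq_iff_dvd]
  push_cast
  omega

theorem nine_iff {D π : Ei} (h : Pq π) (e : ℕ) :
    (9 : ℤ) ∣ nr (D * π ^ e) - 1 ↔ (9 : ℤ) ∣ nr D * (1 + 3 * ((cs π w).val : ℤ)) ^ e - 1 := by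
  have h1 : nr (D * π ^ e) = nr D * nr π ^ e := by
    rw [nr_mul]
    congr 1
    induction e with
    | zero => rw [pow_zero, pow_zero, Pool.Agent.Y692.QS.nr_one]
    | succ n ih => rw [pow_succ, nr_mul, ih, pow_succ]
  have h2 : nr (D * π ^ e) ≡ nr D * (1 + 3 * ((cs π w).val : ℤ)) ^ e [ZMOD 9] := by
    rw [h1]
    exact ((nr_nine h).pow e).mul_left _
  have h3 : nr (D * π ^ e) - 1 ≡ nr D * (1 + 3 * ((cs π w).val : ℤ)) ^ e - 1 [ZMOD 9] :=
    h2.sub_right 1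
  rw [Int.dvd_iff_emod_eq_zero, Int.dvd_iff_emod_eq_zero, h3]

/-- the family: a finite set of pairs `(D, e)` -/
structure Fam (P : Finset Ei) (I : Finset (Ei × ℕ)) : Prop where
  base : ∀ i ∈ I, Bs i.1
  exp : ∀ i ∈ I, i.2 = 1 ∨ i.2 = 2
  sub : ∀ i ∈ I, PD i.1 ⊆ P
  pr : ∀ p ∈ P, Pq p

/-- the number of the vectors that are good for all members -/
noncomputable def num (P : Finset Ei) (I : Finset (Ei × ℕ)) : ℕ :=
  (univ.filter fun u : P → ZMod 3 => ∀ i ∈ I,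
    FF.Ns (PD i.1) (AE (mz i.1) (PD i.1)) (fun p => -(i.2 : ZMod 3) * FF.ex u p)).card

/-- the number of the classes without obstruction -/
noncomputable def cls (I : Finset (Ei × ℕ)) : ℕ :=
  Nat.card {t : ZMod 3 // ∀ i ∈ I, ¬ (9 : ℤ) ∣ nr i.1 * (1 + 3 * (t.val : ℤ)) ^ i.2 - 1}

theorem num_ge {P : Finset Ei} {I : Finset (Ei × ℕ)} (h : Fam P I) :
    ∏ p ∈ P, (3 - (I.filter fun i => p ∈ PD i.1).card) ≤ num P I := by
  have h2 := FF.count_all I (fun i => AE (mz i.1) (PD i.1)) (fun i => -(i.2 : ZMod 3)) (by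
    intro i hi
    rcases h.exp i hi with h' | h'
    · rw [h']; decide
    · rw [h']; decide) P (fun i => PD i.1) h.sub
  rw [ZMod.card] at h2
  exact h2

/-- the density, for any predicate `G` that is given by the criterion -/
theorem dens_fam (hL : LamP) {P : Finset Ei} {I : Finset (Ei × ℕ)} (h : Fam P I)
    (G : Ei × ℕ → Ei → Prop) (hG : ∀ i ∈ I, ∀ π, Pq π → ¬ π ∣ i.1 → (G i π ↔
      ¬ (9 : ℤ) ∣ nr (i.1 * π ^ i.2) - 1 ∧
        FF.Ns (PD i.1) (AE (mz i.1) (PD i.1)) (fun p => -(i.2 : ZMod 3) * cs p π))) :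
    Tendsto (fun X : ℕ => (NT (fun π => ∀ i ∈ I, G i π) X : ℝ) / (NT (fun _ => True) X : ℝ)) atTop
      (𝓝 ((cls I : ℝ) / 3 * ((num P I : ℝ) / 3 ^ P.card))) := by
  set Pt : ZMod 3 → Prop := fun t => ∀ i ∈ I,
    ¬ (9 : ℤ) ∣ nr i.1 * (1 + 3 * (t.val : ℤ)) ^ i.2 - 1 with hPt
  set Qt : (P → ZMod 3) → Prop := fun u => ∀ i ∈ I,
    FF.Ns (PD i.1) (AE (mz i.1) (PD i.1)) (fun p => -(i.2 : ZMod 3) * FF.ex u p) with hQt
  have h1 := law hL P h.pr (fun x => Qt x.1 ∧ Pt x.2) (fun π => ∀ i ∈ I, G i π) (by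
    intro π hπ hπP
    simp only
    rw [hQt, hPt]
    simp only
    rw [← forall₂_and]
    refine forall₂_congr fun i hi => ?_
    have hπi : π ∉ PD i.1 := fun h' => hπP (h.sub i hi h')
    have hd : ¬ π ∣ i.1 := fun h' => hπi ((mem_PD (h.base i hi).ne).2 ⟨hπ, h'⟩)
    rw [hG i hi π hπ hd, nine_iff hπ, and_comm]
    refine and_congr_left fun _ => ?_
    have hu : ∀ p ∈ PD i.1, -(i.2 : ZMod 3) * cs p π =
        -(i.2 : ZMod 3) * FF.ex (fun q : P => cs π q) p := by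
      intro p hp
      have hpq := ((mem_PD (h.base i hi).ne).1 hp).1
      have hne : p ≠ π := fun e => hπi (e ▸ hp)
      unfold FF.ex
      rw [dif_pos (h.sub i hi hp),
        Pool.Agent.Y699.E.rec_all π p hπ hpq (nd_of hpq hπ hne)]
    exact ⟨fun h' => h'.congr hu, fun h' => h'.congr fun p hp => (hu p hp).symm⟩)
  have h2 : Nat.card {x : (P → ZMod 3) × ZMod 3 // Qt x.1 ∧ Pt x.2} = num P I * cls I := by
    rw [Nat.card_congr (Equiv.subtypeProdEquivProd (p := Qt) (q := Pt)), Nat.card_prod]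
    congr 1
    rw [Nat.card_eq_fintype_card, Fintype.card_subtype]
    rfl
  rw [h2] at h1
  have h3 : ((num P I * cls I : ℕ) : ℝ) / 3 ^ (P.card + 1) =
      (cls I : ℝ) / 3 * ((num P I : ℝ) / 3 ^ P.card) := by
    push_cast
    rw [pow_succ]
    field_simp
  rw [h3] at h1
  exact h1

/-- one member: two classes -/
theorem cls_one {D : Ei} (hD : Bs D) {e : ℕ} (he : e = 1 ∨ e = 2) : cls {(D, e)} = 2 := by
  unfold cls
  simp only [Finset.mem_singleton, forall_eq]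
  obtain ⟨n, hn⟩ := nr_three hD.1
  have h1 : nr D = 1 + 3 * n := by omega
  rw [h1]
  have key : ∀ m : ZMod 3, ((univ.filter fun t : ZMod 3 =>
      ¬ (9 : ℤ) ∣ (1 + 3 * (m.val : ℤ)) * (1 + 3 * (t.val : ℤ)) ^ 1 - 1).card = 2) ∧
      ((univ.filter fun t : ZMod 3 =>
      ¬ (9 : ℤ) ∣ (1 + 3 * (m.val : ℤ)) * (1 + 3 * (t.val : ℤ)) ^ 2 - 1).card = 2) := by decide
  have h2 : ∀ (t : ZMod 3) (e : ℕ), ((9 : ℤ) ∣ (1 + 3 * n) * (1 + 3 * (t.val : ℤ)) ^ e - 1) ↔
      ((9 : ℤ) ∣ (1 + 3 * (((n : ZMod 3)).val : ℤ)) * (1 + 3 * (t.val : ℤ)) ^ e - 1) := by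
    intro t e
    have h3 : (1 + 3 * n) ≡ (1 + 3 * (((n : ZMod 3)).val : ℤ)) [ZMOD 9] := by
      have h4 : (((n : ZMod 3)).val : ℤ) = n % 3 := by
        rw [ZMod.val_intCast]
        rfl
      rw [h4, Int.modEq_iff_dvd]
      omega
    have h5 := (h3.mul_right ((1 + 3 * (t.val : ℤ)) ^ e)).sub_right 1
    rw [Int.dvd_iff_emod_eq_zero, Int.dvd_iff_emod_eq_zero, h5]
  simp only [h2]
  rw [Nat.card_eq_fintype_card, Fintype.card_subtype]
  rcases he with rfl | rfl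
  · convert (key (n : ZMod 3)).1
  · convert (key (n : ZMod 3)).2

/-- the number of the classes for a family -/
theorem cls_ge {I : Finset (Ei × ℕ)} (hI : ∀ i ∈ I, Bs i.1 ∧ (i.2 = 1 ∨ i.2 = 2)) :
    3 ≤ cls I + I.card := by
  set T : Finset (ZMod 3) := univ.filter fun t => ∀ i ∈ I,
    ¬ (9 : ℤ) ∣ nr i.1 * (1 + 3 * (t.val : ℤ)) ^ i.2 - 1 with hT
  have hTc : cls I = T.card := by
    unfold cls
    rw [Nat.card_eq_fintype_card, Fintype.card_subtype]
  have h1 : (univ : Finset (ZMod 3)) ⊆ T ∪ I.biUnion fun i => univ.filter fun t : ZMod 3 =>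
      (9 : ℤ) ∣ nr i.1 * (1 + 3 * (t.val : ℤ)) ^ i.2 - 1 := by
    intro t _
    rw [Finset.mem_union, hT, Finset.mem_filter, Finset.mem_biUnion]
    by_cases hall : ∀ i ∈ I, ¬ (9 : ℤ) ∣ nr i.1 * (1 + 3 * (t.val : ℤ)) ^ i.2 - 1
    · exact Or.inl ⟨Finset.mem_univ _, hall⟩
    · push Not at hall
      obtain ⟨i, hi, hi2⟩ := hall
      exact Or.inr ⟨i, hi, Finset.mem_filter.2 ⟨Finset.mem_univ _, hi2⟩⟩
  have h2 := Finset.card_le_card h1
  have h3 : (univ : Finset (ZMod 3)).card = 3 := by decide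
  have h4 : (I.biUnion fun i => univ.filter fun t : ZMod 3 =>
      (9 : ℤ) ∣ nr i.1 * (1 + 3 * (t.val : ℤ)) ^ i.2 - 1).card ≤ I.card * 1 := by
    refine Finset.card_biUnion_le_card_mul _ _ _ fun i hi => ?_
    have h5 := cls_one (hI i hi).1 (hI i hi).2
    unfold cls at h5
    simp only [Finset.mem_singleton, forall_eq] at h5
    rw [Nat.card_eq_fintype_card, Fintype.card_subtype] at h5
    have h6 := Finset.card_filter_add_card_filter_not (s := (univ : Finset (ZMod 3)))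
      (fun t => (9 : ℤ) ∣ nr i.1 * (1 + 3 * (t.val : ℤ)) ^ i.2 - 1)
    rw [h3] at h6
    have h7 : ((univ : Finset (ZMod 3)).filter fun t =>
      ¬ (9 : ℤ) ∣ nr i.1 * (1 + 3 * (t.val : ℤ)) ^ i.2 - 1).card = 2 := by convert h5
    omega
  rw [h3] at h2
  have h5 := Finset.card_union_le T (I.biUnion fun i => univ.filter fun t : ZMod 3 =>
      (9 : ℤ) ∣ nr i.1 * (1 + 3 * (t.val : ℤ)) ^ i.2 - 1)
  omega

end Pool.Agent.H20PT.Eis
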