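import Pool.Agent.H20PT.Eis2
import Pool.Agent.R419.KF.Fin3

/-!
# From the Eisenstein integers to the ring of integers of `K = ℚ(ω)`
-/

set_option autoImplicit false
set_option linter.unusedSectionVars false

namespace Pool.Agent.H20PT

open Finset
open scoped Classical

/-- transport of the condition -/
theorem FF.Ns_map {α β : Type*} [DecidableEq α] [DecidableEq β] {k : Type*} [Field k] [Fintype k]
    (f : β → α) (hf : Function.Injective f) (T : Finset β) (S : Finset α)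
    (hS : ∀ a, a ∈ S ↔ ∃ b ∈ T, f b = a) (A : α → α → k) (u : α → k) :
    FF.Ns S A u ↔ FF.Ns T (fun p r => A (f p) (f r)) (fun p => u (f p)) := by
  have hsum : ∀ g : α → k, ∑ a ∈ S, g a = ∑ b ∈ T, g (f b) := by
    intro g
    symm
    refine Finset.sum_bij (fun b _ => f b) ?_ ?_ ?_ ?_
    · intro b hb
      exact (hS _).2 ⟨b, hb, rfl⟩
    · intro b _ b' _ h
      exact hf h
    · intro a ha
      obtain ⟨b, hb, h⟩ := (hS a).1 ha
      exact ⟨b, hb, h⟩
    · intro b _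
      rfl
  constructor
  · intro h c hc
    set d : α → k := fun a => if h : ∃ b, f b = a then c h.choose else 0 with hd
    have hdf : ∀ b, d (f b) = c b := by
      intro b
      have hex : ∃ b', f b' = f b := ⟨b, rfl⟩
      rw [hd]
      simp only
      rw [dif_pos hex]
      congr 1
      exact hf hex.choose_spec
    have h1 := h d (by
      intro a ha
      obtain ⟨b, hb, rfl⟩ := (hS a).1 ha
      rw [hsum (fun r => A (f b) r * d r), hdf b, ← hc b hb]
      congr 1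
      exact Finset.sum_congr rfl fun r _ => by rw [hdf r])
    intro b hb
    rw [← hdf b]
    exact h1 _ ((hS _).2 ⟨b, hb, rfl⟩)
  · intro h c hc a ha
    obtain ⟨b, hb, rfl⟩ := (hS a).1 ha
    refine h (fun b => c (f b)) (fun b hb => ?_) b hb
    rw [← hc (f b) ((hS _).2 ⟨b, hb, rfl⟩), hsum (fun r => A (f b) r * c r)]

namespace Eis

open NumberField Filter Topology
open Pool.Agent.Y692.QS (Ei w nr nr_star star_w)
open Pool.Agent.Y715.T.Rec (cs nn)
open Pool.Agent.Y715.T.RecG (Pq cs_of)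
open Pool.Agent.Y699.E (PD mem_PD prm prm_ne_zero)
open Pool.Agent.Y696.CTK (Tri)
open Q283.TC (NT)

variable {K : Type} [Field K] [NumberField K]

/-- the isomorphism that belongs to `ω` -/
theorem exists_iso [IsCyclotomicExtension {3} ℚ K] {ω : 𝓞 K} (hω : ω ^ 2 + ω + 1 = 0) :
    ∃ j : Ei ≃+* 𝓞 K, (∀ z : Ei, Algebra.norm ℤ (j z) = nr z) ∧ j w = ω := by
  obtain ⟨⟨j, hj⟩, -⟩ := Pool.Agent.Y455.CTK.jex K
  have h1 : j w ^ 2 + j w + 1 = 0 := by
    rw [← map_pow, ← map_one j, ← map_add, ← map_add]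
    have : w ^ 2 + w + 1 = (0 : Ei) := by decide
    rw [this, map_zero]
  have h2 : (ω - j w) * (ω + 1 + j w) = 0 := by linear_combination hω - h1
  rcases mul_eq_zero.1 h2 with h | h
  · exact ⟨j, hj, (sub_eq_zero.1 h).symm⟩
  · refine ⟨(starRingAut : Ei ≃+* Ei).trans j, fun z => ?_, ?_⟩
    · rw [RingEquiv.trans_apply, hj, starRingAut_apply, nr_star]
    · rw [RingEquiv.trans_apply, starRingAut_apply, star_w, map_pow]
      linear_combination h1 - h

/-- a primary prime -/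
def Primary (p : 𝓞 K) : Prop := Prime p ∧ (3 : 𝓞 K) ∣ p - 1

/-- primary and cube-free -/
def BaseK (D : 𝓞 K) : Prop := (3 : 𝓞 K) ∣ D - 1 ∧ ∀ x : 𝓞 K, x ^ 3 ∣ D → IsUnit x

/-- the cubic residue symbol -/
noncomputable def symbol (ω p x : 𝓞 K) : ZMod 3 :=
  if h : ∃ c : ZMod 3, p ∣ x ^ (((Algebra.norm ℤ p).natAbs - 1) / 3) - ω ^ c.val then h.choose else 0

/-- the primary primes that divide `D` -/
noncomputable def divs (D : 𝓞 K) : Finset (𝓞 K) :=
  if h : {p : 𝓞 K | Primary p ∧ p ∣ D}.Finite then h.toFinset else ∅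

variable {j : Ei ≃+* 𝓞 K}

theorem dvd_j {x y : Ei} : j x ∣ j y ↔ x ∣ y := map_dvd_iff j

theorem three_j : j 3 = 3 := map_ofNat j 3

theorem primary_j {z : Ei} : Primary (j z) ↔ Pq z := by
  unfold Primary
  have h1 : Prime (j z) ↔ Prime z := MulEquiv.prime_iff (j : Ei ≃* 𝓞 K)
  rw [h1, ← three_j (j := j), ← map_one j, ← map_sub, dvd_j]
  exact ⟨fun h => ⟨h.1, h.2⟩, fun h => ⟨h.prime, h.three⟩⟩

theorem base_j {z : Ei} : BaseK (j z) ↔ Bs z := by
  unfold BaseK Bs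
  rw [← three_j (j := j), ← map_one j, ← map_sub, dvd_j]
  refine and_congr_right fun _ => ?_
  constructor
  · intro h x hx
    have := h (j x) (by rw [← map_pow, dvd_j]; exact hx)
    exact (MulEquiv.isUnit_map j).1 this
  · intro h x hx
    obtain ⟨y, rfl⟩ := j.surjective x
    rw [← map_pow, dvd_j] at hx
    exact (MulEquiv.isUnit_map j).2 (h y hx)

theorem pick_eq {Q R : ZMod 3 → Prop} (h : Q = R) :
    (if h : ∃ c, Q c then h.choose else (0 : ZMod 3)) = if h : ∃ c, R c then h.choose else 0 := by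
  subst h
  rfl

theorem symbol_j {ω : 𝓞 K} (hj : ∀ z : Ei, Algebra.norm ℤ (j z) = nr z) (hw : j w = ω) (p x : Ei) :
    symbol ω (j p) (j x) = cs p x := by
  unfold symbol cs
  refine pick_eq (funext fun c => propext ?_)
  rw [hj, ← hw, ← map_pow, ← map_pow, ← map_sub, dvd_j]
  rfl

theorem mem_divs_j {D : Ei} (hD : D ≠ 0) (p : 𝓞 K) : p ∈ divs (j D) ↔ ∃ q ∈ PD D, j q = p := by
  have h1 : {p : 𝓞 K | Primary p ∧ p ∣ j D} = ((PD D).image j : Finset (𝓞 K)) := by
    ext p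
    rw [Set.mem_ofPred_eq, Finset.mem_coe, Finset.mem_image]
    constructor
    · rintro ⟨a, b⟩
      obtain ⟨q, rfl⟩ := j.surjective p
      exact ⟨q, (mem_PD hD).2 ⟨primary_j.1 a, dvd_j.1 b⟩, rfl⟩
    · rintro ⟨q, hq, rfl⟩
      obtain ⟨a, b⟩ := (mem_PD hD).1 hq
      exact ⟨primary_j.2 a, dvd_j.2 b⟩
  have h2 : {p : 𝓞 K | Primary p ∧ p ∣ j D}.Finite := by
    rw [h1]
    exact Finset.finite_toSet _
  unfold divs
  rw [dif_pos h2, Set.Finite.mem_toFinset, h1, Finset.mem_coe, Finset.mem_image]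

/-- the Laplacian on `𝓞 K` -/
noncomputable def AK (ω D : 𝓞 K) (p r : 𝓞 K) : ZMod 3 :=
  if p = r then - ∑ s ∈ (divs D).erase p, ((multiplicity s D : ℕ) : ZMod 3) * symbol ω p s
  else ((multiplicity r D : ℕ) : ZMod 3) * symbol ω p r

theorem AK_j {ω : 𝓞 K} (hj : ∀ z : Ei, Algebra.norm ℤ (j z) = nr z) (hw : j w = ω) {D : Ei}
    (hD : D ≠ 0) (p r : Ei) : AK ω (j D) (j p) (j r) = AE (mz D) (PD D) p r := by
  unfold AK AE
  have h1 : ∀ s : Ei, ((multiplicity (j s) (j D) : ℕ) : ZMod 3) = mz D s := by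
    intro s
    unfold mz
    rw [multiplicity_map_eq j]
  by_cases h : p = r
  · rw [if_pos h, if_pos (by rw [h])]
    congr 1
    symm
    refine Finset.sum_bij (fun s _ => j s) ?_ ?_ ?_ ?_
    · intro s hs
      rw [Finset.mem_erase] at hs ⊢
      exact ⟨fun e => hs.1 (j.injective e), (mem_divs_j hD _).2 ⟨s, hs.2, rfl⟩⟩
    · intro s _ t _ e
      exact j.injective e
    · intro s hs
      rw [Finset.mem_erase] at hs
      obtain ⟨q, hq, rfl⟩ := (mem_divs_j hD _).1 hs.2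
      exact ⟨q, Finset.mem_erase.2 ⟨fun e => hs.1 (by rw [e]), hq⟩, rfl⟩
    · intro s _
      rw [h1, symbol_j hj hw]
  · rw [if_neg h, if_neg (fun e => h (j.injective e)), h1, symbol_j hj hw]

theorem Ns_j {ω : 𝓞 K} (hj : ∀ z : Ei, Algebra.norm ℤ (j z) = nr z) (hw : j w = ω) {D : Ei}
    (hD : D ≠ 0) (u : 𝓞 K → ZMod 3) :
    FF.Ns (divs (j D)) (AK ω (j D)) u ↔ FF.Ns (PD D) (AE (mz D) (PD D)) (fun p => u (j p)) := by
  rw [FF.Ns_map j j.injective (PD D) (divs (j D)) (mem_divs_j hD)]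
  have : (fun p r => AK ω (j D) (j p) (j r)) = AE (mz D) (PD D) :=
    funext fun p => funext fun r => AK_j hj hw hD p r
  rw [this]

/-- the criterion -/
theorem tri_crit {D : Ei} (hD : Bs D) {e : ℕ}
    (he : e = 1 ∨ e = 2) {π : Ei} (hπ : Pq π) (hd : ¬ π ∣ D)
    (h9 : ¬ (9 : ℤ) ∣ nr (D * π ^ e) - 1) :
    Tri (j (D * π ^ e)) ↔
      FF.Ns (PD D) (AE (mz D) (PD D)) (fun p => -(e : ZMod 3) * cs p π) := by
  have hdt := dt_mul hD he hπ hd
  have hne : (e : ZMod 3) ≠ 0 := by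
    rcases he with rfl | rfl
    · decide
    · decide
  have h1 := Pool.Agent.R419.KF.tri_iff j Pool.Agent.Y696.CTK.parts hdt (by rw [pD_mul hD he]; exact h9)
  rw [pD_mul hD he] at h1
  rw [h1]
  exact ker_iff (fun p hp => ((mem_PD hD.ne).1 hp).1) hne hπ
    (fun h => hd ((mem_PD hD.ne).1 h).2)

/-- the class of `D π^e` -/
theorem cls_mul (hj : ∀ z : Ei, Algebra.norm ℤ (j z) = nr z) {D : Ei} (hD : Bs D) {e : ℕ}
    (he : e = 1 ∨ e = 2) {π : Ei} (hπ : Pq π) (hd : ¬ π ∣ D)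
    (h9 : ¬ (9 : ℤ) ∣ nr (D * π ^ e) - 1) : Pool.Agent.R419.KF.ClsKC (j (D * π ^ e)) := by
  have hdt := dt_mul hD he hπ hd
  have h3 : (3 : Ei) ∣ D * π ^ e - 1 := by
    have := Pool.Agent.R419.CE.three_pD hdt
    rwa [pD_mul hD he] at this
  have hcf : ∀ x : Ei, x ^ 3 ∣ D * π ^ e → IsUnit x := by
    intro x hx
    by_contra hu
    have hx0 : x ≠ 0 := by
      rintro rfl
      rw [zero_pow three_ne_zero, zero_dvd_iff] at hx
      exact mul_ne_zero hD.ne (pow_ne_zero _ hπ.prime.ne_zero) hx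
    obtain ⟨ρ, hρ, hρx⟩ := WfDvdMonoid.exists_irreducible_factor hu hx0
    have hρ' : Prime ρ := irreducible_iff_prime.1 hρ
    have h4 : ρ ^ 3 ∣ D * π ^ e := (pow_dvd_pow_of_dvd hρx 3).trans hx
    by_cases h5 : ρ ∣ π
    · have h6 : Associated ρ π := hρ'.associated_of_dvd hπ.prime h5
      have h7 : π ^ 3 ∣ D * π ^ e := ((h6.pow_pow (n := 3)).symm.dvd).trans h4
      have h8 : ¬ π ∣ D := hd
      have h9 : IsCoprime (π ^ (3 - e)) D := by
        refine IsCoprime.pow_left ?_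
        exact (hπ.prime.irreducible.coprime_iff_not_dvd).2 h8
      have h10 : π ^ (3 - e) * π ^ e ∣ D * π ^ e := by
        rw [← pow_add]
        have : 3 - e + e = 3 := by omega
        rw [this]
        exact h7
      have h11 := (mul_dvd_mul_iff_right (pow_ne_zero e hπ.prime.ne_zero)).1 h10
      have h12 : π ∣ D := (dvd_pow_self π (by omega : 3 - e ≠ 0)).trans h11
      exact hd h12
    · have h6 : IsCoprime (ρ ^ 3) (π ^ e) := by
        refine IsCoprime.pow ?_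
        exact (hρ'.irreducible.coprime_iff_not_dvd).2 h5
      have h7 : ρ ^ 3 ∣ D := h6.dvd_of_dvd_mul_right h4
      exact hρ'.not_isUnit (hD.2 ρ h7)
  have hb : BaseK (j (D * π ^ e)) := base_j.2 ⟨h3, hcf⟩
  exact ⟨hb.1, hb.2, by rw [hj]; exact h9⟩

end Eis

end Pool.Agent.H20PT
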