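import Pool.Agent.Q283.TC.Main
import Pool.Agent.Q283.TW.Field

/-!
# A Galois extension of the rationals with given cube roots
-/

set_option autoImplicit false
set_option linter.unusedSectionVars false

namespace Pool.Agent.H20PT

open NumberField Polynomial
open Pool.Agent.Y692.QS (Ei w nr hom hom_apply)
open Q283.TC (Dat)

theorem exists_dat (P : Finset Ei) : ∃ (L : Type) (_ : Field L) (_ : NumberField L)
    (_ : IsGalois ℚ L), Nonempty (Dat L P) := by
  classical
  set T : Finset Ei := insert w P with hT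
  set h : ℚ[X] := X ^ 2 + X + 1 with hh
  set g : Ei → ℚ[X] := fun z => X ^ 6 - C ((2 * z.re - z.im : ℤ) : ℚ) * X ^ 3 + C ((nr z : ℤ) : ℚ)
    with hg
  set f : ℚ[X] := h * ∏ z ∈ T, g z with hf
  have hhd : h.natDegree = 2 := by rw [hh]; compute_degree!
  have hgd : ∀ z, (g z).natDegree = 6 := by
    intro z
    rw [hg]
    simp only
    compute_degree!
  have hh0 : h ≠ 0 := by intro h0; rw [h0] at hhd; simp at hhd
  have hg0 : ∀ z, g z ≠ 0 := by intro z h0; have := hgd z; rw [h0] at this; simp at this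
  have hf0 : f ≠ 0 := mul_ne_zero hh0 (Finset.prod_ne_zero_iff.2 fun z _ => hg0 z)
  obtain ⟨L, hL, hN, hG, hsp⟩ := Q283.TW.gen_split_rat f
  refine ⟨L, hL, hN, hG, ?_⟩
  have hfm : f.map (algebraMap ℚ L) ≠ 0 := by
    rwa [Ne, Polynomial.map_eq_zero]
  have key : ∀ k : L[X], k ∣ f.map (algebraMap ℚ L) → k.natDegree ≠ 0 → ∃ x : L, k.eval x = 0 := by
    intro k hk hd
    have h1 := hsp.of_dvd hfm hk
    refine h1.exists_eval_eq_zero ?_
    intro h2
    exact hd (natDegree_eq_of_degree_eq_some h2)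
  obtain ⟨ζ, hζ⟩ := key (h.map (algebraMap ℚ L)) (Polynomial.map_dvd _ (Dvd.intro _ rfl))
    (by rw [natDegree_map, hhd]; norm_num)
  have hζ' : ζ * ζ = -1 - ζ := by
    rw [hh] at hζ
    simp only [Polynomial.map_add, Polynomial.map_pow, Polynomial.map_X, Polynomial.map_one,
      eval_add, eval_pow, eval_X, eval_one] at hζ
    linear_combination hζ
  have hζi : IsIntegral ℤ ζ := by
    refine ⟨X ^ 2 + X + 1, by monicity!, ?_⟩
    simp only [eval₂_add, eval₂_pow, eval₂_X, eval₂_one]
    linear_combination hζ'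
  set Z : 𝓞 L := ⟨ζ, hζi⟩ with hZd
  have hZ : Z * Z = -1 - Z := by
    apply RingOfIntegers.ext
    change (algebraMap (𝓞 L) L) (Z * Z) = (algebraMap (𝓞 L) L) (-1 - Z)
    rw [map_mul, map_sub, map_neg, map_one]
    exact hζ'
  have hs : ∀ z : Ei, ∃ s : 𝓞 L, z ∈ T → s ^ 3 = hom Z hZ z := by
    intro z
    by_cases hz : z ∈ T
    · have h1 : ((g z).map (algebraMap ℚ L)) =
          (X ^ 3 - C (((hom Z hZ z : 𝓞 L) : L))) *
            (X ^ 3 - C (((z.re : ℤ) : L) + ((z.im : ℤ) : L) * (-1 - ζ))) := by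
        have e1 : ((hom Z hZ z : 𝓞 L) : L) = ((z.re : ℤ) : L) + ((z.im : ℤ) : L) * ζ := by
          rw [hom_apply]
          simp [hZd]
        have e2 : (algebraMap ℚ L) ((nr z : ℤ) : ℚ) = (((z.re : ℤ) : L) + ((z.im : ℤ) : L) * ζ) *
            (((z.re : ℤ) : L) + ((z.im : ℤ) : L) * (-1 - ζ)) := by
          rw [map_intCast]
          unfold nr
          push_cast
          linear_combination ((z.im : ℤ) : L) ^ 2 * hζ'
        have e3 : (algebraMap ℚ L) ((2 * z.re - z.im : ℤ) : ℚ) =
            (((z.re : ℤ) : L) + ((z.im : ℤ) : L) * ζ) +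
            (((z.re : ℤ) : L) + ((z.im : ℤ) : L) * (-1 - ζ)) := by
          rw [map_intCast]
          push_cast
          ring
        rw [hg]
        simp only [Polynomial.map_add, Polynomial.map_sub, Polynomial.map_mul, Polynomial.map_pow,
          Polynomial.map_X, Polynomial.map_C]
        rw [e1, e2, e3]
        simp only [C_add, C_mul]
        ring
      obtain ⟨x, hx⟩ := key (X ^ 3 - C (((hom Z hZ z : 𝓞 L) : L))) (by
        refine dvd_trans ?_ (Polynomial.map_dvd _ ((Finset.dvd_prod_of_mem g hz).mul_left h))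
        rw [h1]
        exact Dvd.intro _ rfl) (by rw [natDegree_X_pow_sub_C]; norm_num)
      rw [eval_sub, eval_pow, eval_X, eval_C, sub_eq_zero] at hx
      have hxi : IsIntegral ℤ x := by
        have h2 : IsIntegral ℤ (x ^ 3) := by
          rw [hx]
          exact RingOfIntegers.isIntegral_coe _
        exact IsIntegral.of_pow (by norm_num) h2
      set y : 𝓞 L := ⟨x, hxi⟩ with hy
      refine ⟨y, fun _ => ?_⟩
      apply RingOfIntegers.ext
      change (algebraMap (𝓞 L) L) (y ^ 3) = (algebraMap (𝓞 L) L) (hom Z hZ z)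
      rw [map_pow]
      exact hx
    · exact ⟨0, fun h => absurd h hz⟩
  choose s hs' using hs
  have h1 := hs' w (Finset.mem_insert_self _ _)
  have h2 : ∀ q ∈ P, s q ^ 3 = hom Z hZ q := fun q hq => hs' q (Finset.mem_insert_of_mem hq)
  exact ⟨⟨Z, hZ, s, h1, h2⟩⟩

end Pool.Agent.H20PT
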