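import Pool.Agent.H20PT.Q4F
import Pool.Agent.Q283.TW.Arith
import Pool.Agent.Q283.GA.Frob

/-!
# The joint law of the quadratic symbols and of the quartic symbol of `-7` for the split primes
# `q ≡ 1` modulo `4`
-/

set_option autoImplicit false
set_option linter.unusedSectionVars false

namespace Pool.Agent.H20PT.Q4

open NumberField Filter Topology Finset Pool.Agent.W401.Cheb
open Pool.Agent.H20PT.X49 (nsq qh qh_surj nsq_eq cs vec vec_bij)
open Q283.TW (frob_sqrt ng)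
open Pool.Agent.H20PT.Cls (HD)
open scoped Classical

/-- `1` if `-7` is not a fourth power modulo `p`, and `0` if it is -/
noncomputable def nf (p : ℕ) : ZMod 2 := if ∃ y : ZMod p, y ^ 4 = -7 then 0 else 1

/-- the split primes `1` modulo `4` -/
def Sp (q : ℕ) : Prop := q % 4 = 1 ∧ IsSquare (-7 : ZMod q)

/-- the classes modulo `28` -/
def D28 : Finset (ZMod 28)ˣ := {cs 1 (by norm_num), cs 9 (by norm_num), cs 25 (by norm_num)}

theorem card_D28 : D28.card = 3 := by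
  have h : ∀ a b (ha : Nat.Coprime a 28) (hb : Nat.Coprime b 28), (a : ZMod 28) ≠ (b : ZMod 28) →
      cs a ha ≠ cs b hb := by
    intro a b ha hb hab h
    apply hab
    have := congrArg Units.val h
    simpa [cs] using this
  unfold D28
  rw [Finset.card_insert_of_notMem, Finset.card_insert_of_notMem, Finset.card_singleton]
  · rw [Finset.mem_singleton]
    exact h _ _ _ _ (by decide)
  · rw [Finset.mem_insert, Finset.mem_singleton, not_or]
    exact ⟨h _ _ _ _ (by decide), h _ _ _ _ (by decide)⟩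

theorem mod28s {q : ℕ} (hq : q.Prime) (h7' : q ≠ 7) : Sp q ↔ ∃ c ∈ D28, (q : ZMod 28) = c := by
  have h1 : ∀ k : ℕ, k < 28 → ((q : ZMod 28) = (k : ZMod 28) ↔ q % 28 = k) := by
    intro k hk
    rw [ZMod.natCast_eq_natCast_iff', Nat.mod_eq_of_lt hk]
  have h2 : (∃ c ∈ D28, (q : ZMod 28) = c) ↔ q % 28 = 1 ∨ q % 28 = 9 ∨ q % 28 = 25 := by
    unfold D28
    simp only [Finset.mem_insert, Finset.mem_singleton, exists_eq_or_imp, exists_eq_left, cs,
      ZMod.coe_unitOfCoprime]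
    rw [h1 1 (by norm_num), h1 9 (by norm_num), h1 25 (by norm_num)]
  haveI : Fact q.Prime := ⟨hq⟩
  have h3 : ∀ _h4 : q % 4 = 1, (IsSquare (-7 : ZMod q) ↔ (q % 7 = 1 ∨ q % 7 = 2 ∨ q % 7 = 4)) :=
    fun h4 => Q283.TW.neg7_iff q (by omega) h7'
  rw [h2]
  unfold Sp
  constructor
  · rintro ⟨h4, h7⟩
    rw [h3 h4] at h7
    have e1 : q % 4 = (q % 28) % 4 := by omega
    have e2 : q % 7 = (q % 28) % 7 := by omega
    have e3 : q % 28 < 28 := Nat.mod_lt _ (by norm_num)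
    rw [e1] at h4
    rw [e2] at h7
    generalize q % 28 = r at h4 h7 e3 ⊢
    interval_cases r <;> omega
  · intro h
    have h4 : q % 4 = 1 := by omega
    refine ⟨h4, ?_⟩
    rw [h3 h4]
    omega

variable {P : Finset ℕ}

/-- the law without the quartic symbol -/
theorem law_quad (hP : ∀ p ∈ P, p.Prime ∧ p % 4 = 1) (u : P → ZMod 2) :
    HD (fun q => Sp q ∧ q ∉ P ∧ ∀ p : P, nsq p q = u p) (1 / (4 * 2 ^ P.card)) := by
  have hpr : ∀ p ∈ P, p.Prime := fun p hp => (hP p hp).1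
  have h28 : ∀ p ∈ P, ¬ p ∣ 28 := by
    intro p hp hd
    have h1 := (hP p hp)
    have h2 : p ∣ 2 ^ 2 * 7 := by norm_num; exact hd
    rcases h1.1.dvd_mul.1 h2 with h3 | h3
    · have := h1.1.dvd_of_dvd_pow h3
      have h4 := (Nat.prime_dvd_prime_iff_eq h1.1 Nat.prime_two).1 this
      omega
    · have h4 := (Nat.prime_dvd_prime_iff_eq h1.1 (by norm_num)).1 h3
      omega
  set f : ∀ p : P, (ZMod (p : ℕ))ˣ →* ℤˣ := fun p => qh p (hpr p p.2) with hf
  obtain ⟨v0, hv0⟩ := vec_bij.2 u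
  set T : Finset ((ZMod 28)ˣ × (P → ℤˣ)) := D28 ×ˢ {v0} with hT
  have hd := dist_gen (m := 28) (P := P) (by norm_num) hpr h28 f
    (fun p => qh_surj (hpr p p.2) (by
      intro h
      have := (hP p p.2).2
      omega)) T
  have hlim : (T.card : ℝ) / (((28 : ℕ).totient : ℕ) * Fintype.card ℤˣ ^ P.card) =
      1 / (4 * 2 ^ P.card) := by
    have h1 : (28 : ℕ).totient = 12 := by decide
    have h2 : Fintype.card ℤˣ = 2 := rfl
    rw [hT, Finset.card_product, card_D28, Finset.card_singleton, h1, h2]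
    push_cast
    field_simp
    norm_num
  rw [hlim] at hd
  have hd' : HD (InT f T) (1 / (4 * 2 ^ P.card)) := hd
  clear hd
  refine hd'.congr' 7 (fun q hq7 hq => ?_)
  have hex : ∀ (v : P → ℤˣ), (∀ p : P, ∃ y : (ZMod (p : ℕ))ˣ, (q : ZMod (p : ℕ)) = y ∧ f p y = v p) →
      ∀ p : P, vec v p = nsq p q := by
    intro v hv p
    unfold vec
    obtain ⟨y, hy1, hy2⟩ := hv p
    rw [nsq_eq (hpr p p.2) hy1, ← hy2]
  unfold InT
  constructor
  · rintro ⟨x, hx, h1, h2⟩
    rw [hT, Finset.mem_product, Finset.mem_singleton] at hx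
    refine ⟨(mod28s hq (by omega)).2 ⟨x.1, hx.1, h1⟩, ?_, fun p => ?_⟩
    · intro hqP
      obtain ⟨y, hy1, -⟩ := h2 ⟨q, hqP⟩
      have h3 : ((q : ℕ) : ZMod q) = 0 := ZMod.natCast_self q
      haveI : Fact q.Prime := ⟨hq⟩
      have h4 : ((q : ℕ) : ZMod q) = (y : ZMod q) := hy1
      rw [h3] at h4
      exact y.ne_zero h4.symm
    · rw [← hex x.2 h2 p, hx.2, hv0]
  · rintro ⟨a, c, d⟩
    obtain ⟨w, hw1, hw2⟩ := (mod28s hq (by omega)).1 a
    have hun : ∀ p : P, ∃ y : (ZMod (p : ℕ))ˣ, (q : ZMod (p : ℕ)) = y := by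
      intro p
      have h3 : Nat.Coprime q p := by
        rw [Nat.coprime_primes hq (hpr p p.2)]
        exact fun h => c (h ▸ p.2)
      exact ⟨ZMod.unitOfCoprime q h3, (ZMod.coe_unitOfCoprime q h3).symm⟩
    choose y hy using hun
    have hv : ∀ p : P, ∃ y' : (ZMod (p : ℕ))ˣ, (q : ZMod (p : ℕ)) = y' ∧ f p y' = f p (y p) :=
      fun p => ⟨y p, hy p, rfl⟩
    refine ⟨(w, fun p => f p (y p)), ?_, hw2, hv⟩
    rw [hT, Finset.mem_product, Finset.mem_singleton]
    refine ⟨hw1, ?_⟩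
    apply vec_bij.1
    rw [hv0]
    funext p
    rw [hex _ hv p]
    exact d p

/-- quadratic reciprocity -/
theorem recip {p q : ℕ} (hp : p.Prime) (hq : q.Prime) (h4 : p % 4 = 1) (h2 : q ≠ 2) :
    IsSquare (q : ZMod p) ↔ IsSquare (p : ZMod q) := by
  haveI : Fact p.Prime := ⟨hp⟩
  haveI : Fact q.Prime := ⟨hq⟩
  exact ZMod.exists_sq_eq_prime_iff_of_mod_four_eq_one h4 h2

/-- the law of all the symbols, at one point -/
theorem law_one (hP : ∀ p ∈ P, p.Prime ∧ p % 4 = 1) (u : P → ZMod 2) (w : ZMod 2) :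
    HD (fun q => Sp q ∧ q ∉ P ∧ (∀ p : P, nsq p q = u p) ∧ nf q = w) (1 / (8 * 2 ^ P.card)) := by
  obtain ⟨L, _, _, _, ⟨E⟩⟩ := exists_dat P
  -- the density of each class
  have hcls : ∀ w : ZMod 2, HD (fun q => Sp q ∧ q ∉ P ∧ (∀ p : P, nsq p q = u p) ∧ nf q = w)
      ((Nat.card {g : Gal(L/ℚ) // E.C u w g} : ℝ) / (Nat.card Gal(L/ℚ) : ℝ)) := by
    intro w
    have hP0 : 0 < ∏ p ∈ P, p := Finset.prod_pos fun p hp => (hP p hp).1.pos
    refine Cls.dens_class (E.C u w) _ (14 * ∏ p ∈ P, p) (by positivity) ?_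
    intro q hq hqd φ g hφ
    have hq2 : q ≠ 2 := by
      rintro rfl
      exact hqd (Dvd.dvd.mul_right (by norm_num) _)
    have hq7 : q ≠ 7 := by
      rintro rfl
      exact hqd (Dvd.dvd.mul_right (by norm_num) _)
    have hqP : q ∉ P := fun h => hqd ((Finset.dvd_prod_of_mem (fun x : ℕ => x) h).mul_left _)
    have hqpr := hq.out
    -- the symbols
    have k1 : g • E.Z = E.Z ↔ q % 4 = 1 := Q283.GA.frob_z E.hZ hφ hq2
    have k2 : g • E.A ^ 2 = E.A ^ 2 ↔ IsSquare (-7 : ZMod q) := by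
      have hs : (algebraMap (𝓞 L) L (E.A ^ 2)) ^ 2 = ((-7 : ℤ) : L) := by
        rw [← map_pow, ← pow_mul, E.hA, map_neg, map_ofNat]
        push_cast
        rfl
      have hne : ((-7 : ℤ) : ZMod q) ≠ 0 := by
        push_cast
        rw [neg_ne_zero]
        have : ((7 : ℕ) : ZMod q) ≠ 0 := by
          rw [Ne, ZMod.natCast_eq_zero_iff]
          intro h
          exact hq7 ((Nat.prime_dvd_prime_iff_eq hqpr (by norm_num)).1 h)
        exact_mod_cast this
      have f := frob_sqrt hφ hs hq2 hne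
      push_cast at f
      rw [f]
      constructor
      · intro h
        exact congrArg (algebraMap (𝓞 L) L) h
      · intro h
        exact RingOfIntegers.coe_injective h
    have k3 : ∀ h4 : q % 4 = 1, ∀ p : P, ng g (E.s p) = nsq p q := by
      intro h4 p
      have hpp := hP p p.2
      have hne : (((p : ℕ) : ℤ) : ZMod q) ≠ 0 := by
        rw [Int.cast_natCast, Ne, ZMod.natCast_eq_zero_iff]
        intro h
        have := (Nat.prime_dvd_prime_iff_eq hqpr hpp.1).1 h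
        exact hqP (this ▸ p.2)
      have f := frob_sqrt hφ (E.hs p p.2) hq2 hne
      have hpq : (p : ℕ) ≠ q := fun h => hqP (h ▸ p.2)
      have r := recip hpp.1 hqpr hpp.2 hq2
      rw [Int.cast_natCast, ← r] at f
      unfold ng nsq
      by_cases hc : IsSquare ((q : ℕ) : ZMod p)
      · rw [if_pos (f.1 hc), if_pos hc]
      · rw [if_neg (fun h => hc (f.2 h)), if_neg hc]
    have k4 : ∀ h4 : q % 4 = 1, (if g • E.A = E.A then (0 : ZMod 2) else 1) = nf q := by
      intro h4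
      have f := frob_fourth hφ E.hA E.hZ hq2 hq7 h4
      unfold nf
      by_cases hc : ∃ y : ZMod q, y ^ 4 = -7
      · rw [if_pos (f.2 hc), if_pos hc]
      · rw [if_neg (fun h => hc (f.1 h)), if_neg hc]
    unfold Dat.C Sp
    rw [k1, k2]
    constructor
    · rintro ⟨a1, a2, a3, a4⟩
      refine ⟨⟨a1, a2⟩, hqP, fun p => ?_, ?_⟩
      · rw [← k3 a1 p, a3]
      · rw [← k4 a1, a4]
    · rintro ⟨⟨a1, a2⟩, -, a3, a4⟩
      refine ⟨a1, a2, fun p => ?_, ?_⟩
      · rw [k3 a1 p, a3]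
      · rw [k4 a1, a4]
  -- an automorphism that changes the sign of the square root of `-7`
  obtain ⟨D1, hD1, htor⟩ := torsor L
  obtain ⟨g0, hg1, hg2⟩ : ∃ g0 : Gal(L/ℚ), g0 • E.Z = E.Z ∧ g0 • E.A ^ 2 ≠ E.A ^ 2 := by
    obtain ⟨q, hqB, hq, hqk⟩ := Nat.forall_exists_prime_gt_and_modEq (D1 + 28) (q := 28) (a := 5)
      (by norm_num) (by norm_num)
    haveI : Fact q.Prime := ⟨hq⟩
    have hq28 : q % 28 = 5 := hqk
    have hqD : ¬ q ∣ D1 := fun h => by
      have := Nat.le_of_dvd hD1 h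
      omega
    have ht := htor q hqD
    obtain ⟨φ⟩ := nonempty_hom ht
    obtain ⟨g, hφ⟩ := exists_frob ht φ
    have hq2 : q ≠ 2 := by omega
    have hq7 : q ≠ 7 := by omega
    refine ⟨g, (Q283.GA.frob_z E.hZ hφ hq2).2 (by omega), ?_⟩
    intro h
    have hs : (algebraMap (𝓞 L) L (E.A ^ 2)) ^ 2 = ((-7 : ℤ) : L) := by
      rw [← map_pow, ← pow_mul, E.hA, map_neg, map_ofNat]
      push_cast
      rfl
    have hne : ((-7 : ℤ) : ZMod q) ≠ 0 := by
      push_cast
      rw [neg_ne_zero]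
      have : ((7 : ℕ) : ZMod q) ≠ 0 := by
        rw [Ne, ZMod.natCast_eq_zero_iff]
        intro h
        exact hq7 ((Nat.prime_dvd_prime_iff_eq hq (by norm_num)).1 h)
      exact_mod_cast this
    have f := (frob_sqrt hφ hs hq2 hne).2 (congrArg (algebraMap (𝓞 L) L) h)
    push_cast at f
    rw [Q283.TW.neg7_iff q hq2 hq7] at f
    omega
  have hcard := E.card_C g0 hg1 hg2 u
  -- the sum of the two densities
  have h01 : ∀ x : ZMod 2, x = 0 ∨ x = 1 := by decide
  have heq : ∑ w : ZMod 2, (Nat.card {g : Gal(L/ℚ) // E.C u w g} : ℝ) / (Nat.card Gal(L/ℚ) : ℝ) =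
      1 / (4 * 2 ^ P.card) := by
    have hs := HD.sum (univ : Finset (ZMod 2))
      (fun w q => Sp q ∧ q ∉ P ∧ (∀ p : P, nsq p q = u p) ∧ nf q = w) _ (fun w _ => hcls w)
      (fun i _ j _ hij q h1 h2 => hij (h1.2.2.2.symm.trans h2.2.2.2))
    refine hs.uniq ((law_quad hP u).congr' 0 fun q _ _ => ?_)
    constructor
    · rintro ⟨a, b, c⟩
      exact ⟨nf q, Finset.mem_univ _, a, b, c, rfl⟩
    · rintro ⟨w, -, a, b, c, -⟩
      exact ⟨a, b, c⟩
  have huniv : (univ : Finset (ZMod 2)) = {0, 1} := by decide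
  rw [huniv, Finset.sum_pair (by decide)] at heq
  have hval : ∀ w : ZMod 2, (Nat.card {g : Gal(L/ℚ) // E.C u w g} : ℝ) / (Nat.card Gal(L/ℚ) : ℝ) =
      1 / (8 * 2 ^ P.card) := by
    have e1 : (1 : ℝ) / (8 * 2 ^ P.card) = (1 / (4 * 2 ^ P.card)) / 2 := by
      field_simp
      norm_num
    rw [e1, ← heq, hcard]
    intro w
    rcases h01 w with rfl | rfl
    · rw [hcard]; ring
    · ring
  rw [← hval w]
  exact hcls w

/-- **The law of all the symbols.** -/
theorem law_all (hP : ∀ p ∈ P, p.Prime ∧ p % 4 = 1) (Q : (P → ZMod 2) → ZMod 2 → Prop) :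
    HD (fun q => Sp q ∧ q ∉ P ∧ Q (fun p : P => nsq p q) (nf q))
      ((Nat.card {x : (P → ZMod 2) × ZMod 2 // Q x.1 x.2} : ℝ) / (8 * 2 ^ P.card)) := by
  set F : Finset ((P → ZMod 2) × ZMod 2) := univ.filter fun x => Q x.1 x.2 with hF
  have h1 := HD.sum F (fun x q => Sp q ∧ q ∉ P ∧ (∀ p : P, nsq p q = x.1 p) ∧ nf q = x.2)
    (fun _ => 1 / (8 * 2 ^ P.card)) (fun x _ => law_one hP x.1 x.2) (by
      intro x _ y _ hxy q h1 h2
      apply hxy
      refine Prod.ext (funext fun p => ?_) ?_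
      · rw [← h1.2.2.1 p, h2.2.2.1 p]
      · rw [← h1.2.2.2, h2.2.2.2])
  have h2 : ∑ x ∈ F, (1 : ℝ) / (8 * 2 ^ P.card) =
      (Nat.card {x : (P → ZMod 2) × ZMod 2 // Q x.1 x.2} : ℝ) / (8 * 2 ^ P.card) := by
    rw [Finset.sum_const, nsmul_eq_mul, Nat.card_eq_fintype_card, Fintype.card_subtype, hF,
      mul_one_div]
  rw [h2] at h1
  refine h1.congr' 0 fun q _ _ => ?_
  constructor
  · rintro ⟨x, hx, a, b, c, d⟩
    rw [hF, Finset.mem_filter] at hx
    have e1 : (fun p : P => nsq p q) = x.1 := funext c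
    refine ⟨a, b, ?_⟩
    rw [e1, d]
    exact hx.2
  · rintro ⟨a, b, c⟩
    exact ⟨(fun p : P => nsq p q, nf q), Finset.mem_filter.2 ⟨Finset.mem_univ _, c⟩, a, b,
      fun _ => rfl, rfl⟩

end Pool.Agent.H20PT.Q4
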