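import Mathlib

/-!
# Systems of cubic logarithms
-/

set_option autoImplicit false

namespace Pool.Agent.H20PT

open Finset

/-- `ℓ p` is a cubic logarithm modulo every prime `p ≡ 1` modulo `3`: a homomorphism to `ZMod 3` on the
numbers prime to `p` that vanishes exactly at the cubes modulo `p` -/
structure IsLog (ℓ : ℕ → ℕ → ZMod 3) : Prop where
  mul : ∀ p m n : ℕ, p.Prime → p % 3 = 1 → ¬ p ∣ m → ¬ p ∣ n → ℓ p (m * n) = ℓ p m + ℓ p n
  cube : ∀ p n : ℕ, p.Prime → p % 3 = 1 → ¬ p ∣ n →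
    (ℓ p n = 0 ↔ ∃ x : ℤ, (p : ℤ) ∣ (n : ℤ) - x ^ 3)

variable {ℓ : ℕ → ℕ → ZMod 3}

theorem IsLog.sub_zero_iff (h : IsLog ℓ) {p m n : ℕ} (hp : p.Prime) (h1 : p % 3 = 1) (hm : ¬ p ∣ m)
    (hn : ¬ p ∣ n) : ℓ p m = ℓ p n ↔ ∃ x : ℤ, (p : ℤ) ∣ ((m * n ^ 2 : ℕ) : ℤ) - x ^ 3 := by
  have hn2 : ¬ p ∣ n ^ 2 := fun h' => hn (hp.dvd_of_dvd_pow h')
  have hmn : ¬ p ∣ m * n ^ 2 := fun h' => (hp.dvd_mul.1 h').elim hm hn2
  rw [← h.cube p _ hp h1 hmn, h.mul p m (n ^ 2) hp h1 hm hn2, sq, h.mul p n n hp h1 hn hn]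
  have : ∀ a b : ZMod 3, (a = b ↔ a + (b + b) = 0) := by decide
  exact this _ _

theorem IsLog.congr (h : IsLog ℓ) {p m n : ℕ} (hp : p.Prime) (h1 : p % 3 = 1) (hm : ¬ p ∣ m)
    (hmn : m ≡ n [MOD p]) : ℓ p m = ℓ p n := by
  have hn : ¬ p ∣ n := fun h' => hm ((hmn.dvd_iff (dvd_refl p)).2 h')
  rw [h.sub_zero_iff hp h1 hm hn]
  refine ⟨(n : ℤ), ?_⟩
  have h2 : (m : ℤ) ≡ n [ZMOD p] := (Int.natCast_modEq_iff).2 hmn
  have h3 : (p : ℤ) ∣ (m : ℤ) - n := (Int.modEq_iff_dvd.1 h2.symm)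
  have e : ((m * n ^ 2 : ℕ) : ℤ) - (n : ℤ) ^ 3 = ((m : ℤ) - n) * (n : ℤ) ^ 2 := by
    push_cast
    ring
  rw [e]
  exact h3.mul_right _

/-- there is a number that is not a cube -/
theorem IsLog.exists_ne (h : IsLog ℓ) {p : ℕ} (hp : p.Prime) (h1 : p % 3 = 1) :
    ∃ n : ℕ, ¬ p ∣ n ∧ ℓ p n ≠ 0 := by
  haveI : Fact p.Prime := ⟨hp⟩
  obtain ⟨g, hg⟩ := IsCyclic.exists_generator (α := (ZMod p)ˣ)
  have hcard : Nat.card (ZMod p)ˣ = p - 1 := by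
    rw [Nat.card_eq_fintype_card, ZMod.card_units_eq_totient, Nat.totient_prime hp]
  have hord : orderOf g = p - 1 := by
    rw [← hcard]
    exact orderOf_eq_card_of_forall_mem_zpowers hg
  refine ⟨(g : ZMod p).val, ?_, ?_⟩
  · intro hd
    have h2 : (g : ZMod p) = 0 := by
      rw [← ZMod.natCast_zmod_val (g : ZMod p)]
      exact (ZMod.natCast_eq_zero_iff _ _).2 hd
    exact g.ne_zero h2
  · intro h0
    have hnd : ¬ p ∣ (g : ZMod p).val := by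
      intro hd
      have h2 : (g : ZMod p) = 0 := by
        rw [← ZMod.natCast_zmod_val (g : ZMod p)]
        exact (ZMod.natCast_eq_zero_iff _ _).2 hd
      exact g.ne_zero h2
    obtain ⟨x, hx⟩ := (h.cube p _ hp h1 hnd).1 h0
    have h3 : (g : ZMod p) = (x : ZMod p) ^ 3 := by
      have h4 := (ZMod.intCast_zmod_eq_zero_iff_dvd _ p).2 hx
      push_cast at h4
      rw [ZMod.natCast_zmod_val] at h4
      linear_combination h4
    have hx0 : (x : ZMod p) ≠ 0 := by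
      intro h5
      rw [h5] at h3
      exact g.ne_zero (h3.trans (by ring))
    set y : (ZMod p)ˣ := Units.mk0 (x : ZMod p) hx0 with hy
    have h6 : g = y ^ 3 := by
      ext
      rw [h3, hy]
      simp
    have h7 : g ^ ((p - 1) / 3) = 1 := by
      rw [h6, ← pow_mul]
      have h8 : 3 * ((p - 1) / 3) = p - 1 := by omega
      rw [h8]
      exact ZMod.units_pow_card_sub_one_eq_one p y
    have h9 := orderOf_dvd_of_pow_eq_one h7
    rw [hord] at h9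
    have hp2 := hp.two_le
    have h10 : 0 < (p - 1) / 3 := by omega
    have := Nat.le_of_dvd h10 h9
    omega

theorem IsLog.one (h : IsLog ℓ) {p : ℕ} (hp : p.Prime) (h1 : p % 3 = 1) : ℓ p 1 = 0 := by
  have h2 : ¬ p ∣ 1 := fun hd => hp.one_lt.ne' (Nat.dvd_one.1 hd)
  exact (h.cube p 1 hp h1 h2).2 ⟨1, by norm_num⟩

theorem IsLog.surj (h : IsLog ℓ) {p : ℕ} (hp : p.Prime) (h1 : p % 3 = 1) (a : ZMod 3) :
    ∃ n : ℕ, ¬ p ∣ n ∧ ℓ p n = a := by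
  obtain ⟨n, hn, hn0⟩ := h.exists_ne hp h1
  have h2 : ¬ p ∣ 1 := fun hd => hp.one_lt.ne' (Nat.dvd_one.1 hd)
  have h3 : ¬ p ∣ n * n := fun h' => (hp.dvd_mul.1 h').elim hn hn
  have key : ∀ a b : ZMod 3, b ≠ 0 → a = 0 ∨ a = b ∨ a = b + b := by decide
  rcases key a _ hn0 with h4 | h4 | h4
  · exact ⟨1, h2, by rw [h4, h.one hp h1]⟩
  · exact ⟨n, hn, h4.symm⟩
  · exact ⟨n * n, h3, by rw [h4, h.mul p n n hp h1 hn hn]⟩

/-- two systems of logarithms agree up to a sign -/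
theorem IsLog.unique {ℓ' : ℕ → ℕ → ZMod 3} (h : IsLog ℓ) (h' : IsLog ℓ') {p : ℕ} (hp : p.Prime)
    (h1 : p % 3 = 1) : ∃ ε : ZMod 3, ε ≠ 0 ∧ ∀ n : ℕ, ¬ p ∣ n → ℓ' p n = ε * ℓ p n := by
  obtain ⟨m, hm, hm1⟩ := h.surj hp h1 1
  refine ⟨ℓ' p m, ?_, ?_⟩
  · intro h0
    have h2 := (h.cube p m hp h1 hm).2 ((h'.cube p m hp h1 hm).1 h0)
    rw [hm1] at h2
    exact one_ne_zero h2
  · intro n hn
    have hmm : ¬ p ∣ m * m := fun h' => (hp.dvd_mul.1 h').elim hm hm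
    have h0 : ∀ k : ℕ, ¬ p ∣ k → (ℓ p k = 0 ↔ ℓ' p k = 0) := fun k hk =>
      (h.cube p k hp h1 hk).trans (h'.cube p k hp h1 hk).symm
    have key : ∀ a : ZMod 3, a = 0 ∨ a = 1 ∨ a = 1 + 1 := by decide
    rcases key (ℓ p n) with h2 | h2 | h2
    · rw [h2, (h0 n hn).1 h2, mul_zero]
    · have h3 : ℓ p (n * (m * m)) = 0 := by
        rw [h.mul p n _ hp h1 hn hmm, h.mul p m m hp h1 hm hm, h2, hm1]
        decide
      have h4 := (h0 _ fun hd => (hp.dvd_mul.1 hd).elim hn hmm).1 h3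
      rw [h'.mul p n _ hp h1 hn hmm, h'.mul p m m hp h1 hm hm] at h4
      rw [h2, mul_one]
      have : ∀ a b : ZMod 3, a + (b + b) = 0 → a = b := by decide
      exact this _ _ h4
    · have h3 : ℓ p (n * m) = 0 := by
        rw [h.mul p n _ hp h1 hn hm, h2, hm1]
        decide
      have h4 := (h0 _ fun hd => (hp.dvd_mul.1 hd).elim hn hm).1 h3
      rw [h'.mul p n _ hp h1 hn hm] at h4
      rw [h2]
      have : ∀ a b : ZMod 3, a + b = 0 → a = b * (1 + 1) := by decide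
      exact this _ _ h4

end Pool.Agent.H20PT
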