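import Pool.Agent.H20PT.Chb
import Pool.Agent.H20PT.Log
import Pool.Agent.H20PT.LinF

/-!
# The joint law of the symbols of the rational primes `q ≡ 1` modulo `3`
-/

set_option autoImplicit false
set_option linter.unusedSectionVars false

namespace Pool.Agent.H20PT

open Filter Topology Finset
open Pool.Agent.Y692.QS (Ei w nr mul_star nr_nonneg nr_star star_w)
open Pool.Agent.Y715.T.Rec (cs nn)
open Pool.Agent.Y715.T.RecG (Pq cs_of cs_neg)
open Pool.Agent.Y703.CX (pp lam LamP)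
open Pool.Agent.Y37.CX (QQ pp_facts pq_star cs_star QQ_dvd sep)
open Pool.Agent.W401.Cheb
open Q283.TC (FT)
open scoped Classical

/-- a finite change does not change the mean -/
theorem M_congr {f g : ℕ → ℝ} (B : ℕ) (h : ∀ p : ℕ, B < p → p.Prime → f p = g p) {c : ℝ}
    (hf : Tendsto (M f) atTop (𝓝 c)) : Tendsto (M g) atTop (𝓝 c) := by
  set C : ℝ := ∑ p ∈ range (B + 1), |g p - f p| with hC
  have h0 : Tendsto (fun X : ℕ => C / (Nat.primeCounting X : ℝ)) atTop (𝓝 0) :=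
    tendsto_pc.const_div_atTop _
  have h1 : Tendsto (fun X => M g X - M f X) atTop (𝓝 0) := by
    rw [tendsto_zero_iff_abs_tendsto_zero]
    refine squeeze_zero (fun X => abs_nonneg _) (fun X => ?_) h0
    simp only [Function.comp]
    unfold M
    rw [← sub_div, abs_div, Nat.abs_cast, ← Finset.sum_sub_distrib]
    refine div_le_div_of_nonneg_right ?_ (Nat.cast_nonneg _)
    refine (Finset.abs_sum_le_sum_abs _ _).trans ?_
    have h2 : ∑ p ∈ pr X, |g p - f p| = ∑ p ∈ (pr X).filter (fun p => p ≤ B), |g p - f p| := by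
      rw [Finset.sum_filter]
      refine Finset.sum_congr rfl fun p hp => ?_
      split_ifs with hB
      · rfl
      · rw [h p (by omega) (mem_pr.1 hp).2, sub_self, abs_zero]
    rw [h2]
    refine Finset.sum_le_sum_of_subset_of_nonneg (fun p hp => ?_) fun _ _ _ => abs_nonneg _
    rw [Finset.mem_filter] at hp
    rw [Finset.mem_range]
    omega
  have h3 := h1.add hf
  simpa using h3

/-- the primes `1` modulo `3` in `U` -/
def P1 (U : Finset ℕ) : Finset ℕ := U.filter fun p => p % 3 = 1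

/-- the primary primes over `U` -/
noncomputable def EU (U : Finset ℕ) : Finset Ei := U.biUnion QQ

theorem mem_EU_one {U : Finset ℕ} {p : ℕ} (hp : p ∈ U) (h : p % 3 = 1) : pp p ∈ EU U := by
  unfold EU
  rw [Finset.mem_biUnion]
  refine ⟨p, hp, ?_⟩
  unfold QQ
  rw [if_pos h]
  exact Finset.mem_insert_self _ _

theorem mem_EU_star {U : Finset ℕ} {p : ℕ} (hp : p ∈ U) (h : p % 3 = 1) : star (pp p) ∈ EU U := by
  unfold EU
  rw [Finset.mem_biUnion]
  refine ⟨p, hp, ?_⟩
  unfold QQ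
  rw [if_pos h]
  exact Finset.mem_insert_of_mem (Finset.mem_singleton_self _)

theorem mem_EU_two {U : Finset ℕ} {p : ℕ} (hp : p ∈ U) (h : p % 3 ≠ 1) : (-(p : Ei)) ∈ EU U := by
  unfold EU
  rw [Finset.mem_biUnion]
  refine ⟨p, hp, ?_⟩
  unfold QQ
  rw [if_neg h]
  exact Finset.mem_singleton_self _

/-- the coordinates -/
noncomputable def Phi3 (U : Finset ℕ) (x : (EU U → ZMod 3) × ZMod 3) :
    (P1 U → ZMod 3) × (U → ZMod 3) × ZMod 3 :=
  (fun p => FF.ex x.1 (pp p) - FF.ex x.1 (star (pp p)),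
    fun s => if (s : ℕ) % 3 = 1 then FF.ex x.1 (pp s) + FF.ex x.1 (star (pp s))
      else FF.ex x.1 (-((s : ℕ) : Ei)), x.2)

theorem Phi3_inj (U : Finset ℕ) : Function.Injective (Phi3 U) := by
  rintro ⟨f, t⟩ ⟨g, t'⟩ h
  unfold Phi3 at h
  rw [Prod.mk.injEq, Prod.mk.injEq] at h
  obtain ⟨h1, h2, h3⟩ := h
  simp only at h1 h2 h3
  refine Prod.ext ?_ h3
  funext z
  have key : ∀ z ∈ EU U, FF.ex f z = FF.ex g z := by
    intro z hz
    unfold EU at hz
    rw [Finset.mem_biUnion] at hz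
    obtain ⟨u, hu, hz⟩ := hz
    unfold QQ at hz
    split_ifs at hz with h4
    · have a1 := congrFun h1 ⟨u, Finset.mem_filter.2 ⟨hu, h4⟩⟩
      have a2 := congrFun h2 ⟨u, hu⟩
      simp only [h4, if_true] at a1 a2
      have a3 : ∀ a b c d : ZMod 3, a - b = c - d → a + b = c + d → a = c ∧ b = d := by decide
      obtain ⟨a4, a5⟩ := a3 _ _ _ _ a1 a2
      rw [Finset.mem_insert, Finset.mem_singleton] at hz
      rcases hz with rfl | rfl
      · exact a4
      · exact a5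
    · have a2 := congrFun h2 ⟨u, hu⟩
      simp only [h4, if_false] at a2
      rw [Finset.mem_singleton] at hz
      rw [hz]
      exact a2
  have := key z z.2
  unfold FF.ex at this
  rw [dif_pos z.2, dif_pos z.2] at this
  exact this

theorem card_EU (hL : LamP) {U : Finset ℕ} (hU : ∀ u ∈ U, u.Prime ∧ u ≠ 3) :
    (EU U).card = (P1 U).card + U.card := by
  unfold EU
  rw [Finset.card_biUnion]
  · have : ∀ u ∈ U, (QQ u).card = (if u % 3 = 1 then 1 else 0) + 1 := by
      intro u hu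
      unfold QQ
      split_ifs with h
      · obtain ⟨k1, k2, k3, k4, k5⟩ := pp_facts hL (hU u hu).1 h
        rw [Finset.card_insert_of_notMem, Finset.card_singleton]
        rw [Finset.mem_singleton]
        exact k5
      · rw [Finset.card_singleton]
    rw [Finset.sum_congr rfl this, Finset.sum_add_distrib, ← Finset.card_filter, Finset.sum_const,
      smul_eq_mul, mul_one]
    rfl
  · intro u hu v hv huv
    change Disjoint (QQ u) (QQ v)
    rw [Finset.disjoint_left]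
    intro z h1 h2
    obtain ⟨a1, a2⟩ := QQ_dvd hL (hU u hu).1 (hU u hu).2 z h1
    obtain ⟨-, a4⟩ := QQ_dvd hL (hU v hv).1 (hU v hv).2 z h2
    exact sep a1 (hU u hu).1 (hU v hv).1 huv a2 a4

theorem Phi3_bij (hL : LamP) {U : Finset ℕ} (hU : ∀ u ∈ U, u.Prime ∧ u ≠ 3) :
    Function.Bijective (Phi3 U) := by
  refine (Fintype.bijective_iff_injective_and_card _).2 ⟨Phi3_inj U, ?_⟩
  simp only [Fintype.card_prod, Fintype.card_fun, ZMod.card, Fintype.card_coe]
  rw [card_EU hL hU, pow_add, mul_assoc]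

theorem w_pow_mod (n : ℕ) : (w : Ei) ^ n = w ^ (n % 3) := by
  conv_lhs => rw [← Nat.div_add_mod n 3, pow_add, pow_mul]
  have : (w : Ei) ^ 3 = 1 := by decide
  rw [this, one_pow, one_mul]

theorem cs_w {π : Ei} (h : Pq π) {q : ℕ} (hq : nr π = q) : cs π w = (((q - 1) / 3 : ℕ) : ZMod 3) := by
  apply cs_of h.prime h.norm
  have h1 : nn π = (q - 1) / 3 := by
    unfold nn
    rw [hq]
    rfl
  rw [h1, ZMod.val_natCast, ← w_pow_mod, sub_self]
  exact dvd_zero _

/-- the symbols `ℓ_p(q)` -/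
def sa (ℓ : ℕ → ℕ → ZMod 3) (U : Finset ℕ) (q : ℕ) : P1 U → ZMod 3 := fun p => ℓ p q

/-- the symbols `ℓ_q(s)` -/
def sy (ℓ : ℕ → ℕ → ZMod 3) (U : Finset ℕ) (q : ℕ) : U → ZMod 3 := fun s => ℓ q s

/-- the class modulo `9` -/
def st (q : ℕ) : ZMod 3 := (((q - 1) / 3 : ℕ) : ZMod 3)

/-- the symbols of a prime -/
theorem phi_pp (hL : LamP) {U : Finset ℕ} (hU : ∀ u ∈ U, u.Prime ∧ u ≠ 3) {q : ℕ} (hq : q.Prime)
    (h1 : q % 3 = 1) (hqU : q ∉ U) :
    Phi3 U (fun z => cs (pp q) z, cs (pp q) w) =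
      (sa lam U q, sy lam U q, st q) := by
  obtain ⟨k1, k2, k3, k4, k5⟩ := pp_facts hL hq h1
  obtain ⟨-, hn⟩ := hL.ex q hq h1
  unfold Phi3 sa sy st
  refine Prod.ext ?_ (Prod.ext ?_ (cs_w k1 hn))
  · funext p
    obtain ⟨hpU, hp1⟩ := Finset.mem_filter.1 p.2
    have hne : q ≠ (p : ℕ) := fun e => hqU (e ▸ hpU)
    obtain ⟨r1, r2, -⟩ := hL.rec1 q p hq h1 (hU p hpU).1 hp1 hne
    simp only
    unfold FF.ex
    rw [dif_pos (mem_EU_one hpU hp1), dif_pos (mem_EU_star hpU hp1), r2]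
  · funext s
    have hne : q ≠ (s : ℕ) := fun e => hqU (e ▸ s.2)
    simp only
    split_ifs with hs
    · obtain ⟨r1, r2, -⟩ := hL.rec1 q s hq h1 (hU s s.2).1 hs hne
      unfold FF.ex
      rw [dif_pos (mem_EU_one s.2 hs), dif_pos (mem_EU_star s.2 hs), r1]
    · unfold FF.ex
      rw [dif_pos (mem_EU_two s.2 hs)]
      unfold lam
      exact cs_neg k1.prime k1.norm (sep k1 hq (hU s s.2).1 hne k3)

theorem phi_star (hL : LamP) {U : Finset ℕ} (hU : ∀ u ∈ U, u.Prime ∧ u ≠ 3) {q : ℕ} (hq : q.Prime)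
    (h1 : q % 3 = 1) (hqU : q ∉ U) :
    Phi3 U (fun z => cs (star (pp q)) z, cs (star (pp q)) w) =
      (sa lam U q, - sy lam U q, st q) := by
  obtain ⟨k1, k2, k3, k4, k5⟩ := pp_facts hL hq h1
  obtain ⟨-, hn⟩ := hL.ex q hq h1
  have hst : ∀ z : Ei, ¬ pp q ∣ star z → cs (star (pp q)) z = - cs (pp q) (star z) := by
    intro z hz
    have := cs_star k1 hz
    rwa [star_star] at this
  unfold Phi3 sa sy st
  refine Prod.ext ?_ (Prod.ext ?_ (cs_w k2 (by rw [nr_star, hn])))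
  · funext p
    obtain ⟨hpU, hp1⟩ := Finset.mem_filter.1 p.2
    have hne : q ≠ (p : ℕ) := fun e => hqU (e ▸ hpU)
    obtain ⟨r1, r2, -⟩ := hL.rec1 q p hq h1 (hU p hpU).1 hp1 hne
    obtain ⟨l1, l2, l3, l4, -⟩ := pp_facts hL (hU p hpU).1 hp1
    have d1 : ¬ pp q ∣ ((p : ℕ) : Ei) := sep k1 hq (hU p hpU).1 hne k3
    simp only
    unfold FF.ex
    rw [dif_pos (mem_EU_one hpU hp1), dif_pos (mem_EU_star hpU hp1), r2]
    simp only
    rw [hst _ (fun h => d1 (h.trans l4)),
      hst (star (pp p)) (by rw [star_star]; exact fun h => d1 (h.trans l3)), star_star]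
    ring
  · funext s
    have hne : q ≠ (s : ℕ) := fun e => hqU (e ▸ s.2)
    have d1 : ¬ pp q ∣ ((s : ℕ) : Ei) := sep k1 hq (hU s s.2).1 hne k3
    simp only [Pi.neg_apply]
    split_ifs with hs
    · obtain ⟨r1, r2, -⟩ := hL.rec1 q s hq h1 (hU s s.2).1 hs hne
      obtain ⟨l1, l2, l3, l4, -⟩ := pp_facts hL (hU s s.2).1 hs
      unfold FF.ex
      rw [dif_pos (mem_EU_one s.2 hs), dif_pos (mem_EU_star s.2 hs), r1]
      simp only
      rw [hst _ (fun h => d1 (h.trans l4)),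
        hst (star (pp s)) (by rw [star_star]; exact fun h => d1 (h.trans l3)), star_star]
      ring
    · unfold FF.ex
      rw [dif_pos (mem_EU_two s.2 hs)]
      unfold lam
      have hsn : star (-((s : ℕ) : Ei)) = -((s : ℕ) : Ei) := by rw [star_neg, star_natCast]
      simp only
      rw [hst _ (by rw [hsn, dvd_neg]; exact d1), hsn, cs_neg k1.prime k1.norm d1]


end Pool.Agent.H20PT
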