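import Pool.Agent.H20PT.Log
import Pool.Agent.H20PT.Den

/-!
# The joint distribution of the class modulo `9` and of the cubic logarithms among the primes
-/

set_option autoImplicit false

namespace Pool.Agent.H20PT

open Finset Filter Topology
open scoped Classical

/-- the fibres of a surjective homomorphism -/
theorem card_preimage {G H : Type*} [Group G] [Group H] [Fintype G] [Fintype H] (f : G →* H)
    (hf : Function.Surjective f) (T : Finset H) :
    (univ.filter fun g => f g ∈ T).card * Fintype.card H = T.card * Fintype.card G := by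
  have h1 : ∀ S : Finset H, (univ.filter fun g => f g ∈ S).card =
      S.card * (univ.filter fun g => f g = 1).card := by
    intro S
    rw [Finset.card_eq_sum_card_fiberwise (f := f) (t := S) (by
      intro g hg
      simpa using hg)]
    rw [Finset.sum_const_nat (m := (univ.filter fun g => f g = 1).card)]
    intro y hy
    rw [← MonoidHom.card_fiber_eq_of_mem_range f (hf y) (hf 1)]
    congr 1
    ext g
    simp only [mem_filter, mem_univ, true_and]
    constructor
    · exact fun h => h.2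
    · exact fun h => ⟨h ▸ hy, h⟩
  have h2 : Fintype.card G = Fintype.card H * (univ.filter fun g => f g = 1).card := by
    have := h1 univ
    simpa using this
  rw [h1, h2]
  ring

variable {ℓ : ℕ → ℕ → ZMod 3}

/-- the modulus -/
def md (P : Finset ℕ) : ℕ := 9 * ∏ p ∈ P, p

theorem md_pos {P : Finset ℕ} (hP : ∀ p ∈ P, p.Prime ∧ p % 3 = 1) : md P ≠ 0 := by
  unfold md
  have : 0 < ∏ p ∈ P, p := Finset.prod_pos fun p hp => (hP p hp).1.pos
  omega

theorem nine_dvd (P : Finset ℕ) : 9 ∣ md P := ⟨_, rfl⟩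

theorem p_dvd {P : Finset ℕ} {p : ℕ} (hp : p ∈ P) : p ∣ md P :=
  (Finset.dvd_prod_of_mem _ hp).mul_left _

theorem not_dvd_of_unit {M p : ℕ} [NeZero M] (hp : p.Prime) (hpM : p ∣ M) {x : ZMod M}
    (hx : IsUnit x) : ¬ p ∣ x.val := by
  intro hd
  have h2 : Nat.Coprime x.val M := by
    rw [← ZMod.isUnit_iff_coprime, ZMod.natCast_zmod_val]
    exact hx
  have h3 := Nat.dvd_gcd hd hpM
  rw [h2.gcd_eq_one] at h3
  exact hp.one_lt.ne' (Nat.dvd_one.1 h3)

/-- the logarithm as a homomorphism -/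
noncomputable def lh (h : IsLog ℓ) (P : Finset ℕ) (hP : ∀ p ∈ P, p.Prime ∧ p % 3 = 1) (p : P) :
    (ZMod (md P))ˣ →* Multiplicative (ZMod 3) :=
  haveI : NeZero (md P) := ⟨md_pos hP⟩
  { toFun := fun x => Multiplicative.ofAdd (ℓ p (x : ZMod (md P)).val)
    map_one' := by
      have h1 := hP p p.2
      have h2 : ¬ (p : ℕ) ∣ ((1 : (ZMod (md P))ˣ) : ZMod (md P)).val :=
        not_dvd_of_unit h1.1 (p_dvd p.2) (Units.isUnit 1)
      have h3 : ((1 : (ZMod (md P))ˣ) : ZMod (md P)).val ≡ 1 [MOD md P] := by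
        rw [← ZMod.natCast_eq_natCast_iff, ZMod.natCast_zmod_val]
        simp
      rw [h.congr h1.1 h1.2 h2 (h3.of_dvd (p_dvd p.2)), h.one h1.1 h1.2]
      rfl
    map_mul' := by
      intro x y
      have h1 := hP p p.2
      have hx := not_dvd_of_unit h1.1 (p_dvd p.2) x.isUnit
      have hy := not_dvd_of_unit h1.1 (p_dvd p.2) y.isUnit
      have hxy := not_dvd_of_unit h1.1 (p_dvd p.2) (x * y).isUnit
      have h3 : ((x * y : (ZMod (md P))ˣ) : ZMod (md P)).val ≡
          (x : ZMod (md P)).val * (y : ZMod (md P)).val [MOD md P] := by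
        rw [← ZMod.natCast_eq_natCast_iff, ZMod.natCast_zmod_val]
        push_cast
        rw [ZMod.natCast_zmod_val, ZMod.natCast_zmod_val]
      rw [h.congr h1.1 h1.2 hxy (h3.of_dvd (p_dvd p.2)), h.mul p _ _ h1.1 h1.2 hx hy]
      rfl }

/-- the class modulo `9` and all logarithms -/
noncomputable def Psi (h : IsLog ℓ) (P : Finset ℕ) (hP : ∀ p ∈ P, p.Prime ∧ p % 3 = 1) :
    (ZMod (md P))ˣ →* (ZMod 9)ˣ × (P → Multiplicative (ZMod 3)) :=
  MonoidHom.prod (ZMod.unitsMap (nine_dvd P)) (MonoidHom.pi fun p => lh h P hP p)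

theorem Psi_surj (h : IsLog ℓ) (P : Finset ℕ) (hP : ∀ p ∈ P, p.Prime ∧ p % 3 = 1) :
    Function.Surjective (Psi h P hP) := by
  haveI : NeZero (md P) := ⟨md_pos hP⟩
  rintro ⟨u, v⟩
  have h3P : 3 ∉ P := fun h' => by have := (hP 3 h').2; omega
  -- the residues
  have hex : ∀ p : ℕ, ∃ n : ℕ, ∀ hp : p ∈ P, ¬ p ∣ n ∧ ℓ p n = Multiplicative.toAdd (v ⟨p, hp⟩) := by
    intro p
    by_cases hp : p ∈ P
    · obtain ⟨n, hn⟩ := h.surj (hP p hp).1 (hP p hp).2 (Multiplicative.toAdd (v ⟨p, hp⟩))
      exact ⟨n, fun _ => hn⟩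
    · exact ⟨0, fun h' => absurd h' hp⟩
  choose a ha using hex
  set s : ℕ → ℕ := fun p => if p = 3 then 9 else p with hs
  set b : ℕ → ℕ := fun p => if p = 3 then (u : ZMod 9).val else a p with hb
  have hmem : ∀ p ∈ insert 3 P, p.Prime := by
    intro p hp
    rcases Finset.mem_insert.1 hp with rfl | hp
    · exact Nat.prime_three
    · exact (hP p hp).1
  obtain ⟨k, hk⟩ := Nat.chineseRemainderOfFinset b s (insert 3 P) (by
    intro p hp
    simp only [hs]
    split_ifs
    · norm_num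
    · exact (hmem p hp).ne_zero) (by
    intro p hp q hq hpq
    have hcop : Nat.Coprime p q := (Nat.coprime_primes (hmem p hp) (hmem q hq)).2 hpq
    simp only [Function.onFun, hs]
    split_ifs with e1 e2 e2
    · exact absurd (e1.trans e2.symm) hpq
    · rw [e1] at hcop
      rw [show 9 = 3 ^ 2 by norm_num]
      exact Nat.Coprime.pow_left 2 hcop
    · rw [e2] at hcop
      rw [show 9 = 3 ^ 2 by norm_num]
      exact Nat.Coprime.pow_right 2 hcop
    · exact hcop)
  have hk9 : k ≡ (u : ZMod 9).val [MOD 9] := by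
    have := hk 3 (Finset.mem_insert_self _ _)
    simpa [hs, hb] using this
  have hkp : ∀ p ∈ P, k ≡ a p [MOD p] := by
    intro p hp
    have h4 := hk p (Finset.mem_insert_of_mem hp)
    have h5 : p ≠ 3 := fun e => h3P (e ▸ hp)
    simpa [hs, hb, h5] using h4
  have hk9' : (k : ZMod 9) = u := by
    rw [← ZMod.natCast_zmod_val (u : ZMod 9), ZMod.natCast_eq_natCast_iff]
    exact hk9
  have hkc : Nat.Coprime k (md P) := by
    unfold md
    refine Nat.Coprime.mul_right ?_ (Nat.Coprime.prod_right fun p hp => ?_)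
    · rw [← ZMod.isUnit_iff_coprime, hk9']
      exact u.isUnit
    · rw [Nat.coprime_comm, (hP p hp).1.coprime_iff_not_dvd]
      intro hd
      exact (ha p hp).1 (((hkp p hp).dvd_iff (dvd_refl p)).1 hd)
  refine ⟨ZMod.unitOfCoprime k hkc, Prod.ext ?_ ?_⟩
  · ext
    simp only [Psi, MonoidHom.prod_apply, ZMod.unitsMap_val, ZMod.coe_unitOfCoprime]
    rw [ZMod.cast_natCast (nine_dvd P), hk9']
  · funext p
    have h1 := hP p p.2
    change Multiplicative.ofAdd (ℓ p ((ZMod.unitOfCoprime k hkc : (ZMod (md P))ˣ) :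
      ZMod (md P)).val) = v p
    have h2 : ¬ (p : ℕ) ∣ k := fun hd => (ha p p.2).1 (((hkp p p.2).dvd_iff (dvd_refl _)).1 hd)
    have h3 : k ≡ ((ZMod.unitOfCoprime k hkc : (ZMod (md P))ˣ) : ZMod (md P)).val [MOD md P] := by
      rw [← ZMod.natCast_eq_natCast_iff, ZMod.natCast_zmod_val, ZMod.coe_unitOfCoprime]
    rw [← h.congr h1.1 h1.2 h2 (h3.of_dvd (p_dvd p.2)), h.congr h1.1 h1.2 h2 (hkp p p.2),
      (ha p p.2).2]
    rfl

theorem card_units_nine : Fintype.card (ZMod 9)ˣ = 6 := by
  rw [ZMod.card_units_eq_totient]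
  decide

/-- **The joint distribution.** -/
theorem dist (h : IsLog ℓ) (P : Finset ℕ) (hP : ∀ p ∈ P, p.Prime ∧ p % 3 = 1)
    (T : Finset (ZMod 9 × (P → ZMod 3))) (hT : ∀ x ∈ T, IsUnit x.1) :
    Tendsto (fun X : ℕ => (((Icc 1 X).filter fun q : ℕ => q.Prime ∧ q ∉ P ∧
        (((q : ZMod 9), fun p : P => ℓ p q) : ZMod 9 × (P → ZMod 3)) ∈ T).card : ℝ) /
      (((Icc 1 X).filter fun q : ℕ => q.Prime).card : ℝ)) atTop
      (𝓝 ((T.card : ℝ) / (6 * 3 ^ P.card))) := by
  haveI : NeZero (md P) := ⟨md_pos hP⟩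
  set A : Finset (ZMod (md P)) := univ.filter fun a => IsUnit a ∧
    (((a.cast : ZMod 9), fun p : P => ℓ p a.val) : ZMod 9 × (P → ZMod 3)) ∈ T with hA
  have hd := dens A (fun a ha => (Finset.mem_filter.1 ha).2.1)
  -- the number of the classes
  set j : (ZMod 9)ˣ × (P → Multiplicative (ZMod 3)) → ZMod 9 × (P → ZMod 3) :=
    fun x => ((x.1 : ZMod 9), fun p => Multiplicative.toAdd (x.2 p)) with hj
  have hjinj : Function.Injective j := by
    rintro ⟨u, v⟩ ⟨u', v'⟩ he
    simp only [hj, Prod.mk.injEq] at he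
    refine Prod.ext (Units.ext he.1) (funext fun p => ?_)
    have := congrFun he.2 p
    exact Multiplicative.toAdd.injective this
  set T' : Finset ((ZMod 9)ˣ × (P → Multiplicative (ZMod 3))) := univ.filter fun x => j x ∈ T with hT'
  have hTT : T'.card = T.card := by
    refine Finset.card_bij (fun x _ => j x) ?_ ?_ ?_
    · intro x hx
      exact (Finset.mem_filter.1 hx).2
    · intro x _ y _ he
      exact hjinj he
    · rintro ⟨x, v⟩ hx
      obtain ⟨u, hu⟩ := hT _ hx
      have e : j (u, fun p => Multiplicative.ofAdd (v p)) = (x, v) := by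
        simp only [hj]
        exact Prod.ext hu rfl
      exact ⟨(u, fun p => Multiplicative.ofAdd (v p)), by
        rw [hT', Finset.mem_filter, e]
        exact ⟨Finset.mem_univ _, hx⟩, e⟩
  have hAc : A.card = (univ.filter fun g => Psi h P hP g ∈ T').card := by
    symm
    refine Finset.card_bij (fun x _ => (x : ZMod (md P))) ?_ ?_ ?_
    · intro x hx
      rw [Finset.mem_filter] at hx
      rw [hA, Finset.mem_filter]
      refine ⟨Finset.mem_univ _, x.isUnit, ?_⟩
      exact (Finset.mem_filter.1 hx.2).2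
    · intro x _ y _ he
      exact Units.ext he
    · intro x hx
      rw [hA, Finset.mem_filter] at hx
      obtain ⟨u, rfl⟩ := hx.2.1
      refine ⟨u, ?_, rfl⟩
      rw [Finset.mem_filter]
      refine ⟨Finset.mem_univ _, ?_⟩
      rw [hT', Finset.mem_filter]
      exact ⟨Finset.mem_univ _, hx.2.2⟩
  have hcard : A.card * Fintype.card ((ZMod 9)ˣ × (P → Multiplicative (ZMod 3))) =
      T'.card * Fintype.card (ZMod (md P))ˣ := by
    rw [hAc]
    convert card_preimage (Psi h P hP) (Psi_surj h P hP) T'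
  rw [hTT, Fintype.card_prod, card_units_nine, Fintype.card_fun,
    Fintype.card_multiplicative, ZMod.card, ZMod.card_units_eq_totient, Fintype.card_coe] at hcard
  have hlim : (A.card : ℝ) * (((md P).totient : ℕ) : ℝ)⁻¹ = (T.card : ℝ) / (6 * 3 ^ P.card) := by
    have h1 : (A.card : ℝ) * (6 * 3 ^ P.card) = T.card * ((md P).totient : ℝ) := by
      exact_mod_cast hcard
    have h2 : ((md P).totient : ℝ) ≠ 0 := by
      have : 0 < (md P).totient := Nat.totient_pos.2 (Nat.pos_of_ne_zero (md_pos hP))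
      exact_mod_cast this.ne'
    have h3 : (6 * 3 ^ P.card : ℝ) ≠ 0 := by positivity
    rw [← div_eq_mul_inv, div_eq_div_iff h2 h3]
    exact h1
  rw [hlim] at hd
  refine hd.congr fun X => ?_
  congr 3
  ext q
  simp only [Finset.mem_filter]
  refine and_congr_right fun hq => and_congr_right fun hqp => ?_
  rw [hA, Finset.mem_filter]
  have hcast : ((q : ZMod (md P)).cast : ZMod 9) = (q : ZMod 9) := ZMod.cast_natCast (nine_dvd P) q
  have hval : q ≡ (q : ZMod (md P)).val [MOD md P] := by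
    rw [← ZMod.natCast_eq_natCast_iff, ZMod.natCast_zmod_val]
  rw [hcast]
  have hlog : q ∉ P → (fun p : P => ℓ p (q : ZMod (md P)).val) = fun p : P => ℓ p q := by
    intro hqP
    funext p
    have h1 := hP p p.2
    have h2 : ¬ (p : ℕ) ∣ q := by
      intro h'
      rw [Nat.prime_dvd_prime_iff_eq h1.1 hqp] at h'
      exact hqP (h' ▸ p.2)
    exact (h.congr h1.1 h1.2 h2 (hval.of_dvd (p_dvd p.2))).symm
  constructor
  · rintro ⟨-, hu, ht⟩
    have hqP : q ∉ P := by
      intro hqP
      rw [ZMod.isUnit_iff_coprime] at hu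
      have h3 := Nat.dvd_gcd (dvd_refl q) (p_dvd hqP)
      rw [hu.gcd_eq_one] at h3
      exact hqp.one_lt.ne' (Nat.dvd_one.1 h3)
    rw [hlog hqP] at ht
    exact ⟨hqP, ht⟩
  · rintro ⟨hqP, ht⟩
    refine ⟨Finset.mem_univ _, ?_, ?_⟩
    · rw [ZMod.isUnit_iff_coprime]
      unfold md
      refine Nat.Coprime.mul_right ?_ (Nat.Coprime.prod_right fun p hp => ?_)
      · have h4 := hT _ ht
        exact (ZMod.isUnit_iff_coprime q 9).1 h4
      · rw [Nat.coprime_primes hqp (hP p hp).1]
        exact fun e => hqP (e ▸ hp)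
    · rw [hlog hqP]
      exact ht

end Pool.Agent.H20PT
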