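import Pool.Agent.H20PT.Crit
import Pool.Agent.H20PT.Res
import Pool.Agent.R419.CF.Weak

/-!
# The prime twists of every curve of the family
-/

set_option autoImplicit false

namespace Pool.Agent.H20PT

open Finset Filter Topology
open Pool.Agent.Y703.CT (Cls NoSplit Base Triv3)

/-- bad classes -/
def bad9 (m r e : ℕ) : Bool := m * r ^ e % 9 == 1 || m * r ^ e % 9 == 8
/-- the check -/
def chk9 (m n e₁ e₂ : ℕ) : Bool := (m % 3 != 1) || (n % 3 != 1) || (e₁ == 0) || (e₂ == 0) ||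
    !(bad9 m 2 e₁ || bad9 n 2 e₂) || !(bad9 m 5 e₁ || bad9 n 5 e₂) ||
      !(bad9 m 8 e₁ || bad9 n 8 e₂)
theorem chk_all : ∀ m n : Fin 9, ∀ e₁ e₂ : Fin 3, chk9 m n e₁ e₂ = true := by
  decide

theorem key_nine {m n e₁ e₂ : ℕ} (hm : m < 9) (hn : n < 9) (h1 : e₁ < 3) (h2 : e₂ < 3)
    (m3 : m % 3 = 1) (n3 : n % 3 = 1) (k1 : e₁ ≠ 0) (k2 : e₂ ≠ 0) : ∃ r : ℕ, r % 3 = 2 ∧
    (m * r ^ e₁ % 9 ≠ 1 ∧ m * r ^ e₁ % 9 ≠ 8) ∧ (n * r ^ e₂ % 9 ≠ 1 ∧ n * r ^ e₂ % 9 ≠ 8) := by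
  have h := chk_all ⟨m, hm⟩ ⟨n, hn⟩ ⟨e₁, h1⟩ ⟨e₂, h2⟩
  simp only [chk9, bad9, Bool.or_eq_true, bne_iff_ne, ne_eq, beq_iff_eq, Bool.not_eq_true',
    Bool.or_eq_false_iff, beq_eq_false_iff_ne] at h
  rcases h with (((((h | h) | h) | h) | h) | h) | h
  · exact absurd m3 h
  · exact absurd n3 h
  · exact absurd h k1
  · exact absurd h k2
  · exact ⟨2, by norm_num, h⟩
  · exact ⟨5, by norm_num, h⟩
  · exact ⟨8, by norm_num, h⟩

open scoped Classical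

/-- the good classes and logarithms -/
noncomputable def TT (ℓ : ℕ → ℕ → ZMod 3) (P : Finset ℕ) (I : Finset (ℕ × ℕ)) :
    Finset (ZMod 9 × (P → ZMod 3)) :=
  univ.filter fun x => (x.1 = 2 ∨ x.1 = 5 ∨ x.1 = 8) ∧ ∀ i ∈ I,
    (i.1 : ZMod 9) * x.1 ^ i.2 ≠ 1 ∧ (i.1 : ZMod 9) * x.1 ^ i.2 ≠ 8 ∧
      Ns i.1.primeFactors (AN ℓ i.1) (fun p => -(i.2 : ZMod 3) * ex x.2 p)

theorem mod_three_iff (q : ℕ) : q % 3 = 2 ↔ ((q : ZMod 9) = 2 ∨ (q : ZMod 9) = 5 ∨ (q : ZMod 9) = 8) := by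
  have h : ∀ k : ℕ, k < 9 → ((q : ZMod 9) = (k : ZMod 9) ↔ q % 9 = k) := by
    intro k hk
    rw [ZMod.natCast_eq_natCast_iff']
    rw [Nat.mod_eq_of_lt hk]
  have h2 := h 2 (by norm_num)
  have h5 := h 5 (by norm_num)
  have h8 := h 8 (by norm_num)
  push_cast at h2 h5 h8
  rw [h2, h5, h8]
  omega

theorem mod_nine_iff (N q e k : ℕ) (hk : k < 9) :
    N * q ^ e % 9 = k ↔ (N : ZMod 9) * (q : ZMod 9) ^ e = (k : ZMod 9) := by
  rw [← Nat.cast_pow, ← Nat.cast_mul, ZMod.natCast_eq_natCast_iff', Nat.mod_eq_of_lt hk]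

/-- the conclusion for one number `D` -/
def Good (D : ℕ) : Prop := Triv3 D

theorem filt {ℓ : ℕ → ℕ → ZMod 3} (h : IsLog ℓ) {P : Finset ℕ} (hP : ∀ p ∈ P, p.Prime ∧ p % 3 = 1)
    {I : Finset (ℕ × ℕ)} (hI : ∀ i ∈ I, Spl i.1 ∧ (i.2 = 1 ∨ i.2 = 2) ∧ i.1.primeFactors ⊆ P)
    {q : ℕ} (hq : q.Prime) :
    (q ∉ P ∧ (((q : ZMod 9), fun p : P => ℓ p q) : ZMod 9 × (P → ZMod 3)) ∈ TT ℓ P I) ↔
      (q % 3 = 2 ∧ ∀ i ∈ I, i.1 * q ^ i.2 % 9 ≠ 1 ∧ i.1 * q ^ i.2 % 9 ≠ 8 ∧ Triv3 (i.1 * q ^ i.2)) := by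
  unfold TT
  rw [Finset.mem_filter]
  have hex : ∀ i ∈ I, ∀ p ∈ i.1.primeFactors, ex (fun p : P => ℓ p q) p = ℓ p q := by
    intro i hi p hp
    unfold ex
    rw [dif_pos ((hI i hi).2.2 hp)]
  have hns : ∀ i ∈ I, q % 3 = 2 → i.1 * q ^ i.2 % 9 ≠ 1 → i.1 * q ^ i.2 % 9 ≠ 8 →
      (Ns i.1.primeFactors (AN ℓ i.1) (fun p => -(i.2 : ZMod 3) * ex (fun p : P => ℓ p q) p) ↔
        Triv3 (i.1 * q ^ i.2)) := by
    intro i hi h2 h1 h8
    obtain ⟨hS, he, -⟩ := hI i hi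
    have hC : Cq i.1 i.2 q := ⟨hq, h2, h1, h8⟩
    obtain ⟨-, f, -, -, u, -, -, h3⟩ := Pool.Agent.Y703.CT.fin_all (cls_of hS he hC)
    rw [h3, nosplit_iff h hS he hC]
    constructor
    · exact fun h' => h'.congr fun p hp => by rw [hex i hi p hp]
    · exact fun h' => h'.congr fun p hp => by rw [hex i hi p hp]
  have h18 : ∀ i : ℕ × ℕ, (((i.1 : ZMod 9) * (q : ZMod 9) ^ i.2 ≠ 1) ↔ i.1 * q ^ i.2 % 9 ≠ 1) ∧
      (((i.1 : ZMod 9) * (q : ZMod 9) ^ i.2 ≠ 8) ↔ i.1 * q ^ i.2 % 9 ≠ 8) := by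
    intro i
    have h1 := mod_nine_iff i.1 q i.2 1 (by norm_num)
    have h8 := mod_nine_iff i.1 q i.2 8 (by norm_num)
    push_cast at h1 h8
    exact ⟨not_congr h1.symm, not_congr h8.symm⟩
  constructor
  · rintro ⟨-, -, h2, hall⟩
    have h2' := (mod_three_iff q).2 h2
    refine ⟨h2', fun i hi => ?_⟩
    obtain ⟨a, b, c⟩ := hall i hi
    have a' := (h18 i).1.1 a
    have b' := (h18 i).2.1 b
    exact ⟨a', b', (hns i hi h2' a' b').1 c⟩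
  · rintro ⟨h2, hall⟩
    refine ⟨fun hqP => ?_, Finset.mem_univ _, (mod_three_iff q).1 h2, fun i hi => ?_⟩
    · have := (hP q hqP).2
      omega
    · obtain ⟨a, b, c⟩ := hall i hi
      exact ⟨(h18 i).1.2 a, (h18 i).2.2 b, (hns i hi h2 a b).2 c⟩

theorem unit_of_T {ℓ : ℕ → ℕ → ZMod 3} {P : Finset ℕ} {I : Finset (ℕ × ℕ)}
    (x : ZMod 9 × (P → ZMod 3)) (hx : x ∈ TT ℓ P I) : IsUnit x.1 := by
  have h1 := (Finset.mem_filter.1 hx).2.1
  have h2 : ∀ r : ZMod 9, (r = 2 ∨ r = 5 ∨ r = 8) → ∃ s : ZMod 9, r * s = 1 := by decide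
  obtain ⟨s, hs⟩ := h2 _ h1
  exact IsUnit.of_mul_eq_one s hs

/-- the density for a finite family -/
theorem dens_fam {ℓ : ℕ → ℕ → ZMod 3} (h : IsLog ℓ) {P : Finset ℕ}
    (hP : ∀ p ∈ P, p.Prime ∧ p % 3 = 1) {I : Finset (ℕ × ℕ)}
    (hI : ∀ i ∈ I, Spl i.1 ∧ (i.2 = 1 ∨ i.2 = 2) ∧ i.1.primeFactors ⊆ P) :
    Tendsto (fun X : ℕ => (((Icc 1 X).filter fun q : ℕ => q.Prime ∧ q % 3 = 2 ∧ ∀ i ∈ I,
        i.1 * q ^ i.2 % 9 ≠ 1 ∧ i.1 * q ^ i.2 % 9 ≠ 8 ∧ Triv3 (i.1 * q ^ i.2)).card : ℝ) /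
      (((Icc 1 X).filter fun q : ℕ => q.Prime).card : ℝ)) atTop
      (𝓝 (((TT ℓ P I).card : ℝ) / (6 * 3 ^ P.card))) := by
  refine (dist h P hP (TT ℓ P I) unit_of_T).congr fun X => ?_
  congr 3
  ext q
  simp only [Finset.mem_filter]
  refine and_congr_right fun _ => and_congr_right fun hq => filt h hP hI hq

theorem spl_mod {N : ℕ} (hN : Spl N) : N % 3 = 1 := by
  have h1 : ((N : ℕ) : ZMod 3) = 1 := by
    conv_lhs => rw [← Nat.prod_factorization_pow_eq_self hN.1]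
    rw [Finsupp.prod, Nat.cast_prod]
    refine Finset.prod_eq_one fun p hp => ?_
    rw [Nat.support_factorization] at hp
    have h2 := (hN.pf p hp).2
    have h3 : ((p : ℕ) : ZMod 3) = 1 := by
      have : ((p : ℕ) : ZMod 3) = ((1 : ℕ) : ZMod 3) := by
        rw [ZMod.natCast_eq_natCast_iff']
        omega
      simpa using this
    push_cast
    rw [h3, one_pow]
  have h4 : ((N : ℕ) : ZMod 3) = ((1 : ℕ) : ZMod 3) := by simpa using h1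
  rw [ZMod.natCast_eq_natCast_iff'] at h4
  omega

/-- two curves: there is a common class modulo `9` -/
theorem two_nine {N₁ N₂ e₁ e₂ : ℕ} (h₁ : Spl N₁) (h₂ : Spl N₂) (k₁ : e₁ = 1 ∨ e₁ = 2)
    (k₂ : e₂ = 1 ∨ e₂ = 2) : ∃ r : ℕ, r % 3 = 2 ∧
      (N₁ * r ^ e₁ % 9 ≠ 1 ∧ N₁ * r ^ e₁ % 9 ≠ 8) ∧ (N₂ * r ^ e₂ % 9 ≠ 1 ∧ N₂ * r ^ e₂ % 9 ≠ 8) := by
  have a₁ := spl_mod h₁
  have a₂ := spl_mod h₂
  obtain ⟨r, hr, h⟩ := key_nine (m := N₁ % 9) (n := N₂ % 9) (e₁ := e₁) (e₂ := e₂) (by omega)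
    (by omega) (by omega) (by omega) (by omega) (by omega) (by omega) (by omega)
  refine ⟨r, hr, ?_⟩
  have e1 : ∀ N e : ℕ, N % 9 * r ^ e % 9 = N * r ^ e % 9 := by
    intro N e
    rw [Nat.mul_mod, Nat.mod_mod, ← Nat.mul_mod]
  rwa [e1, e1] at h

/-- the number of the admissible classes modulo `9` -/
def cls (I : Finset (ℕ × ℕ)) : ℕ :=
  (({2, 5, 8} : Finset ℕ).filter fun r => ∀ i ∈ I, i.1 * r ^ i.2 % 9 ≠ 1 ∧ i.1 * r ^ i.2 % 9 ≠ 8).card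

/-- the number of the vectors that are good for all members of the family -/
noncomputable def num (ℓ : ℕ → ℕ → ZMod 3) (P : Finset ℕ) (I : Finset (ℕ × ℕ)) : ℕ :=
  (univ.filter fun u : P → ZMod 3 => ∀ i ∈ I,
    Ns i.1.primeFactors (AN ℓ i.1) (fun p => -(i.2 : ZMod 3) * ex u p)).card

theorem card_TT (ℓ : ℕ → ℕ → ZMod 3) (P : Finset ℕ) (I : Finset (ℕ × ℕ)) :
    (TT ℓ P I).card = cls I * num ℓ P I := by
  set R : Finset (ZMod 9) := univ.filter fun r => (r = 2 ∨ r = 5 ∨ r = 8) ∧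
    ∀ i ∈ I, (i.1 : ZMod 9) * r ^ i.2 ≠ 1 ∧ (i.1 : ZMod 9) * r ^ i.2 ≠ 8 with hR
  have hRc : R.card = cls I := by
    unfold cls
    symm
    refine Finset.card_bij (fun r _ => (r : ZMod 9)) ?_ ?_ ?_
    · intro r hr
      rw [Finset.mem_filter] at hr
      rw [hR, Finset.mem_filter]
      have h3 : r % 3 = 2 := by
        have := hr.1
        simp only [Finset.mem_insert, Finset.mem_singleton] at this
        omega
      refine ⟨Finset.mem_univ _, (mod_three_iff r).1 h3, fun i hi => ?_⟩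
      have h1 := mod_nine_iff i.1 r i.2 1 (by norm_num)
      have h8 := mod_nine_iff i.1 r i.2 8 (by norm_num)
      push_cast at h1 h8
      exact ⟨fun h => (hr.2 i hi).1 (h1.2 h), fun h => (hr.2 i hi).2 (h8.2 h)⟩
    · intro r hr r' hr' h
      rw [Finset.mem_filter] at hr hr'
      rw [ZMod.natCast_eq_natCast_iff'] at h
      have h1 := hr.1
      have h2 := hr'.1
      simp only [Finset.mem_insert, Finset.mem_singleton] at h1 h2
      omega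
    · intro r hr
      rw [hR, Finset.mem_filter] at hr
      have key : ∀ r : ZMod 9, (r = 2 ∨ r = 5 ∨ r = 8) → ((r.val : ℕ) : ZMod 9) = r ∧
          (r.val = 2 ∨ r.val = 5 ∨ r.val = 8) := by decide
      obtain ⟨k1, k2⟩ := key r hr.2.1
      refine ⟨r.val, ?_, k1⟩
      rw [Finset.mem_filter]
      refine ⟨by simpa only [Finset.mem_insert, Finset.mem_singleton] using k2, fun i hi => ?_⟩
      have h1 := mod_nine_iff i.1 r.val i.2 1 (by norm_num)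
      have h8 := mod_nine_iff i.1 r.val i.2 8 (by norm_num)
      rw [k1] at h1 h8
      push_cast at h1 h8
      exact ⟨fun h => (hr.2.2 i hi).1 (h1.1 h), fun h => (hr.2.2 i hi).2 (h8.1 h)⟩
  have hprod : TT ℓ P I = R ×ˢ (univ.filter fun u : P → ZMod 3 => ∀ i ∈ I,
      Ns i.1.primeFactors (AN ℓ i.1) (fun p => -(i.2 : ZMod 3) * ex u p)) := by
    ext ⟨r, v⟩
    unfold TT
    rw [Finset.mem_filter, Finset.mem_product, hR, Finset.mem_filter, Finset.mem_filter]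
    simp only [Finset.mem_univ, true_and]
    constructor
    · rintro ⟨h1, h2⟩
      exact ⟨⟨h1, fun i hi => ⟨(h2 i hi).1, (h2 i hi).2.1⟩⟩, fun i hi => (h2 i hi).2.2⟩
    · rintro ⟨⟨h1, h2⟩, h3⟩
      exact ⟨h1, fun i hi => ⟨(h2 i hi).1, (h2 i hi).2, h3 i hi⟩⟩
  rw [hprod, Finset.card_product, hRc]
  rfl

/-- the lower bound for the number of the good vectors -/
theorem num_ge {ℓ : ℕ → ℕ → ZMod 3} {P : Finset ℕ} {I : Finset (ℕ × ℕ)}
    (hI : ∀ i ∈ I, (i.2 = 1 ∨ i.2 = 2) ∧ i.1.primeFactors ⊆ P) :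
    ∏ p ∈ P, (3 - (I.filter fun i => p ∈ i.1.primeFactors).card) ≤ num ℓ P I :=
  count_all I (fun i => AN ℓ i.1) (fun i => -(i.2 : ZMod 3)) (by
    intro i hi
    rcases (hI i hi).1 with h | h
    · rw [h]; decide
    · rw [h]; decide) P (fun i => i.1.primeFactors) (fun i hi => (hI i hi).2)

/-- one curve: two classes modulo `9` -/
theorem cls_one {N e : ℕ} (h : Spl N) (k : e = 1 ∨ e = 2) : cls {(N, e)} = 2 := by
  have a := spl_mod h
  unfold cls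
  simp only [Finset.mem_singleton, forall_eq]
  have e1 : ∀ r e : ℕ, N * r ^ e % 9 = (N % 9) * (r ^ e % 9) % 9 := fun r e => Nat.mul_mod _ _ _
  have key : ∀ m : Fin 9, m.val % 3 = 1 →
      (({2, 5, 8} : Finset ℕ).filter fun r => m.val * (r ^ 1 % 9) % 9 ≠ 1 ∧
        m.val * (r ^ 1 % 9) % 9 ≠ 8).card = 2 ∧
      (({2, 5, 8} : Finset ℕ).filter fun r => m.val * (r ^ 2 % 9) % 9 ≠ 1 ∧
        m.val * (r ^ 2 % 9) % 9 ≠ 8).card = 2 := by decide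
  have h2 := key ⟨N % 9, Nat.mod_lt _ (by norm_num)⟩ (by simp only []; omega)
  simp only [e1]
  rcases k with rfl | rfl
  · convert h2.1
  · convert h2.2

/-- at most two curves: there is a class modulo `9` -/
theorem cls_two {I : Finset (ℕ × ℕ)} (hI : ∀ i ∈ I, Spl i.1 ∧ (i.2 = 1 ∨ i.2 = 2))
    (h2 : I.card ≤ 2) : 1 ≤ cls I := by
  have hex : ∃ r : ℕ, r % 3 = 2 ∧ ∀ i ∈ I, i.1 * r ^ i.2 % 9 ≠ 1 ∧ i.1 * r ^ i.2 % 9 ≠ 8 := by
    rcases Nat.lt_or_ge I.card 2 with hlt | hge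
    · rcases Nat.eq_zero_or_pos I.card with h0 | hpos
      · rw [Finset.card_eq_zero] at h0
        exact ⟨2, by norm_num, fun i hi => by rw [h0] at hi; exact absurd hi (Finset.notMem_empty _)⟩
      · have h1 : I.card = 1 := by omega
        obtain ⟨i, rfl⟩ := Finset.card_eq_one.1 h1
        obtain ⟨a, b⟩ := hI i (Finset.mem_singleton_self _)
        obtain ⟨r, hr, hr1, -⟩ := two_nine a a b b
        refine ⟨r, hr, fun j hj => ?_⟩
        rw [Finset.mem_singleton] at hj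
        rw [hj]
        exact hr1
    · have h1 : I.card = 2 := by omega
      obtain ⟨i, j, hij, rfl⟩ := Finset.card_eq_two.1 h1
      obtain ⟨a, b⟩ := hI i (Finset.mem_insert_self _ _)
      obtain ⟨c, d⟩ := hI j (Finset.mem_insert_of_mem (Finset.mem_singleton_self _))
      obtain ⟨r, hr, hr1, hr2⟩ := two_nine a c b d
      refine ⟨r, hr, fun k hk => ?_⟩
      rw [Finset.mem_insert, Finset.mem_singleton] at hk
      rcases hk with rfl | rfl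
      · exact hr1
      · exact hr2
  obtain ⟨r, hr, h⟩ := hex
  unfold cls
  rw [Nat.succ_le_iff, Finset.card_pos]
  refine ⟨r % 9, ?_⟩
  rw [Finset.mem_filter]
  constructor
  · simp only [Finset.mem_insert, Finset.mem_singleton]
    omega
  · intro i hi
    have e1 : i.1 * (r % 9) ^ i.2 % 9 = i.1 * r ^ i.2 % 9 := by
      rw [Nat.mul_mod, Nat.pow_mod, Nat.mod_mod, ← Nat.pow_mod, ← Nat.mul_mod]
    rw [e1]
    exact h i hi

end Pool.Agent.H20PT
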