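import Pool.Agent.H20PT.Gen
import Pool.Agent.H20PT.LinF
import Pool.Agent.R428.Q0.Cls

/-!
# The prime twists of the twists of `X_0(49)`: linear algebra and densities
-/

set_option autoImplicit false

namespace Pool.Agent.H20PT.X49

open Finset Filter Topology
open Pool.Agent.H20PT.FF
open scoped Classical

theorem Ns_coe {k : Type*} [Field k] [Fintype k] (S : Finset ℕ) (A : ℕ → ℕ → k) (u : ℕ → k) :
    Ns S A u ↔ Ns (univ : Finset S) (fun p r => A p r) (fun p => u p) := by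
  unfold Ns
  constructor
  · intro h c hc p _
    have h1 := h (fun n => if hn : n ∈ S then c ⟨n, hn⟩ else 0) (by
      intro i hi
      have h2 := hc ⟨i, hi⟩ (Finset.mem_univ _)
      rw [dif_pos hi]
      rw [← h2]
      congr 1
      rw [← Finset.sum_coe_sort S]
      refine Finset.sum_congr rfl fun r _ => ?_
      rw [dif_pos r.2])
    have h3 := h1 p p.2
    rw [dif_pos p.2] at h3
    exact h3
  · intro h c hc p hp
    refine h (fun r => c r) (fun i _ => ?_) ⟨p, hp⟩ (Finset.mem_univ _)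
    rw [← hc i i.2]
    congr 1
    exact Finset.sum_coe_sort S fun r => A i r * c r

/-- `1` if `m` is not a square modulo `p`, and `0` if it is -/
noncomputable def nsq (p m : ℕ) : ZMod 2 := if IsSquare (m : ZMod p) then 0 else 1

/-- the quadratic character modulo `p` -/
noncomputable def qh (p : ℕ) (hp : p.Prime) : (ZMod p)ˣ →* ℤˣ :=
  haveI : Fact p.Prime := ⟨hp⟩
  (quadraticChar (ZMod p)).toUnitHom

theorem qh_one_iff {p : ℕ} (hp : p.Prime) (y : (ZMod p)ˣ) :
    qh p hp y = 1 ↔ IsSquare (y : ZMod p) := by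
  haveI : Fact p.Prime := ⟨hp⟩
  have h1 : ((qh p hp y : ℤˣ) : ℤ) = quadraticChar (ZMod p) (y : ZMod p) := by
    unfold qh
    rw [MulChar.coe_toUnitHom]
  rw [← Units.val_inj, h1, Units.val_one, quadraticChar_one_iff_isSquare y.ne_zero]

theorem qh_surj {p : ℕ} (hp : p.Prime) (h2 : p ≠ 2) : Function.Surjective (qh p hp) := by
  haveI : Fact p.Prime := ⟨hp⟩
  intro s
  rcases Int.units_eq_one_or s with rfl | rfl
  · exact ⟨1, map_one _⟩
  · have hc : ringChar (ZMod p) ≠ 2 := by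
      rw [ZMod.ringChar_zmod_n]
      exact h2
    obtain ⟨a, ha⟩ := quadraticChar_exists_neg_one' hc
    refine ⟨a, ?_⟩
    have h1 : ((qh p hp a : ℤˣ) : ℤ) = quadraticChar (ZMod p) (a : ZMod p) := by
      unfold qh
      rw [MulChar.coe_toUnitHom]
    apply Units.ext
    rw [h1, ha]
    rfl

theorem nsq_eq {p q : ℕ} (hp : p.Prime) {y : (ZMod p)ˣ} (hy : (q : ZMod p) = y) :
    nsq p q = if qh p hp y = 1 then 0 else 1 := by
  unfold nsq
  rw [hy]
  simp only [qh_one_iff]

/-- the three classes modulo `28` -/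
def cs (c : ℕ) (hc : Nat.Coprime c 28) : (ZMod 28)ˣ := ZMod.unitOfCoprime c hc

/-- the classes -/
def C28 : Finset (ZMod 28)ˣ := {cs 5 (by norm_num), cs 13 (by norm_num), cs 17 (by norm_num)}

theorem card_C28 : C28.card = 3 := by
  have h : ∀ a b (ha : Nat.Coprime a 28) (hb : Nat.Coprime b 28), (a : ZMod 28) ≠ (b : ZMod 28) →
      cs a ha ≠ cs b hb := by
    intro a b ha hb hab h
    apply hab
    have := congrArg Units.val h
    simpa [cs] using this
  unfold C28
  rw [Finset.card_insert_of_notMem, Finset.card_insert_of_notMem, Finset.card_singleton]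
  · rw [Finset.mem_singleton]
    exact h _ _ _ _ (by decide)
  · rw [Finset.mem_insert, Finset.mem_singleton, not_or]
    exact ⟨h _ _ _ _ (by decide), h _ _ _ _ (by decide)⟩

theorem mod28 {q : ℕ} (hq : q.Prime) : (q % 4 = 1 ∧ ¬ IsSquare (-7 : ZMod q)) ↔
    ∃ c ∈ C28, (q : ZMod 28) = c := by
  have h1 : ∀ k : ℕ, k < 28 → ((q : ZMod 28) = (k : ZMod 28) ↔ q % 28 = k) := by
    intro k hk
    rw [ZMod.natCast_eq_natCast_iff', Nat.mod_eq_of_lt hk]
  have h2 : (∃ c ∈ C28, (q : ZMod 28) = c) ↔ q % 28 = 5 ∨ q % 28 = 13 ∨ q % 28 = 17 := by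
    unfold C28
    simp only [Finset.mem_insert, Finset.mem_singleton, exists_eq_or_imp, exists_eq_left, cs,
      ZMod.coe_unitOfCoprime]
    rw [h1 5 (by norm_num), h1 13 (by norm_num), h1 17 (by norm_num)]
  rw [h2]
  constructor
  · rintro ⟨h4, h7⟩
    rw [Pool.Agent.R428.Q0.sq7_iff hq h4] at h7
    have h70 : q % 7 ≠ 0 := by
      intro h0
      have h8 : 7 ∣ q := Nat.dvd_of_mod_eq_zero h0
      rcases (Nat.dvd_prime hq).1 h8 with h9 | h9
      · norm_num at h9
      · omega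
    have e1 : q % 4 = (q % 28) % 4 := by omega
    have e2 : q % 7 = (q % 28) % 7 := by omega
    have e3 : q % 28 < 28 := Nat.mod_lt _ (by norm_num)
    rw [e1] at h4
    rw [e2] at h7 h70
    generalize q % 28 = r at h4 h7 h70 e3 ⊢
    interval_cases r <;> omega
  · intro h
    have h4 : q % 4 = 1 := by omega
    refine ⟨h4, ?_⟩
    rw [Pool.Agent.R428.Q0.sq7_iff hq h4]
    omega

variable {P : Finset ℕ} {ι : Type*}

/-- the vector of a family of signs -/
noncomputable def vec (v : P → ℤˣ) : P → ZMod 2 := fun p => if v p = 1 then 0 else 1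

/-- the good classes and symbols -/
noncomputable def TT (P : Finset ℕ) (I : Finset ι) (A : ι → ℕ → ℕ → ZMod 2) (F : ι → Finset ℕ) :
    Finset ((ZMod 28)ˣ × (P → ℤˣ)) :=
  C28 ×ˢ (univ.filter fun v => ∀ i ∈ I, Ns (F i) (A i) (ex (vec v)))

/-- the number of the good vectors -/
noncomputable def num (P : Finset ℕ) (I : Finset ι) (A : ι → ℕ → ℕ → ZMod 2) (F : ι → Finset ℕ) : ℕ :=
  (univ.filter fun u : P → ZMod 2 => ∀ i ∈ I, Ns (F i) (A i) (ex u)).card

theorem vec_bij : Function.Bijective (vec : (P → ℤˣ) → (P → ZMod 2)) := by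
  constructor
  · intro v w h
    funext p
    have h1 := congrFun h p
    unfold vec at h1
    rcases Int.units_eq_one_or (v p) with a | a <;> rcases Int.units_eq_one_or (w p) with b | b
    · rw [a, b]
    · rw [a, b] at h1
      exact absurd h1 (by decide)
    · rw [a, b] at h1
      exact absurd h1 (by decide)
    · rw [a, b]
  · intro u
    refine ⟨fun p => if u p = 0 then 1 else -1, funext fun p => ?_⟩
    unfold vec
    have h01 : ∀ x : ZMod 2, x = 0 ∨ x = 1 := by decide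
    rcases h01 (u p) with h | h
    · simp [h]
    · simp [h]

theorem card_TT (I : Finset ι) (A : ι → ℕ → ℕ → ZMod 2) (F : ι → Finset ℕ) :
    (TT P I A F).card = 3 * num P I A F := by
  unfold TT num
  rw [Finset.card_product, card_C28]
  congr 1
  refine Finset.card_bij (fun v _ => vec v) ?_ ?_ ?_
  · intro v hv
    rw [Finset.mem_filter] at hv ⊢
    exact ⟨Finset.mem_univ _, hv.2⟩
  · intro v _ w _ h
    exact vec_bij.1 h
  · intro u hu
    obtain ⟨v, rfl⟩ := vec_bij.2 u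
    rw [Finset.mem_filter] at hu
    exact ⟨v, Finset.mem_filter.2 ⟨Finset.mem_univ _, hu.2⟩, rfl⟩

theorem num_ge (I : Finset ι) (A : ι → ℕ → ℕ → ZMod 2) (F : ι → Finset ℕ) (hF : ∀ i ∈ I, F i ⊆ P) :
    ∏ p ∈ P, (2 - (I.filter fun i => p ∈ F i).card) ≤ num P I A F := by
  have h := count_all I A (fun _ => (1 : ZMod 2)) (fun _ _ => one_ne_zero) P F hF
  rw [ZMod.card] at h
  refine h.trans (le_of_eq ?_)
  unfold num
  congr 1
  refine Finset.filter_congr fun u _ => forall₂_congr fun i hi => ?_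
  simp only [one_mul]

/-- **The density.** -/
theorem dens_fam (hP : ∀ p ∈ P, p.Prime ∧ p % 4 = 1) (I : Finset ι)
    (A : ι → ℕ → ℕ → ZMod 2) (F : ι → Finset ℕ) (hF : ∀ i ∈ I, F i ⊆ P) :
    Tendsto (fun X : ℕ => (((Icc 1 X).filter fun q : ℕ => q.Prime ∧ (q % 4 = 1 ∧
        ¬ IsSquare (-7 : ZMod q) ∧ q ∉ P ∧ ∀ i ∈ I, Ns (F i) (A i) (fun p => nsq p q))).card : ℝ) /
      (((Icc 1 X).filter fun q : ℕ => q.Prime).card : ℝ)) atTop
      (𝓝 ((num P I A F : ℝ) / (4 * 2 ^ P.card))) := by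
  have hpr : ∀ p ∈ P, p.Prime := fun p hp => (hP p hp).1
  have h28 : ∀ p ∈ P, ¬ p ∣ 28 := by
    intro p hp hd
    have h1 := (hP p hp)
    have h2 : p ∣ 2 ^ 2 * 7 := by norm_num; exact hd
    rcases h1.1.dvd_mul.1 h2 with h3 | h3
    · have := h1.1.dvd_of_dvd_pow h3
      have h4 := (Nat.prime_dvd_prime_iff_eq h1.1 Nat.prime_two).1 this
      omega
    · have h4 := (Nat.prime_dvd_prime_iff_eq h1.1 (by norm_num)).1 h3
      omega
  set f : ∀ p : P, (ZMod (p : ℕ))ˣ →* ℤˣ := fun p => qh p (hpr p p.2) with hf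
  have hd := dist_gen (m := 28) (P := P) (by norm_num) hpr h28 f
    (fun p => qh_surj (hpr p p.2) (by
      intro h
      have := (hP p p.2).2
      omega)) (TT P I A F)
  have hlim : ((TT P I A F).card : ℝ) / (((28 : ℕ).totient : ℕ) * Fintype.card ℤˣ ^ P.card) =
      (num P I A F : ℝ) / (4 * 2 ^ P.card) := by
    have h1 : (28 : ℕ).totient = 12 := by decide
    have h2 : Fintype.card ℤˣ = 2 := rfl
    rw [card_TT, h1, h2]
    push_cast
    field_simp
    ring
  rw [hlim] at hd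
  refine hd.congr fun X => ?_
  congr 3
  ext q
  simp only [Finset.mem_filter]
  refine and_congr_right fun _ => and_congr_right fun hq => ?_
  have hex : ∀ (v : P → ℤˣ), (∀ p : P, ∃ y : (ZMod (p : ℕ))ˣ, (q : ZMod (p : ℕ)) = y ∧ f p y = v p) →
      ∀ p ∈ P, ex (vec v) p = nsq p q := by
    intro v hv p hp
    unfold ex vec
    rw [dif_pos hp]
    obtain ⟨y, hy1, hy2⟩ := hv ⟨p, hp⟩
    rw [nsq_eq (hpr p hp) hy1, ← hy2]
  unfold InT
  constructor
  · rintro ⟨x, hx, h1, h2⟩
    unfold TT at hx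
    rw [Finset.mem_product, Finset.mem_filter] at hx
    obtain ⟨a, b⟩ := (mod28 hq).2 ⟨x.1, hx.1, h1⟩
    refine ⟨a, b, ?_, fun i hi => ?_⟩
    · intro hqP
      obtain ⟨y, hy1, -⟩ := h2 ⟨q, hqP⟩
      have h3 : ((q : ℕ) : ZMod q) = 0 := ZMod.natCast_self q
      haveI : Fact q.Prime := ⟨hq⟩
      have h4 : ((q : ℕ) : ZMod q) = (y : ZMod q) := hy1
      rw [h3] at h4
      exact y.ne_zero h4.symm
    · exact (hx.2.2 i hi).congr fun p hp => hex x.2 h2 p (hF i hi hp)
  · rintro ⟨a, b, c, d⟩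
    obtain ⟨u, hu1, hu2⟩ := (mod28 hq).1 ⟨a, b⟩
    have hun : ∀ p : P, ∃ y : (ZMod (p : ℕ))ˣ, (q : ZMod (p : ℕ)) = y := by
      intro p
      have h3 : Nat.Coprime q p := by
        rw [Nat.coprime_primes hq (hpr p p.2)]
        exact fun h => c (h ▸ p.2)
      exact ⟨ZMod.unitOfCoprime q h3, (ZMod.coe_unitOfCoprime q h3).symm⟩
    choose y hy using hun
    have hv : ∀ p : P, ∃ y' : (ZMod (p : ℕ))ˣ, (q : ZMod (p : ℕ)) = y' ∧ f p y' = f p (y p) :=
      fun p => ⟨y p, hy p, rfl⟩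
    refine ⟨(u, fun p => f p (y p)), ?_, hu2, hv⟩
    unfold TT
    rw [Finset.mem_product, Finset.mem_filter]
    refine ⟨hu1, Finset.mem_univ _, fun i hi => ?_⟩
    exact (d i hi).congr fun p hp => (hex _ hv p (hF i hi hp)).symm

end Pool.Agent.H20PT.X49
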