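import Pool.Agent.H20PT.Cls
import Pool.Agent.H20PT.X49
import Pool.Agent.Q283.TW.Gal

/-!
# Square roots, fourth roots of `-7` and Frobenius elements
-/

set_option autoImplicit false
set_option linter.unusedSectionVars false

namespace Pool.Agent.H20PT.Q4

open NumberField Filter Topology Finset Pool.Agent.W401.Cheb Polynomial
open Q283.TW (fixed_iff two_ne frob_sqrt gal_sqrt ng)
open scoped Classical

/-- the data -/
structure Dat (L : Type) [Field L] [NumberField L] [IsGalois ℚ L] (P : Finset ℕ) where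
  Z : 𝓞 L
  A : 𝓞 L
  s : ℕ → L
  hZ : Z ^ 2 = -1
  hA : A ^ 4 = -7
  hs : ∀ p ∈ P, s p ^ 2 = (((p : ℕ) : ℤ) : L)

theorem exists_dat (P : Finset ℕ) : ∃ (L : Type) (_ : Field L) (_ : NumberField L)
    (_ : IsGalois ℚ L), Nonempty (Dat L P) := by
  set h1 : ℚ[X] := X ^ 2 - C (-1) with hh1
  set h2 : ℚ[X] := X ^ 4 - C (-7) with hh2
  set q : ℕ → ℚ[X] := fun a => X ^ 2 - C (a : ℚ) with hq
  set f : ℚ[X] := (h1 * h2) * ∏ a ∈ P, q a with hf
  have hd1 : h1.natDegree = 2 := natDegree_X_pow_sub_C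
  have hd2 : h2.natDegree = 4 := natDegree_X_pow_sub_C
  have hqd : ∀ a, (q a).natDegree = 2 := fun a => natDegree_X_pow_sub_C
  have h10 : h1 ≠ 0 := by intro h0; rw [h0] at hd1; simp at hd1
  have h20 : h2 ≠ 0 := by intro h0; rw [h0] at hd2; simp at hd2
  have hq0 : ∀ a, q a ≠ 0 := by intro a h0; have := hqd a; rw [h0] at this; simp at this
  have hf0 : f ≠ 0 := mul_ne_zero (mul_ne_zero h10 h20) (Finset.prod_ne_zero_iff.2 fun a _ => hq0 a)
  obtain ⟨L, hL, hN, hG, hsp⟩ := Q283.TW.gen_split_rat f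
  refine ⟨L, hL, hN, hG, ?_⟩
  have hfm : f.map (algebraMap ℚ L) ≠ 0 := by
    rwa [Ne, Polynomial.map_eq_zero]
  have key : ∀ g : ℚ[X], g ∣ f → g.natDegree ≠ 0 →
      ∃ x : L, (g.map (algebraMap ℚ L)).eval x = 0 := by
    intro g hg hd
    have h1 := hsp.of_dvd hfm (Polynomial.map_dvd _ hg)
    refine h1.exists_eval_eq_zero ?_
    rw [Polynomial.degree_map]
    intro h2
    exact hd (natDegree_eq_of_degree_eq_some h2)
  obtain ⟨z, hz⟩ := key h1 ((Dvd.intro _ rfl : h1 ∣ h1 * h2).mul_right _) (by rw [hd1]; norm_num)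
  obtain ⟨a, ha⟩ := key h2 ((Dvd.intro_left _ rfl : h2 ∣ h1 * h2).mul_right _)
    (by rw [hd2]; norm_num)
  have hev : ∀ (n : ℕ) (c : ℚ) (x : L), ((X ^ n - C c : ℚ[X]).map (algebraMap ℚ L)).eval x =
      x ^ n - algebraMap ℚ L c := by
    intro n c x
    simp only [Polynomial.map_sub, Polynomial.map_pow, Polynomial.map_X, Polynomial.map_C, eval_sub,
      eval_pow, eval_X, eval_C]
  have hz' : z ^ 2 = -1 := by
    rw [hh1, hev, map_neg, map_one] at hz
    linear_combination hz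
  have ha' : a ^ 4 = -7 := by
    rw [hh2, hev, map_neg, map_ofNat] at ha
    linear_combination ha
  have hzi : IsIntegral ℤ z := by
    refine IsIntegral.of_pow (n := 2) (by norm_num) ?_
    rw [hz']
    exact isIntegral_one.neg
  have hai : IsIntegral ℤ a := by
    refine IsIntegral.of_pow (n := 4) (by norm_num) ?_
    rw [ha']
    have : IsIntegral ℤ ((7 : ℤ) : L) := isIntegral_algebraMap (R := ℤ) (x := 7)
    have h7 : (-7 : L) = -((7 : ℤ) : L) := by push_cast; rfl
    rw [h7]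
    exact this.neg
  have hs : ∀ p : ℕ, ∃ x : L, p ∈ P → x ^ 2 = (((p : ℕ) : ℤ) : L) := by
    intro p
    by_cases hp : p ∈ P
    · obtain ⟨x, hx⟩ := key (q p) ((Finset.dvd_prod_of_mem q hp).mul_left _)
        (by rw [hqd]; norm_num)
      refine ⟨x, fun _ => ?_⟩
      rw [hq, hev, map_natCast] at hx
      push_cast
      linear_combination hx
    · exact ⟨0, fun h => absurd h hp⟩
  choose s hs' using hs
  refine ⟨⟨⟨z, hzi⟩, ⟨a, hai⟩, s, ?_, ?_, hs'⟩⟩
  · apply RingOfIntegers.coe_injective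
    rw [map_pow, map_neg, map_one]
    exact hz'
  · apply RingOfIntegers.coe_injective
    rw [map_pow, map_neg, map_ofNat]
    exact ha'

section
variable {p : ℕ} [hp : Fact p.Prime] {L : Type} [Field L] [NumberField L] [IsGalois ℚ L]
  {φ : 𝓞 L →+* AlgebraicClosure (ZMod p)} {g : Gal(L/ℚ)} {A Z : 𝓞 L}

/-- **Frobenius and fourth roots of `-7`.** -/
theorem frob_fourth (hφ : HasFrob p φ g) (hA : A ^ 4 = -7) (hZ : Z ^ 2 = -1) (h2 : p ≠ 2)
    (h7 : p ≠ 7) (h4 : p % 4 = 1) : g • A = A ↔ ∃ y : ZMod p, y ^ 4 = -7 := by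
  have ht4 : φ A ^ 4 = -7 := by rw [← map_pow, hA, map_neg, map_ofNat]
  have hz2 : φ Z ^ 2 = -1 := by rw [← map_pow, hZ, map_neg, map_one]
  have h20 := two_ne (p := p) h2
  have h70 : (7 : AlgebraicClosure (ZMod p)) ≠ 0 := by
    intro h
    have h1 : algebraMap (ZMod p) (AlgebraicClosure (ZMod p)) 7 =
        algebraMap (ZMod p) (AlgebraicClosure (ZMod p)) 0 := by
      rw [map_ofNat, map_zero]; exact h
    have h3 : ((7 : ℕ) : ZMod p) = 0 := by exact_mod_cast Q283.TW.cast_inj h1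
    rw [ZMod.natCast_eq_zero_iff] at h3
    exact h7 ((Nat.prime_dvd_prime_iff_eq hp.out (by norm_num)).1 h3)
  have ht0 : φ A ≠ 0 := by
    intro h
    rw [h, zero_pow (by norm_num)] at ht4
    apply h70
    linear_combination ht4
  constructor
  · intro h
    have h6 := hφ A
    rw [h] at h6
    obtain ⟨y, hy⟩ := (fixed_iff _).1 h6.symm
    refine ⟨y, ?_⟩
    apply Q283.TW.cast_inj
    rw [map_pow, hy, ht4, map_neg, map_ofNat]
  · rintro ⟨y, hy⟩
    obtain ⟨c, hc⟩ : ∃ c : ZMod p, c ^ 2 = -1 := by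
      obtain ⟨c, hc⟩ := ZMod.exists_sq_eq_neg_one_iff.2 (show p % 4 ≠ 3 by omega)
      exact ⟨c, by rw [sq]; exact hc.symm⟩
    set ι := algebraMap (ZMod p) (AlgebraicClosure (ZMod p)) with hι
    have hc' : (ι c) ^ 2 = -1 := by rw [← map_pow, hc, map_neg, map_one]
    have hy' : (ι y) ^ 4 = -7 := by rw [← map_pow, hy, map_neg, map_ofNat]
    -- the image of `A` is rational
    have h5 : (φ A) ^ p = φ A := by
      rw [fixed_iff]
      have e1 : (φ A ^ 2) ^ 2 = (ι y ^ 2) ^ 2 := by linear_combination ht4 - hy'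
      rcases sq_eq_sq_iff_eq_or_eq_neg.1 e1 with e2 | e2
      · rcases sq_eq_sq_iff_eq_or_eq_neg.1 e2 with e3 | e3
        · exact ⟨y, e3.symm⟩
        · exact ⟨-y, by rw [map_neg]; exact e3.symm⟩
      · have e3 : φ A ^ 2 = (ι (c * y)) ^ 2 := by
          rw [map_mul]
          linear_combination e2 - (ι y) ^ 2 * hc'
        rcases sq_eq_sq_iff_eq_or_eq_neg.1 e3 with e4 | e4
        · exact ⟨c * y, e4.symm⟩
        · exact ⟨-(c * y), by rw [map_neg]; exact e4.symm⟩
    have h6 := hφ A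
    rw [h5] at h6
    have hgA : (g • A) ^ 4 = -7 := by
      rw [← smul_pow', hA, smul_neg]
      congr 1
      exact map_ofNat (MulSemiringAction.toRingHom Gal(L/ℚ) (𝓞 L) g) 7
    have e1 : ((g • A) ^ 2) ^ 2 = (A ^ 2) ^ 2 := by linear_combination hgA - hA
    rcases sq_eq_sq_iff_eq_or_eq_neg.1 e1 with e2 | e2
    · rcases sq_eq_sq_iff_eq_or_eq_neg.1 e2 with e3 | e3
      · exact e3
      · exfalso
        rw [e3, map_neg] at h6
        have : (2 : AlgebraicClosure (ZMod p)) * φ A = 0 := by linear_combination -h6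
        rcases mul_eq_zero.1 this with h | h
        · exact h20 h
        · exact ht0 h
    · exfalso
      have e3 : (g • A) ^ 2 = (Z * A) ^ 2 := by linear_combination e2 - A ^ 2 * hZ
      have e4 : (φ (g • A)) ^ 2 = -(φ A) ^ 2 := by
        rw [← map_pow, e3, map_pow, map_mul, mul_pow, hz2]
        ring
      rw [h6] at e4
      have : (2 : AlgebraicClosure (ZMod p)) * φ A ^ 2 = 0 := by linear_combination e4
      rcases mul_eq_zero.1 this with h | h
      · exact h20 h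
      · exact ht0 (pow_eq_zero_iff (by norm_num)|>.1 h)

end

section
variable {L : Type} [Field L] [NumberField L] [IsGalois ℚ L] {P : Finset ℕ} (E : Dat L P)

theorem Dat.A0 : E.A ≠ 0 := by
  intro h
  have h1 := E.hA
  rw [h, zero_pow (by norm_num)] at h1
  have h2 := congrArg (algebraMap (𝓞 L) L) h1
  rw [map_zero, map_neg, map_ofNat] at h2
  norm_num at h2

theorem two_mul_ne {x : 𝓞 L} (hx : x ≠ 0) : -x ≠ x := by
  intro h
  apply hx
  have h1 : (2 : 𝓞 L) * x = 0 := by linear_combination -h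
  rcases mul_eq_zero.1 h1 with h2 | h2
  · exfalso
    have h3 := congrArg (algebraMap (𝓞 L) L) h2
    rw [map_zero, map_ofNat] at h3
    norm_num at h3
  · exact h2

/-- the class of the automorphisms with given signs -/
def Dat.C (u : P → ZMod 2) (w : ZMod 2) (g : Gal(L/ℚ)) : Prop :=
  g • E.Z = E.Z ∧ g • E.A ^ 2 = E.A ^ 2 ∧ (∀ p : P, ng g (E.s p) = u p) ∧
    (if g • E.A = E.A then (0 : ZMod 2) else 1) = w

/-- an automorphism fixing the square roots and changing the sign of the fourth root -/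
theorem Dat.exists_h (g0 : Gal(L/ℚ)) (h1 : g0 • E.Z = E.Z) (h2 : g0 • E.A ^ 2 ≠ E.A ^ 2) :
    ∃ h : Gal(L/ℚ), h • E.Z = E.Z ∧ h • E.A = -E.A ∧ ∀ p ∈ P, h (E.s p) = E.s p := by
  have e0 : (g0 • E.A ^ 2) ^ 2 = (E.A ^ 2) ^ 2 := by
    rw [← smul_pow', ← pow_mul, E.hA, smul_neg]
    congr 1
    exact map_ofNat (MulSemiringAction.toRingHom Gal(L/ℚ) (𝓞 L) g0) 7
  have e1 : g0 • E.A ^ 2 = -E.A ^ 2 := by
    rcases sq_eq_sq_iff_eq_or_eq_neg.1 e0 with h | h
    · exact absurd h h2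
    · exact h
  have e2 : (g0 • E.A) ^ 2 = (E.Z * E.A) ^ 2 := by
    rw [← smul_pow', e1]
    linear_combination (-E.A ^ 2) * E.hZ
  refine ⟨g0 * g0, ?_, ?_, fun p hp => ?_⟩
  · rw [mul_smul, h1, h1]
  · rw [mul_smul]
    rcases sq_eq_sq_iff_eq_or_eq_neg.1 e2 with h | h
    · rw [h, smul_mul', h1, h]
      linear_combination E.A * E.hZ
    · rw [h, smul_neg, smul_mul', h1, h]
      linear_combination E.A * E.hZ
  · have hm : (g0 * g0) (E.s p) = g0 (g0 (E.s p)) := rfl
    rw [hm]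
    rcases gal_sqrt g0 (E.hs p hp) with h | h
    · rw [h, h]
    · rw [h, map_neg, h, neg_neg]

/-- the two classes have the same number of elements -/
theorem Dat.card_C (g0 : Gal(L/ℚ)) (h1 : g0 • E.Z = E.Z) (h2 : g0 • E.A ^ 2 ≠ E.A ^ 2)
    (u : P → ZMod 2) : Nat.card {g : Gal(L/ℚ) // E.C u 0 g} = Nat.card {g : Gal(L/ℚ) // E.C u 1 g} := by
  obtain ⟨h, a1, a2, a3⟩ := E.exists_h g0 h1 h2
  have hA2 : h • E.A ^ 2 = E.A ^ 2 := by rw [smul_pow', a2, neg_sq]
  have hng : ∀ (g : Gal(L/ℚ)) (p : P), ng (g * h) (E.s p) = ng g (E.s p) := by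
    intro g p
    have hm : (g * h) (E.s p) = g (E.s p) := by
      show g (h (E.s p)) = _
      rw [a3 p p.2]
    unfold ng
    rw [hm]
  have hgA : ∀ g : Gal(L/ℚ), (g * h) • E.A = -(g • E.A) := by
    intro g
    rw [mul_smul, a2, smul_neg]
  have hpm : ∀ g : Gal(L/ℚ), g • E.A ^ 2 = E.A ^ 2 → g • E.A = E.A ∨ g • E.A = -E.A := by
    intro g hg
    rw [smul_pow'] at hg
    exact sq_eq_sq_iff_eq_or_eq_neg.1 hg
  have hne := two_mul_ne E.A0
  have key0 : ∀ g : Gal(L/ℚ), E.C u 0 g → E.C u 1 (g * h) := by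
    rintro g ⟨b1, b2, b3, b4⟩
    refine ⟨by rw [mul_smul, a1, b1], by rw [mul_smul, hA2, b2], fun p => by rw [hng, b3], ?_⟩
    have hg : g • E.A = E.A := by
      by_contra hc
      rw [if_neg hc] at b4
      exact absurd b4 (by decide)
    rw [hgA, hg, if_neg hne]
  have key1 : ∀ g : Gal(L/ℚ), E.C u 1 g → E.C u 0 (g * h) := by
    rintro g ⟨b1, b2, b3, b4⟩
    refine ⟨by rw [mul_smul, a1, b1], by rw [mul_smul, hA2, b2], fun p => by rw [hng, b3], ?_⟩
    have hg : g • E.A = -E.A := by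
      rcases hpm g b2 with hc | hc
      · rw [if_pos hc] at b4
        exact absurd b4 (by decide)
      · exact hc
    rw [hgA, hg, neg_neg, if_pos rfl]
  apply le_antisymm
  · exact Nat.card_le_card_of_injective (fun g => ⟨g.1 * h, key0 g.1 g.2⟩) (fun a b hab => by
      apply Subtype.ext
      exact mul_right_cancel (congrArg Subtype.val hab))
  · exact Nat.card_le_card_of_injective (fun g => ⟨g.1 * h, key1 g.1 g.2⟩) (fun a b hab => by
      apply Subtype.ext
      exact mul_right_cancel (congrArg Subtype.val hab))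

end

end Pool.Agent.H20PT.Q4
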